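import Pool.Agent.H730R2.LD.Sys

set_option autoImplicit false

/-!
# The concrete system on the grid `(Fin (2^R))^d`
-/

namespace Pool.Agent.H730R2.LD

open Finset

/-- a block of the dyadic partition has `2 ^ (R - k)` elements -/
theorem grid_block_card (R k : ℕ) (a : Fin (2 ^ R)) :
    (∑ b : Fin (2 ^ R), if b.val / 2 ^ (R - k) = a.val / 2 ^ (R - k) then (1 : ℝ) else 0) =
      2 ^ (R - k) := by
  set m : ℕ := 2 ^ (R - k) with hm
  have hmpos : 0 < m := by positivity
  set q : ℕ := a.val / m with hq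
  have hdvd : m ∣ 2 ^ R := pow_dvd_pow 2 (Nat.sub_le R k)
  obtain ⟨e, he⟩ := hdvd
  have hqe : q < e := by
    rw [hq, Nat.div_lt_iff_lt_mul hmpos]
    have := a.isLt
    rw [mul_comm]; omega
  rw [Fin.sum_univ_eq_sum_range (fun b => if b / m = q then (1 : ℝ) else 0) (2 ^ R)]
  rw [← Finset.sum_filter]
  have hset : (Finset.range (2 ^ R)).filter (fun b => b / m = q) =
      Finset.Ico (q * m) ((q + 1) * m) := by
    ext b
    simp only [Finset.mem_filter, Finset.mem_range, Finset.mem_Ico]
    constructor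
    · rintro ⟨_, h⟩
      constructor
      · rw [← h]; exact Nat.div_mul_le_self b m
      · rw [← h, mul_comm]; exact Nat.lt_mul_div_succ b hmpos
    · rintro ⟨h1, h2⟩
      constructor
      · have h3 : (q + 1) * m ≤ e * m := Nat.mul_le_mul_right m hqe
        rw [he, mul_comm m e]; omega
      · apply le_antisymm
        · rw [← Nat.lt_succ_iff, Nat.div_lt_iff_lt_mul hmpos]; exact h2
        · rw [Nat.le_div_iff_mul_le hmpos]; exact h1
  rw [hset, Finset.sum_const, Nat.card_Ico]
  have : (q + 1) * m - q * m = m := by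
    rw [Nat.succ_mul]; omega
  rw [this, hm]
  simp

/-- the averaging operator of the grid -/
noncomputable def Egrid (d R : ℕ) (s : Fin d) (k : ℕ) :
    ((Fin d → Fin (2 ^ R)) → ℝ) →ₗ[ℝ] ((Fin d → Fin (2 ^ R)) → ℝ) where
  toFun f := fun x => (∑ b : Fin (2 ^ R), if b.val / 2 ^ (R - k) = (x s).val / 2 ^ (R - k) then
    f (Function.update x s b) else 0) / 2 ^ (R - k)
  map_add' f g := by
    ext x
    simp only [Pi.add_apply]
    rw [← add_div, ← Finset.sum_add_distrib]
    congr 1
    apply Finset.sum_congr rfl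
    intro b _
    split_ifs <;> simp
  map_smul' c f := by
    ext x
    simp only [Pi.smul_apply, smul_eq_mul, RingHom.id_apply]
    rw [← mul_div_assoc, Finset.mul_sum]
    congr 1
    apply Finset.sum_congr rfl
    intro b _
    split_ifs <;> simp

theorem Egrid_apply (d R : ℕ) (s : Fin d) (k : ℕ) (f : (Fin d → Fin (2 ^ R)) → ℝ)
    (x : Fin d → Fin (2 ^ R)) :
    Egrid d R s k f x =
      (∑ b : Fin (2 ^ R), if b.val / 2 ^ (R - k) = (x s).val / 2 ^ (R - k) then
        f (Function.update x s b) else 0) / 2 ^ (R - k) := rfl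

theorem Egrid_sum (d R : ℕ) (s : Fin d) (k : ℕ) (f : (Fin d → Fin (2 ^ R)) → ℝ) :
    ∑ x, Egrid d R s k f x = ∑ x, f x := by
  have hpos : (0 : ℝ) < 2 ^ (R - k) := by positivity
  simp only [Egrid_apply]
  rw [← Finset.sum_div, div_eq_iff hpos.ne', Finset.sum_mul]
  -- pass to pairs
  have h1 : (∑ x : Fin d → Fin (2 ^ R), ∑ b : Fin (2 ^ R),
      if b.val / 2 ^ (R - k) = (x s).val / 2 ^ (R - k) then f (Function.update x s b) else 0) =
      ∑ p : (Fin d → Fin (2 ^ R)) × Fin (2 ^ R),
        if p.2.val / 2 ^ (R - k) = (p.1 s).val / 2 ^ (R - k) then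
          f (Function.update p.1 s p.2) else 0 := by
    rw [Fintype.sum_prod_type]
  have h2 : (∑ x : Fin d → Fin (2 ^ R), f x * 2 ^ (R - k)) =
      ∑ p : (Fin d → Fin (2 ^ R)) × Fin (2 ^ R),
        if p.2.val / 2 ^ (R - k) = (p.1 s).val / 2 ^ (R - k) then f p.1 else 0 := by
    rw [Fintype.sum_prod_type]
    apply Finset.sum_congr rfl
    intro x _
    rw [← grid_block_card R k (x s), Finset.mul_sum]
    apply Finset.sum_congr rfl
    intro b _
    split_ifs <;> simp
  rw [h1, h2]
  let e : (Fin d → Fin (2 ^ R)) × Fin (2 ^ R) → (Fin d → Fin (2 ^ R)) × Fin (2 ^ R) :=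
    fun p => (Function.update p.1 s p.2, p.1 s)
  have he : ∀ p, e (e p) = p := by
    rintro ⟨x, b⟩
    simp [e]
  have heq : Function.Involutive e := he
  rw [← Equiv.sum_comp heq.toPerm]
  apply Finset.sum_congr rfl
  rintro ⟨x, b⟩ _
  simp only [Function.Involutive.coe_toPerm, e, Function.update_self, Function.update_idem,
    Function.update_eq_self]
  by_cases h : (x s).val / 2 ^ (R - k) = b.val / 2 ^ (R - k)
  · rw [if_pos h, if_pos h.symm]
  · rw [if_neg h, if_neg (fun h' => h h'.symm)]

theorem Egrid_comm (d R : ℕ) (s t : Fin d) (k l : ℕ) (f : (Fin d → Fin (2 ^ R)) → ℝ)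
    (hst : s ≠ t) : Egrid d R s k (Egrid d R t l f) = Egrid d R t l (Egrid d R s k f) := by
  ext x
  have expand : ∀ (s t : Fin d) (k l : ℕ), s ≠ t → Egrid d R s k (Egrid d R t l f) x =
      (∑ b : Fin (2 ^ R), ∑ c : Fin (2 ^ R),
        if b.val / 2 ^ (R - k) = (x s).val / 2 ^ (R - k) ∧
          c.val / 2 ^ (R - l) = (x t).val / 2 ^ (R - l) then
          f (Function.update (Function.update x s b) t c) else 0) /
        2 ^ (R - l) / 2 ^ (R - k) := by
    intro s t k l hst
    rw [Egrid_apply]
    congr 1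
    rw [Finset.sum_div]
    apply Finset.sum_congr rfl
    intro b _
    by_cases h : b.val / 2 ^ (R - k) = (x s).val / 2 ^ (R - k)
    · rw [if_pos h, Egrid_apply]
      congr 1
      apply Finset.sum_congr rfl
      intro c _
      rw [Function.update_of_ne hst.symm]
      simp [h]
    · rw [if_neg h]
      symm
      apply div_eq_zero_iff.mpr
      left
      apply Finset.sum_eq_zero
      intro c _
      rw [if_neg (fun h' => h h'.1)]
  rw [expand s t k l hst, expand t s l k hst.symm, Finset.sum_comm, div_right_comm]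
  congr 2
  apply Finset.sum_congr rfl
  intro c _
  apply Finset.sum_congr rfl
  intro b _
  rw [Function.update_comm hst b c x]
  simp only [and_comm]

theorem Egrid_haar (d R : ℕ) (s : Fin d) (k : ℕ) (f : (Fin d → Fin (2 ^ R)) → ℝ) (hk : k < R)
    (r : (Fin d → Fin (2 ^ R)) → ℝ)
    (hr : ∀ x, r x = if (x s).val / 2 ^ (R - k - 1) % 2 = 1 then 1 else -1) :
    Egrid d R s (k + 1) f = Egrid d R s k f + r * Egrid d R s k (r * f) := by
  ext x
  simp only [Pi.add_apply, Pi.mul_apply, Egrid_apply]
  have e1 : R - (k + 1) = R - k - 1 := by omega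
  have e2 : R - k = (R - k - 1) + 1 := by omega
  set j := R - k - 1 with hj
  rw [e1, e2]
  have hpos : (0 : ℝ) < 2 ^ j := by positivity
  have e3 : (2 : ℝ) ^ (j + 1) = 2 * 2 ^ j := by rw [pow_succ]; ring
  have e4 : ∀ a : ℕ, a / 2 ^ (j + 1) = a / 2 ^ j / 2 := by
    intro a
    rw [pow_succ, Nat.div_div_eq_div_mul]
  rw [e3]
  simp only [e4]
  rw [← mul_div_assoc, ← add_div, Finset.mul_sum, ← Finset.sum_add_distrib,
    div_eq_div_iff hpos.ne' (by positivity), Finset.sum_mul, Finset.sum_mul]
  apply Finset.sum_congr rfl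
  intro b _
  rw [hr x, hr (Function.update x s b), Function.update_self]
  generalize hb : b.val / 2 ^ j = B
  generalize ha : (x s).val / 2 ^ j = A
  by_cases h : B = A
  · subst h
    simp only [if_true]
    by_cases h1 : B % 2 = 1
    · simp [h1]; ring
    · simp [h1]; ring
  · rw [if_neg h]
    by_cases h2 : B / 2 = A / 2
    · rw [if_pos h2, if_pos h2]
      have h3 : B % 2 ≠ A % 2 := by omega
      by_cases h1 : B % 2 = 1
      · have h4 : ¬ A % 2 = 1 := by omega
        simp [h1, h4]
      · have h4 : A % 2 = 1 := by omega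
        simp [h1, h4]
    · rw [if_neg h2, if_neg h2]
      simp

/-- T5 (file Grid.lean) the concrete system on the grid `(Fin (2^R))^d` -/
noncomputable def gridSys (d R : ℕ) : Sys d R (Fin d → Fin (2 ^ R)) where
  rel s k x y := (∀ t, t ≠ s → x t = y t) ∧ (x s).val / 2 ^ (R - k) = (y s).val / 2 ^ (R - k)
  E s k := Egrid d R s k
  r s k x := if (x s).val / 2 ^ (R - k - 1) % 2 = 1 then 1 else -1
  rel_refl := fun _ _ _ => ⟨fun _ _ => rfl, rfl⟩
  rel_symm := fun _ _ _ _ h => ⟨fun t ht => (h.1 t ht).symm, h.2.symm⟩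
  rel_trans := fun _ _ _ _ _ h1 h2 =>
    ⟨fun t ht => (h1.1 t ht).trans (h2.1 t ht), h1.2.trans h2.2⟩
  rel_mono := by
    rintro s k l x y hkl ⟨h1, h2⟩
    refine ⟨h1, ?_⟩
    have e : R - k = (R - l) + (R - k - (R - l)) := by omega
    rw [e, pow_add, ← Nat.div_div_eq_div_mul, ← Nat.div_div_eq_div_mul, h2]
  E_le := by
    intro s k f g x h
    rw [Egrid_apply, Egrid_apply]
    apply div_le_div_of_nonneg_right _ (by positivity)
    apply Finset.sum_le_sum
    intro b _
    split_ifs with hb
    · apply h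
      refine ⟨fun t ht => ?_, ?_⟩
      · rw [Function.update_of_ne ht]
      · rw [Function.update_self]; exact hb.symm
    · exact le_refl _
  E_meas := by
    rintro s k f x y ⟨h1, h2⟩
    rw [Egrid_apply, Egrid_apply]
    congr 1
    apply Finset.sum_congr rfl
    intro b _
    have e : Function.update x s b = Function.update y s b := by
      ext t
      by_cases ht : t = s
      · subst ht; simp
      · rw [Function.update_of_ne ht, Function.update_of_ne ht, h1 t ht]
    rw [e, h2]
  E_pull := by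
    intro s k φ f h
    ext x
    simp only [Pi.mul_apply, Egrid_apply]
    rw [← mul_div_assoc, Finset.mul_sum]
    congr 1
    apply Finset.sum_congr rfl
    intro b _
    split_ifs with hb
    · rw [← h x (Function.update x s b)]
      refine ⟨fun t ht => ?_, ?_⟩
      · rw [Function.update_of_ne ht]
      · rw [Function.update_self]; exact hb.symm
    · simp
  E_one := by
    intro s k
    ext x
    simp only [Egrid_apply, Pi.one_apply]
    rw [grid_block_card R k (x s)]
    exact div_self (by positivity)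
  E_sum := Egrid_sum d R
  E_comm := fun s t k l f hst => Egrid_comm d R s t k l f hst
  E_top := by
    intro s f
    ext x
    simp only [Egrid_apply, Nat.sub_self, pow_zero, Nat.div_one, div_one]
    rw [Finset.sum_eq_single (x s)]
    · simp
    · intro b _ hb
      rw [if_neg]
      intro h
      exact hb (Fin.ext h)
    · intro h
      exact absurd (Finset.mem_univ _) h
  r_sq := by
    intro s k x
    split_ifs <;> norm_num
  r_other := by
    rintro s t k l x y hst ⟨h1, _⟩
    rw [h1 s hst]
  haar := by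
    intro s k f hk
    exact Egrid_haar d R s k f hk _ (fun x => rfl)

@[simp] theorem gridSys_E (d R : ℕ) (s : Fin d) (k : ℕ) :
    (gridSys d R).E s k = Egrid d R s k := rfl

@[simp] theorem gridSys_r (d R : ℕ) (s : Fin d) (k : ℕ) (x : Fin d → Fin (2 ^ R)) :
    (gridSys d R).r s k x = if (x s).val / 2 ^ (R - k - 1) % 2 = 1 then 1 else -1 := rfl

@[simp] theorem gridSys_rel (d R : ℕ) (s : Fin d) (k : ℕ) (x y : Fin d → Fin (2 ^ R)) :
    (gridSys d R).rel s k x y ↔
      (∀ t, t ≠ s → x t = y t) ∧ (x s).val / 2 ^ (R - k) = (y s).val / 2 ^ (R - k) := Iff.rfl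

end Pool.Agent.H730R2.LD
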