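import Mathlib

set_option autoImplicit false

/-!
# Commuting systems of dyadic conditional expectations

Abstract frame for the product of `d` dyadic trees with `R` digits: `E s k` averages over the
coordinate `s` given its first `k` digits, `r s k` is the sign of the digit number `k`.
-/

namespace Pool.Agent.H730R2.LD

open Finset

structure Sys (d R : ℕ) (X : Type) [Fintype X] where
  rel : Fin d → ℕ → X → X → Prop
  E : Fin d → ℕ → (X → ℝ) →ₗ[ℝ] (X → ℝ)
  r : Fin d → ℕ → X → ℝ
  rel_refl : ∀ s k x, rel s k x x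
  rel_symm : ∀ s k x y, rel s k x y → rel s k y x
  rel_trans : ∀ s k x y z, rel s k x y → rel s k y z → rel s k x z
  rel_mono : ∀ s k l x y, k ≤ l → rel s l x y → rel s k x y
  E_le : ∀ s k (f g : X → ℝ) x, (∀ y, rel s k x y → f y ≤ g y) → E s k f x ≤ E s k g x
  E_meas : ∀ s k f x y, rel s k x y → E s k f x = E s k f y
  E_pull : ∀ s k (φ f : X → ℝ), (∀ x y, rel s k x y → φ x = φ y) →
    E s k (φ * f) = φ * E s k f
  E_one : ∀ s k, E s k 1 = 1
  E_sum : ∀ s k f, ∑ x, E s k f x = ∑ x, f x
  E_comm : ∀ s t k l f, s ≠ t → E s k (E t l f) = E t l (E s k f)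
  E_top : ∀ s f, E s R f = f
  r_sq : ∀ s k x, r s k x * r s k x = 1
  r_other : ∀ s t k l x y, s ≠ t → rel t l x y → r s k x = r s k y
  haar : ∀ s k f, k < R → E s (k + 1) f = E s k f + r s k * E s k (r s k * f)

variable {d R : ℕ} {X : Type} [Fintype X] (S : Sys d R X)

/-- sum of squares -/
def nsq (f : X → ℝ) : ℝ := ∑ x, f x ^ 2

/-- indicator of a finite set -/
noncomputable def ind (A : Finset X) : X → ℝ := by
  classical
  exact fun x => if x ∈ A then 1 else 0

omit [Fintype X] in
theorem ind_mem {A : Finset X} {x : X} (h : x ∈ A) : ind A x = 1 := by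
  unfold ind; simp [h]

omit [Fintype X] in
theorem ind_notMem {A : Finset X} {x : X} (h : x ∉ A) : ind A x = 0 := by
  unfold ind; simp [h]

omit [Fintype X] in
theorem ind_nonneg (A : Finset X) (x : X) : 0 ≤ ind A x := by
  unfold ind; split_ifs <;> norm_num

omit [Fintype X] in
theorem ind_le_one (A : Finset X) (x : X) : ind A x ≤ 1 := by
  unfold ind; split_ifs <;> norm_num

theorem nsq_ind (A : Finset X) : nsq (ind A) = A.card := by
  classical
  unfold nsq ind
  simp [Finset.sum_ite_mem]

theorem nsq_nonneg (f : X → ℝ) : 0 ≤ nsq f := Finset.sum_nonneg fun _ _ => sq_nonneg _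

namespace Sys

theorem E_mono (s : Fin d) (k : ℕ) {f g : X → ℝ} (h : ∀ x, f x ≤ g x) (x : X) :
    S.E s k f x ≤ S.E s k g x := S.E_le s k f g x fun y _ => h y

theorem E_local (s : Fin d) (k : ℕ) {f g : X → ℝ} (x : X)
    (h : ∀ y, S.rel s k x y → f y = g y) : S.E s k f x = S.E s k g x :=
  le_antisymm (S.E_le s k f g x fun y hy => (h y hy).le)
    (S.E_le s k g f x fun y hy => (h y hy).ge)

theorem E_const (s : Fin d) (k : ℕ) (c : ℝ) : S.E s k (fun _ => c) = fun _ => c := by
  have h : (fun _ => c : X → ℝ) = c • (1 : X → ℝ) := by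
    ext x; simp
  rw [h, map_smul, S.E_one]

theorem E_nonneg (s : Fin d) (k : ℕ) {f : X → ℝ} (h : ∀ x, 0 ≤ f x) (x : X) :
    0 ≤ S.E s k f x := by
  have := S.E_mono s k (f := fun _ => 0) (g := f) h x
  rwa [S.E_const] at this

theorem E_idem (s : Fin d) (k : ℕ) (f : X → ℝ) : S.E s k (S.E s k f) = S.E s k f := by
  have h := S.E_pull s k (S.E s k f) 1 (fun x y hxy => S.E_meas s k f x y hxy)
  rw [mul_one, S.E_one, mul_one] at h
  exact h

/-- self-adjointness -/
theorem E_adj (s : Fin d) (k : ℕ) (f g : X → ℝ) :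
    ∑ x, f x * S.E s k g x = ∑ x, S.E s k f x * g x := by
  have h1 := S.E_pull s k (S.E s k g) f (fun x y hxy => S.E_meas s k g x y hxy)
  have h2 := S.E_pull s k (S.E s k f) g (fun x y hxy => S.E_meas s k f x y hxy)
  have e1 := S.E_sum s k (S.E s k g * f)
  have e2 := S.E_sum s k (S.E s k f * g)
  rw [h1] at e1
  rw [h2] at e2
  simp only [Pi.mul_apply] at e1 e2
  calc ∑ x, f x * S.E s k g x = ∑ x, S.E s k g x * f x := by
        apply Finset.sum_congr rfl; intro x _; ring
    _ = ∑ x, S.E s k g x * S.E s k f x := e1.symm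
    _ = ∑ x, S.E s k f x * S.E s k g x := by
        apply Finset.sum_congr rfl; intro x _; ring
    _ = _ := e2

theorem r_mul_r (s : Fin d) (k : ℕ) : S.r s k * S.r s k = 1 := by
  ext x; simp [S.r_sq]

theorem r_abs (s : Fin d) (k : ℕ) (x : X) : |S.r s k x| = 1 := by
  have h := S.r_sq s k x
  have h2 : |S.r s k x| * |S.r s k x| = 1 := by rw [← abs_mul, h, abs_one]
  nlinarith [abs_nonneg (S.r s k x), h2]

/-- conditional Cauchy-Schwarz -/
theorem E_cs (s : Fin d) (k : ℕ) (f g : X → ℝ) (x : X) :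
    (S.E s k (f * g) x) ^ 2 ≤ S.E s k (f * f) x * S.E s k (g * g) x := by
  have key : ∀ t : ℝ, 0 ≤ S.E s k (g * g) x * (t * t) + 2 * S.E s k (f * g) x * t +
      S.E s k (f * f) x := by
    intro t
    have h0 : 0 ≤ S.E s k (f * f + (2 * t) • (f * g) + (t * t) • (g * g)) x := by
      apply S.E_nonneg
      intro y
      simp only [Pi.add_apply, Pi.smul_apply, Pi.mul_apply, smul_eq_mul]
      nlinarith [sq_nonneg (f y + t * g y)]
    rw [map_add, map_add, map_smul, map_smul] at h0
    simp only [Pi.add_apply, Pi.smul_apply, smul_eq_mul] at h0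
    linarith
  have hd := discrim_le_zero key
  unfold discrim at hd
  nlinarith

theorem E_sq_le (s : Fin d) (k : ℕ) (f : X → ℝ) (x : X) :
    (S.E s k f x) ^ 2 ≤ S.E s k (f * f) x := by
  have h := S.E_cs s k f 1 x
  rw [mul_one, mul_one, S.E_one] at h
  simpa using h

theorem nsq_E_le (s : Fin d) (k : ℕ) (f : X → ℝ) : nsq (S.E s k f) ≤ nsq f := by
  unfold nsq
  calc ∑ x, (S.E s k f x) ^ 2 ≤ ∑ x, S.E s k (f * f) x :=
        Finset.sum_le_sum fun x _ => S.E_sq_le s k f x
    _ = ∑ x, (f * f) x := S.E_sum s k _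
    _ = _ := by apply Finset.sum_congr rfl; intro x _; simp [sq]

theorem nsq_r_mul (s : Fin d) (k : ℕ) (f : X → ℝ) : nsq (S.r s k * f) = nsq f := by
  unfold nsq
  apply Finset.sum_congr rfl
  intro x _
  simp only [Pi.mul_apply]
  have := S.r_sq s k x
  calc (S.r s k x * f x) ^ 2 = (S.r s k x * S.r s k x) * f x ^ 2 := by ring
    _ = _ := by rw [this, one_mul]

theorem E_r (s : Fin d) (k : ℕ) (hk : k < R) : S.E s k (S.r s k) = 0 := by
  have h := S.haar s k 1 hk
  rw [S.E_one, S.E_one, mul_one] at h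
  have h2 : S.r s k * S.E s k (S.r s k) = 0 := by
    have := h
    have h3 : (1 : X → ℝ) + S.r s k * S.E s k (S.r s k) = 1 + 0 := by rw [add_zero]; exact this.symm
    exact add_left_cancel h3
  calc S.E s k (S.r s k) = (S.r s k * S.r s k) * S.E s k (S.r s k) := by
        rw [S.r_mul_r, one_mul]
    _ = S.r s k * (S.r s k * S.E s k (S.r s k)) := by ring
    _ = 0 := by rw [h2, mul_zero]

/-- `r t l` passes through `E s k` for `t ≠ s` -/
theorem E_r_other (s t : Fin d) (k l : ℕ) (h : t ≠ s) (f : X → ℝ) :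
    S.E s k (S.r t l * f) = S.r t l * S.E s k f :=
  S.E_pull s k _ f (fun x y hxy => S.r_other t s l k x y h hxy)

theorem E_sub (s : Fin d) (k : ℕ) (f g : X → ℝ) :
    S.E s k (f - g) = S.E s k f - S.E s k g := map_sub _ _ _

theorem pw_comm (U : Finset (Fin d)) (K : Fin d → ℕ) :
    (U : Set (Fin d)).Pairwise (Function.onFun Commute
      fun s => (S.E s (K s) : Module.End ℝ (X → ℝ))) := by
  intro s _ t _ hst
  apply LinearMap.ext
  intro f
  exact S.E_comm s t (K s) (K t) f hst

/-- the product of the conditional expectations over the coordinates in `U` -/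
noncomputable def EU (U : Finset (Fin d)) (K : Fin d → ℕ) : Module.End ℝ (X → ℝ) :=
  U.noncommProd (fun s => (S.E s (K s) : Module.End ℝ (X → ℝ))) (S.pw_comm U K)

@[simp] theorem EU_empty (K : Fin d → ℕ) (f : X → ℝ) : S.EU ∅ K f = f := by
  unfold EU
  rw [Finset.noncommProd_empty]
  rfl

theorem EU_insert {U : Finset (Fin d)} {s : Fin d} (hs : s ∉ U) (K : Fin d → ℕ) (f : X → ℝ) :
    S.EU (insert s U) K f = S.E s (K s) (S.EU U K f) := by
  unfold EU
  rw [Finset.noncommProd_insert_of_notMem _ _ _ _ hs]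
  rfl

theorem EU_congr {U : Finset (Fin d)} {K K' : Fin d → ℕ} (h : ∀ s ∈ U, K s = K' s)
    (f : X → ℝ) : S.EU U K f = S.EU U K' f := by
  classical
  induction U using Finset.induction_on generalizing f with
  | empty => simp
  | insert s U hs ih =>
    rw [S.EU_insert hs, S.EU_insert hs, h s (Finset.mem_insert_self s U),
      ih (fun t ht => h t (Finset.mem_insert_of_mem ht))]

theorem EU_comm {U : Finset (Fin d)} {t : Fin d} (ht : t ∉ U) (K : Fin d → ℕ) (l : ℕ)
    (f : X → ℝ) : S.E t l (S.EU U K f) = S.EU U K (S.E t l f) := by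
  classical
  induction U using Finset.induction_on generalizing f with
  | empty => simp
  | insert s U hs ih =>
    have hts : t ≠ s := fun h => ht (h ▸ Finset.mem_insert_self s U)
    have htU : t ∉ U := fun h => ht (Finset.mem_insert_of_mem h)
    rw [S.EU_insert hs, S.EU_insert hs, S.E_comm t s l (K s) _ hts, ih htU]

/-- `E s (K s)` absorbs into `EU U K` on the left for `s ∈ U` -/
theorem E_EU_mem {U : Finset (Fin d)} {s : Fin d} (hs : s ∈ U) (K : Fin d → ℕ) (f : X → ℝ) :
    S.E s (K s) (S.EU U K f) = S.EU U K f := by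
  classical
  rw [← Finset.insert_erase hs, S.EU_insert (Finset.notMem_erase s U), S.E_idem]

/-- `E s (K s)` absorbs into `EU U K` on the right for `s ∈ U` -/
theorem EU_E_mem {U : Finset (Fin d)} {s : Fin d} (hs : s ∈ U) (K : Fin d → ℕ) (f : X → ℝ) :
    S.EU U K (S.E s (K s) f) = S.EU U K f := by
  classical
  rw [← Finset.insert_erase hs, S.EU_insert (Finset.notMem_erase s U),
    S.EU_insert (Finset.notMem_erase s U), ← S.EU_comm (Finset.notMem_erase s U), S.E_idem]

/-- measurability: `EU U K f` is constant along the `s`-lines, `s ∈ U` -/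
theorem EU_meas {U : Finset (Fin d)} {s : Fin d} (hs : s ∈ U) (K : Fin d → ℕ) (f : X → ℝ)
    (x y : X) (h : S.rel s (K s) x y) : S.EU U K f x = S.EU U K f y := by
  rw [← S.E_EU_mem hs K f]
  exact S.E_meas s (K s) _ x y h

theorem EU_mono {U : Finset (Fin d)} (K : Fin d → ℕ) {f g : X → ℝ} (h : ∀ x, f x ≤ g x) (x : X) :
    S.EU U K f x ≤ S.EU U K g x := by
  classical
  induction U using Finset.induction_on generalizing x with
  | empty => simpa using h x
  | insert s U hs ih =>
    rw [S.EU_insert hs, S.EU_insert hs]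
    exact S.E_mono s (K s) ih x

theorem EU_const {U : Finset (Fin d)} (K : Fin d → ℕ) (c : ℝ) :
    S.EU U K (fun _ => c) = fun _ => c := by
  classical
  induction U using Finset.induction_on with
  | empty => simp
  | insert s U hs ih =>
    rw [S.EU_insert hs, ih, S.E_const]

theorem EU_nonneg {U : Finset (Fin d)} (K : Fin d → ℕ) {f : X → ℝ} (h : ∀ x, 0 ≤ f x) (x : X) :
    0 ≤ S.EU U K f x := by
  have := S.EU_mono (U := U) K (f := fun _ => 0) (g := f) h x
  rwa [S.EU_const] at this

theorem EU_sum {U : Finset (Fin d)} (K : Fin d → ℕ) (f : X → ℝ) :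
    ∑ x, S.EU U K f x = ∑ x, f x := by
  classical
  induction U using Finset.induction_on with
  | empty => simp
  | insert s U hs ih =>
    rw [S.EU_insert hs, S.E_sum, ih]

theorem nsq_EU_le {U : Finset (Fin d)} (K : Fin d → ℕ) (f : X → ℝ) :
    nsq (S.EU U K f) ≤ nsq f := by
  classical
  induction U using Finset.induction_on with
  | empty => simp
  | insert s U hs ih =>
    rw [S.EU_insert hs]
    exact (S.nsq_E_le s (K s) _).trans ih

/-- absolute values -/
theorem EU_abs_le {U : Finset (Fin d)} (K : Fin d → ℕ) (f : X → ℝ) (x : X) :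
    |S.EU U K f x| ≤ S.EU U K (fun y => |f y|) x := by
  rw [abs_le]
  constructor
  · have h := S.EU_mono (U := U) K (f := fun y => - |f y|) (g := f) (fun y => neg_abs_le (f y)) x
    have h2 : S.EU U K (fun y => - |f y|) = - S.EU U K (fun y => |f y|) := by
      have : (fun y => - |f y|) = - (fun y => |f y|) := rfl
      rw [this, map_neg]
    rw [h2] at h
    simpa using h
  · exact S.EU_mono K (fun y => le_abs_self (f y)) x

/-- the product of the signs over `U` at the levels `K` -/
def chi (U : Finset (Fin d)) (K : Fin d → ℕ) : X → ℝ := fun x => ∏ s ∈ U, S.r s (K s) x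

@[simp] theorem chi_empty (K : Fin d → ℕ) : S.chi ∅ K = 1 := by
  ext x; simp [chi]

theorem chi_insert {U : Finset (Fin d)} {s : Fin d} (hs : s ∉ U) (K : Fin d → ℕ) :
    S.chi (insert s U) K = S.r s (K s) * S.chi U K := by
  ext x; simp [chi, Finset.prod_insert hs]

theorem chi_congr {U : Finset (Fin d)} {K K' : Fin d → ℕ} (h : ∀ s ∈ U, K s = K' s) :
    S.chi U K = S.chi U K' := by
  ext x
  unfold chi
  exact Finset.prod_congr rfl fun s hs => by rw [h s hs]

theorem chi_other {U : Finset (Fin d)} {t : Fin d} (ht : t ∉ U) (K : Fin d → ℕ) (l : ℕ)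
    (x y : X) (h : S.rel t l x y) : S.chi U K x = S.chi U K y := by
  unfold chi
  exact Finset.prod_congr rfl fun s hs =>
    S.r_other s t (K s) l x y (fun e => ht (e ▸ hs)) h

theorem E_chi {U : Finset (Fin d)} {t : Fin d} (ht : t ∉ U) (K : Fin d → ℕ) (l : ℕ)
    (f : X → ℝ) : S.E t l (S.chi U K * f) = S.chi U K * S.E t l f :=
  S.E_pull t l _ f (fun x y hxy => S.chi_other ht K l x y hxy)

theorem chi_sq (U : Finset (Fin d)) (K : Fin d → ℕ) (x : X) : S.chi U K x ^ 2 = 1 := by
  unfold chi
  rw [← Finset.prod_pow]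
  exact Finset.prod_eq_one fun s _ => by rw [sq, S.r_sq]

theorem nsq_chi_mul (U : Finset (Fin d)) (K : Fin d → ℕ) (f : X → ℝ) :
    nsq (S.chi U K * f) = nsq f := by
  unfold nsq
  apply Finset.sum_congr rfl
  intro x _
  simp only [Pi.mul_apply]
  rw [mul_pow, S.chi_sq, one_mul]

end Sys

end Pool.Agent.H730R2.LD
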