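import Pool.Agent.H730R2.LD.Recur

set_option autoImplicit false

/-!
# Main theorem for abstract systems
-/

namespace Pool.Agent.H730R2.LD

open Finset

variable {d R : ℕ} {X : Type} [Fintype X] (S : Sys d R X)

theorem Lev_le {U : Finset (Fin d)} {K : Fin d → ℕ} (hK : K ∈ Lev d R U) (s : Fin d) :
    K s ≤ R := by
  obtain ⟨h1, h2⟩ := mem_Lev.1 hK
  by_cases hs : s ∈ U
  · exact (h1 s hs).le
  · rw [h2 s hs]; exact Nat.zero_le R

theorem Lev_empty : Lev d R (∅ : Finset (Fin d)) = {fun _ => 0} := by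
  classical
  ext K
  rw [mem_Lev, Finset.mem_singleton]
  constructor
  · rintro ⟨_, h2⟩
    ext s
    exact h2 s (Finset.notMem_empty s)
  · rintro rfl
    exact ⟨fun s hs => absurd hs (Finset.notMem_empty s), fun _ _ => rfl⟩

theorem nsq_neg (f : X → ℝ) : nsq (-f) = nsq f := by
  unfold nsq
  apply Finset.sum_congr rfl
  intro x _
  simp

/-- sum over the levels of the squares of the norms of the family -/
theorem sum_fam {Bs : ℕ → Finset X} {F : Finset (Fin d) → (Fin d → ℕ) → X → ℝ}
    (hF : Fam S Bs F d) (hd : 1 ≤ d) (V : Finset (Fin d)) (hV : V.Nonempty) :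
    ∑ K ∈ Lev d R V, nsq (F V K) ≤ (4 * 2 ^ d * d) ^ V.card * (Bs 0).card := by
  classical
  induction hn : V.card using Nat.strong_induction_on generalizing V with
  | _ n ih =>
    have hcard : V.card ≤ d := by simpa using Finset.card_le_univ V
    have hnpos : 0 < V.card := Finset.card_pos.2 hV
    have hd1 : (1 : ℝ) ≤ d := by exact_mod_cast hd
    have h2d : (1 : ℝ) ≤ 2 ^ d := one_le_pow₀ (by norm_num)
    have hΛ : (1 : ℝ) ≤ 4 * 2 ^ d * d := by nlinarith
    have hb : (0 : ℝ) ≤ (Bs 0).card := Nat.cast_nonneg _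
    -- each direction
    have hdir : ∀ s ∈ V, ∑ K ∈ Lev d R V,
        nsq (S.E s (K s) (S.r s (K s) * F (V.erase s) K)) ≤
          (4 * 2 ^ d * d) ^ (V.card - 1) * (Bs 0).card := by
      intro s hs
      have hse : s ∉ V.erase s := Finset.notMem_erase s V
      have e1 : Lev d R V = Lev d R (insert s (V.erase s)) := by rw [Finset.insert_erase hs]
      rw [e1, sum_Lev_insert hse]
      have e2 : ∀ K ∈ Lev d R (V.erase s), ∑ k ∈ range R,
          nsq (S.E s (Function.update K s k s) (S.r s (Function.update K s k s) *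
            F (V.erase s) (Function.update K s k))) =
          ∑ k ∈ range R, nsq (S.E s k (S.r s k * F (V.erase s) K)) := by
        intro K _
        apply Finset.sum_congr rfl
        intro k _
        rw [Function.update_self, hF.dep (V.erase s) (Function.update K s k) K (fun t ht => by
          rw [Function.update_of_ne (Finset.ne_of_mem_erase ht)])]
      rw [Finset.sum_congr rfl e2]
      rcases Finset.eq_empty_or_nonempty (V.erase s) with he | he
      · rw [he, Lev_empty, Finset.sum_singleton]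
        have hc1 : V.card = 1 := by
          have := Finset.card_erase_of_mem hs
          rw [he, Finset.card_empty] at this
          omega
        rw [hc1, Nat.sub_self, pow_zero, one_mul]
        rw [hF.zero]
        have e3 : ∀ k ∈ range R, nsq (S.E s k (S.r s k * (1 - ind (Bs 0)))) =
            nsq (S.E s k (S.r s k * ind (Bs 0))) := by
          intro k hk
          rw [mul_sub, mul_one, map_sub, S.E_r s k (Finset.mem_range.1 hk), zero_sub, nsq_neg]
        rw [Finset.sum_congr rfl e3]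
        exact (bessel S s (ind (Bs 0))).trans (nsq_ind (Bs 0)).le
      · have hce : (V.erase s).card = V.card - 1 := Finset.card_erase_of_mem hs
        calc ∑ K ∈ Lev d R (V.erase s), ∑ k ∈ range R,
              nsq (S.E s k (S.r s k * F (V.erase s) K))
            ≤ ∑ K ∈ Lev d R (V.erase s), nsq (F (V.erase s) K) :=
              Finset.sum_le_sum fun K _ => bessel S s _
          _ ≤ (4 * 2 ^ d * d) ^ (V.erase s).card * (Bs 0).card :=
              ih (V.erase s).card (by omega) (V.erase s) he rfl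
          _ = _ := by rw [hce]
    calc ∑ K ∈ Lev d R V, nsq (F V K)
        ≤ ∑ K ∈ Lev d R V, 4 * 2 ^ d * ∑ s ∈ V,
            nsq (S.E s (K s) (S.r s (K s) * F (V.erase s) K)) :=
          Finset.sum_le_sum fun K hK => hF.norm V K hcard hV (Lev_le hK)
      _ = 4 * 2 ^ d * ∑ s ∈ V, ∑ K ∈ Lev d R V,
            nsq (S.E s (K s) (S.r s (K s) * F (V.erase s) K)) := by
          rw [← Finset.mul_sum, Finset.sum_comm]
      _ ≤ 4 * 2 ^ d * ∑ s ∈ V, (4 * 2 ^ d * d) ^ (V.card - 1) * ((Bs 0).card : ℝ) := by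
          apply mul_le_mul_of_nonneg_left _ (by positivity)
          exact Finset.sum_le_sum hdir
      _ = 4 * 2 ^ d * V.card * ((4 * 2 ^ d * d) ^ (V.card - 1) * ((Bs 0).card : ℝ)) := by
          rw [Finset.sum_const, nsmul_eq_mul]; ring
      _ ≤ 4 * 2 ^ d * d * ((4 * 2 ^ d * d) ^ (V.card - 1) * ((Bs 0).card : ℝ)) := by
          have : (V.card : ℝ) ≤ d := by exact_mod_cast hcard
          gcongr
      _ = (4 * 2 ^ d * d) ^ n * ((Bs 0).card : ℝ) := by
          have : n = (V.card - 1) + 1 := by omega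
          rw [this, pow_succ]; ring

theorem nsq_sum_le {α : Type} (P : Finset α) (h : α → X → ℝ) :
    nsq (∑ a ∈ P, h a) ≤ P.card * ∑ a ∈ P, nsq (h a) := by
  unfold nsq
  rw [Finset.sum_comm, Finset.mul_sum]
  apply Finset.sum_le_sum
  intro x _
  rw [Finset.sum_apply]
  have := sq_sum_le_card_mul_sum_sq (s := P) (f := fun a => h a x)
  exact this

theorem EU_union {U V : Finset (Fin d)} (hUV : Disjoint U V) (K : Fin d → ℕ) (f : X → ℝ) :
    S.EU (U ∪ V) K f = S.EU U K (S.EU V K f) := by
  classical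
  induction U using Finset.induction_on with
  | empty => simp
  | insert s U hs ih =>
    have h1 : s ∉ U ∪ V := by
      rw [Finset.mem_union, not_or]
      exact ⟨hs, fun h => Finset.disjoint_left.1 hUV (Finset.mem_insert_self s U) h⟩
    rw [Finset.insert_union, S.EU_insert h1, S.EU_insert hs,
      ih (Finset.disjoint_of_subset_left (Finset.subset_insert s U) hUV)]

/-- the balanced functions -/
noncomputable def WW (F : Finset (Fin d) → (Fin d → ℕ) → X → ℝ) (K : Fin d → ℕ) : X → ℝ :=
  ∑ T ∈ (univ : Finset (Fin d)).powerset, S.chi (univ \ T) K * F T K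

theorem fam_B {Bs : ℕ → Finset X} {F : Finset (Fin d) → (Fin d → ℕ) → X → ℝ}
    (hF : Fam S Bs F d) (hmono : ∀ q, q < d → ∀ x ∈ Bs (q + 1), x ∈ Bs q)
    (K : Fin d → ℕ) (hK : ∀ s, K s ≤ R) (V : Finset (Fin d)) (x : X) (hx : x ∈ Bs d) :
    F V K x = 0 := by
  have hcard : V.card ≤ d := by simpa using Finset.card_le_univ V
  have hm : ∀ j, j ≤ d → x ∈ Bs (d - j) := by
    intro j
    induction j with
    | zero => intro _; simpa using hx
    | succ j ih =>
      intro hj
      have h1 := ih (by omega)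
      have e : d - j = (d - (j + 1)) + 1 := by omega
      rw [e] at h1
      exact hmono _ (by omega) x h1
  have := hm (d - V.card) (by omega)
  have e : d - (d - V.card) = V.card := by omega
  rw [e] at this
  exact hF.supp V K hcard hK x this

/-- pairing with a bounded function -/
theorem pairing {Bs : ℕ → Finset X} {F : Finset (Fin d) → (Fin d → ℕ) → X → ℝ}
    (hF : Fam S Bs F d) (hd : 1 ≤ d) (hmono : ∀ q, q < d → ∀ x ∈ Bs (q + 1), x ∈ Bs q)
    (g : X → ℝ) (M : ℝ) (hg : ∀ x, x ∉ Bs d → |g x| ≤ M) :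
    ∑ K ∈ Lev d R univ, nsq (S.EU univ K (g * WW S F K)) ≤
      2 ^ d * (2 ^ d * (M ^ 2 * ((4 * 2 ^ d * d) ^ d * Fintype.card X))) := by
  classical
  have hd1 : (1 : ℝ) ≤ d := by exact_mod_cast hd
  have h2d : (1 : ℝ) ≤ 2 ^ d := one_le_pow₀ (by norm_num)
  have hΛ : (1 : ℝ) ≤ 4 * 2 ^ d * d := by nlinarith
  have hcX : (0 : ℝ) ≤ Fintype.card X := Nat.cast_nonneg _
  have hbX : ((Bs 0).card : ℝ) ≤ Fintype.card X := by exact_mod_cast Finset.card_le_univ _
  -- one set V
  have hone : ∀ V ∈ (univ : Finset (Fin d)).powerset, ∑ K ∈ Lev d R univ,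
      nsq (S.EU univ K (S.chi (univ \ V) K * (g * F V K))) ≤
        M ^ 2 * ((4 * 2 ^ d * d) ^ d * Fintype.card X) := by
    intro V _
    have hcard : V.card ≤ d := by simpa using Finset.card_le_univ V
    have hdisj : Disjoint V (univ \ V) := Finset.disjoint_sdiff
    have hun : V ∪ (univ \ V) = univ := Finset.union_sdiff_of_subset (Finset.subset_univ V)
    have h1 : ∑ K ∈ Lev d R univ, nsq (S.EU univ K (S.chi (univ \ V) K * (g * F V K))) ≤
        ∑ K ∈ Lev d R univ, nsq (S.EU (univ \ V) K (S.chi (univ \ V) K * (g * F V K))) := by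
      apply Finset.sum_le_sum
      intro K _
      have e : S.EU univ K (S.chi (univ \ V) K * (g * F V K)) =
          S.EU V K (S.EU (univ \ V) K (S.chi (univ \ V) K * (g * F V K))) := by
        rw [← EU_union S hdisj, hun]
      rw [e]
      exact S.nsq_EU_le K _
    have h2 := bessel_multi S V (univ \ V) hdisj (fun K => g * F V K) (by
      intro K K' h
      rw [hF.dep V K K' h])
    rw [hun] at h2
    have h3 : ∀ K ∈ Lev d R V, nsq (g * F V K) ≤ M ^ 2 * nsq (F V K) := by
      intro K hK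
      unfold nsq
      rw [Finset.mul_sum]
      apply Finset.sum_le_sum
      intro x _
      simp only [Pi.mul_apply]
      by_cases hx : x ∈ Bs d
      · rw [fam_B S hF hmono K (Lev_le hK) V x hx]
        simp
      · rw [mul_pow]
        apply mul_le_mul_of_nonneg_right _ (sq_nonneg _)
        rw [← sq_abs]
        exact pow_le_pow_left₀ (abs_nonneg _) (hg x hx) 2
    have h4 : ∑ K ∈ Lev d R V, nsq (F V K) ≤ (4 * 2 ^ d * d) ^ d * Fintype.card X := by
      rcases Finset.eq_empty_or_nonempty V with he | he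
      · rw [he, Lev_empty, Finset.sum_singleton, hF.zero]
        have hle : nsq (1 - ind (Bs 0)) ≤ Fintype.card X := by
          unfold nsq
          calc ∑ x, ((1 - ind (Bs 0)) x) ^ 2 ≤ ∑ _x : X, (1 : ℝ) := by
                apply Finset.sum_le_sum
                intro x _
                simp only [Pi.sub_apply, Pi.one_apply]
                have h0 := ind_nonneg (Bs 0) x
                have h1 := ind_le_one (Bs 0) x
                nlinarith
            _ = _ := by simp
        refine hle.trans ?_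
        have : (1 : ℝ) ≤ (4 * 2 ^ d * d) ^ d := one_le_pow₀ hΛ
        nlinarith
      · refine (sum_fam S hF hd V he).trans ?_
        have : (4 * 2 ^ d * (d : ℝ)) ^ V.card ≤ (4 * 2 ^ d * d) ^ d := pow_le_pow_right₀ hΛ hcard
        have h0 : (0 : ℝ) ≤ (Bs 0).card := Nat.cast_nonneg _
        calc (4 * 2 ^ d * (d : ℝ)) ^ V.card * (Bs 0).card
            ≤ (4 * 2 ^ d * d) ^ d * (Bs 0).card := mul_le_mul_of_nonneg_right this h0
          _ ≤ _ := mul_le_mul_of_nonneg_left hbX (by positivity)
    calc _ ≤ _ := h1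
      _ ≤ _ := h2
      _ ≤ ∑ K ∈ Lev d R V, M ^ 2 * nsq (F V K) := Finset.sum_le_sum h3
      _ = M ^ 2 * ∑ K ∈ Lev d R V, nsq (F V K) := by rw [Finset.mul_sum]
      _ ≤ _ := mul_le_mul_of_nonneg_left h4 (sq_nonneg M)
  have hsplit : ∀ K, S.EU univ K (g * WW S F K) =
      ∑ V ∈ (univ : Finset (Fin d)).powerset,
        S.EU univ K (S.chi (univ \ V) K * (g * F V K)) := by
    intro K
    unfold WW
    rw [Finset.mul_sum, map_sum]
    apply Finset.sum_congr rfl
    intro V _
    congr 1
    ring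
  have hcp : (((univ : Finset (Fin d)).powerset.card : ℕ) : ℝ) = 2 ^ d := by
    rw [Finset.card_powerset]; simp
  calc ∑ K ∈ Lev d R univ, nsq (S.EU univ K (g * WW S F K))
      ≤ ∑ K ∈ Lev d R univ, 2 ^ d * ∑ V ∈ (univ : Finset (Fin d)).powerset,
          nsq (S.EU univ K (S.chi (univ \ V) K * (g * F V K))) := by
        apply Finset.sum_le_sum
        intro K _
        rw [hsplit, ← hcp]
        exact nsq_sum_le _ _
    _ = 2 ^ d * ∑ V ∈ (univ : Finset (Fin d)).powerset, ∑ K ∈ Lev d R univ,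
          nsq (S.EU univ K (S.chi (univ \ V) K * (g * F V K))) := by
        rw [← Finset.mul_sum, Finset.sum_comm]
    _ ≤ 2 ^ d * ∑ V ∈ (univ : Finset (Fin d)).powerset,
          M ^ 2 * ((4 * 2 ^ d * d) ^ d * (Fintype.card X : ℝ)) :=
        mul_le_mul_of_nonneg_left (Finset.sum_le_sum hone) (by positivity)
    _ = _ := by rw [Finset.sum_const, nsmul_eq_mul, hcp]

theorem sum_abs_le (f : X → ℝ) : ∑ x, |f x| ≤ Real.sqrt (Fintype.card X * nsq f) := by
  apply Real.le_sqrt_of_sq_le
  have h := Finset.sum_mul_sq_le_sq_mul_sq (univ : Finset X) (fun _ => (1 : ℝ)) (fun x => |f x|)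
  simp only [one_mul, one_pow, Finset.sum_const, Finset.card_univ, nsmul_eq_mul, mul_one,
    sq_abs] at h
  exact h

/-- distance from the sign product -/
theorem WW_close {Bs : ℕ → Finset X} {F : Finset (Fin d) → (Fin d → ℕ) → X → ℝ}
    (hF : Fam S Bs F d) (hd : 1 ≤ d) (K : Fin d → ℕ) (hK : ∀ s, K s < R) :
    ∑ x, |WW S F K x - S.chi univ K x| ≤ (Bs 0).card +
      2 ^ d * Real.sqrt (Fintype.card X * ((4 * 2 ^ d * d) ^ d * (Bs 0).card)) := by
  classical
  have hd1 : (1 : ℝ) ≤ d := by exact_mod_cast hd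
  have h2d : (1 : ℝ) ≤ 2 ^ d := one_le_pow₀ (by norm_num)
  have hΛ : (1 : ℝ) ≤ 4 * 2 ^ d * d := by nlinarith
  have hmem : (∅ : Finset (Fin d)) ∈ (univ : Finset (Fin d)).powerset :=
    Finset.mem_powerset.2 (Finset.empty_subset _)
  have hdec : ∀ x, WW S F K x - S.chi univ K x = - (S.chi univ K x * ind (Bs 0) x) +
      ∑ V ∈ (univ : Finset (Fin d)).powerset.erase ∅, (S.chi (univ \ V) K * F V K) x := by
    intro x
    unfold WW
    rw [← Finset.add_sum_erase _ _ hmem, Finset.sdiff_empty, hF.zero]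
    simp only [Pi.add_apply, Finset.sum_apply, Pi.mul_apply, Pi.sub_apply, Pi.one_apply]
    ring
  have hchi : ∀ (U : Finset (Fin d)) (x : X), |S.chi U K x| = 1 := by
    intro U x
    have h := S.chi_sq U K x
    have h2 : |S.chi U K x| ^ 2 = 1 := by rw [sq_abs]; exact h
    nlinarith [abs_nonneg (S.chi U K x), h2]
  have hV : ∀ V ∈ (univ : Finset (Fin d)).powerset.erase ∅, ∑ x, |F V K x| ≤
      Real.sqrt (Fintype.card X * ((4 * 2 ^ d * d) ^ d * (Bs 0).card)) := by
    intro V hVm
    have hne : V.Nonempty := Finset.nonempty_iff_ne_empty.2 (Finset.mem_erase.1 hVm).1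
    have hcard : V.card ≤ d := by simpa using Finset.card_le_univ V
    refine (sum_abs_le (F V K)).trans ?_
    apply Real.sqrt_le_sqrt
    apply mul_le_mul_of_nonneg_left _ (Nat.cast_nonneg _)
    have hmaskL : mask V K ∈ Lev d R V := by
      rw [mem_Lev]
      refine ⟨fun s hs => ?_, fun s hs => ?_⟩
      · rw [mask_mem hs]; exact hK s
      · simp [mask, hs]
    have h1 : nsq (F V K) = nsq (F V (mask V K)) := by
      rw [hF.dep V K (mask V K) (fun s hs => (mask_mem hs).symm)]
    rw [h1]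
    calc nsq (F V (mask V K)) ≤ ∑ K ∈ Lev d R V, nsq (F V K) :=
          Finset.single_le_sum (f := fun K => nsq (F V K)) (fun K _ => nsq_nonneg _) hmaskL
      _ ≤ (4 * 2 ^ d * d) ^ V.card * (Bs 0).card := sum_fam S hF hd V hne
      _ ≤ _ := by
          apply mul_le_mul_of_nonneg_right _ (Nat.cast_nonneg _)
          exact pow_le_pow_right₀ hΛ hcard
  calc ∑ x, |WW S F K x - S.chi univ K x|
      ≤ ∑ x, (ind (Bs 0) x + ∑ V ∈ (univ : Finset (Fin d)).powerset.erase ∅, |F V K x|) := by
        apply Finset.sum_le_sum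
        intro x _
        rw [hdec x]
        refine (abs_add_le _ _).trans ?_
        apply add_le_add
        · rw [abs_neg, abs_mul, hchi, one_mul, abs_of_nonneg (ind_nonneg _ _)]
        · refine (Finset.abs_sum_le_sum_abs _ _).trans ?_
          apply Finset.sum_le_sum
          intro V _
          rw [Pi.mul_apply, abs_mul, hchi, one_mul]
    _ = ∑ x, ind (Bs 0) x + ∑ V ∈ (univ : Finset (Fin d)).powerset.erase ∅, ∑ x, |F V K x| := by
        rw [Finset.sum_add_distrib, Finset.sum_comm]
    _ ≤ (Bs 0).card + ∑ V ∈ (univ : Finset (Fin d)).powerset.erase ∅,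
          Real.sqrt (Fintype.card X * ((4 * 2 ^ d * d) ^ d * (Bs 0).card)) := by
        apply add_le_add
        · unfold ind
          simp [Finset.sum_ite_mem]
        · exact Finset.sum_le_sum hV
    _ ≤ _ := by
        rw [Finset.sum_const, nsmul_eq_mul]
        gcongr
        have h1 : ((univ : Finset (Fin d)).powerset.erase ∅).card ≤ 2 ^ d := by
          refine (Finset.card_erase_le).trans ?_
          rw [Finset.card_powerset]; simp
        exact_mod_cast h1

/-- **Main theorem**, abstract form -/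
theorem abstract_main (d : ℕ) (hd : 1 ≤ d) (δ : ℝ) (hδ : 0 < δ) :
    ∃ ε : ℝ, 0 < ε ∧ ∃ C : ℝ, 0 < C ∧ ∀ (R : ℕ) (X : Type) [Fintype X] (S : Sys d R X)
      (B : Finset X), (B.card : ℝ) ≤ ε * Fintype.card X →
      ∃ W : (Fin d → ℕ) → X → ℝ,
        (∀ K, (∀ s, K s < R) → ∀ x ∈ B, W K x = 0) ∧
        (∀ K, (∀ s, K s < R) → ∀ s, S.E s (K s) (W K) = 0) ∧
        (∀ K, (∀ s, K s < R) → ∑ x, |W K x - S.chi univ K x| ≤ δ * Fintype.card X) ∧
        (∀ (g : X → ℝ) (M : ℝ), (∀ x, x ∉ B → |g x| ≤ M) →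
          ∑ K ∈ Lev d R univ, nsq (S.EU univ K (g * W K)) ≤ C * M ^ 2 * Fintype.card X) := by
  have hd1 : (1 : ℝ) ≤ d := by exact_mod_cast hd
  have h2d : (1 : ℝ) ≤ 2 ^ d := one_le_pow₀ (by norm_num)
  set L : ℝ := 4 * d * 2 ^ d * 2 ^ d with hLdef
  have hL1 : 1 ≤ L := by
    have : (1 : ℝ) ≤ d * 2 ^ d := by nlinarith
    have h3 : (1 : ℝ) ≤ d * 2 ^ d * 2 ^ d := by nlinarith
    nlinarith
  have hL0 : 0 < L := by linarith
  have hL : 4 * (d : ℝ) * 2 ^ d * (2 ^ d / L) ≤ 1 := by
    rw [← mul_div_assoc, div_le_one hL0]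
  set t : ℝ := 1 / 2 / L ^ d with htdef
  have ht : 0 < t := by positivity
  have ht1 : t < 1 := by
    rw [htdef, div_lt_one (by positivity)]
    have : (1 : ℝ) ≤ L ^ d := one_le_pow₀ hL1
    linarith
  set κ : ℝ := (4 ^ d / t ^ 2) ^ d with hκ
  have hκ0 : 0 < κ := by positivity
  set P : ℝ := (4 * 2 ^ d * d) ^ d with hP
  have hP0 : 0 < P := by positivity
  refine ⟨min (δ / (2 * κ)) (δ ^ 2 / (4 * (4 ^ d * P * κ))), by positivity,
    2 ^ d * (2 ^ d * P), by positivity, ?_⟩
  intro R X _ S B hB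
  obtain ⟨Bs, hBs0, hBs1, hBs2⟩ := chain S B t ht ht1
  obtain ⟨F, hF⟩ := exists_fam S L hL1 hL Bs hBs1 d le_rfl
  have hmono : ∀ q, q < d → ∀ x ∈ Bs (q + 1), x ∈ Bs q := fun q hq => (hBs1 q hq).1
  have hcX : (0 : ℝ) ≤ Fintype.card X := Nat.cast_nonneg _
  refine ⟨WW S F, ?_, ?_, ?_, ?_⟩
  · intro K hK x hx
    unfold WW
    rw [Finset.sum_apply]
    apply Finset.sum_eq_zero
    intro V _
    rw [Pi.mul_apply, fam_B S hF hmono K (fun s => (hK s).le) V x (by rw [hBs0]; exact hx),
      mul_zero]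
  · intro K hK s
    unfold WW
    apply E_whole S F K univ s (Finset.mem_univ s)
    intro T _ hsT
    exact hF.bal T K (by simpa using Finset.card_le_univ T) (fun s => (hK s).le) s hsT
  · intro K hK
    refine (WW_close S hF hd K hK).trans ?_
    have hb : ((Bs 0).card : ℝ) ≤ κ * B.card := hBs2
    have hb1 : ((Bs 0).card : ℝ) ≤ δ / 2 * Fintype.card X := by
      calc ((Bs 0).card : ℝ) ≤ κ * B.card := hb
        _ ≤ κ * (min (δ / (2 * κ)) (δ ^ 2 / (4 * (4 ^ d * P * κ))) * Fintype.card X) :=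
            mul_le_mul_of_nonneg_left hB hκ0.le
        _ ≤ κ * ((δ / (2 * κ)) * Fintype.card X) := by
            apply mul_le_mul_of_nonneg_left _ hκ0.le
            exact mul_le_mul_of_nonneg_right (min_le_left _ _) hcX
        _ = _ := by field_simp
    have hb2 : ((Bs 0).card : ℝ) ≤ δ ^ 2 / (4 * (4 ^ d * P)) * Fintype.card X := by
      calc ((Bs 0).card : ℝ) ≤ κ * B.card := hb
        _ ≤ κ * (min (δ / (2 * κ)) (δ ^ 2 / (4 * (4 ^ d * P * κ))) * Fintype.card X) :=
            mul_le_mul_of_nonneg_left hB hκ0.le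
        _ ≤ κ * ((δ ^ 2 / (4 * (4 ^ d * P * κ))) * Fintype.card X) := by
            apply mul_le_mul_of_nonneg_left _ hκ0.le
            exact mul_le_mul_of_nonneg_right (min_le_right _ _) hcX
        _ = _ := by field_simp
    have hsq : 2 ^ d * Real.sqrt (Fintype.card X * (P * (Bs 0).card)) ≤
        δ / 2 * Fintype.card X := by
      have h1 : (Fintype.card X : ℝ) * (P * (Bs 0).card) ≤
          (δ / (2 * 2 ^ d) * Fintype.card X) ^ 2 := by
        calc (Fintype.card X : ℝ) * (P * (Bs 0).card)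
            ≤ Fintype.card X * (P * (δ ^ 2 / (4 * (4 ^ d * P)) * Fintype.card X)) := by
              gcongr
          _ = _ := by
              have : (4 : ℝ) ^ d = 2 ^ d * 2 ^ d := by rw [← mul_pow]; norm_num
              rw [this]
              field_simp
              ring
      have h2 : Real.sqrt (Fintype.card X * (P * (Bs 0).card)) ≤
          δ / (2 * 2 ^ d) * Fintype.card X := by
        rw [Real.sqrt_le_left (by positivity)]
        exact h1
      calc 2 ^ d * Real.sqrt (Fintype.card X * (P * (Bs 0).card))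
          ≤ 2 ^ d * (δ / (2 * 2 ^ d) * Fintype.card X) :=
            mul_le_mul_of_nonneg_left h2 (by positivity)
        _ = _ := by field_simp
    calc ((Bs 0).card : ℝ) + 2 ^ d * Real.sqrt (Fintype.card X * (P * (Bs 0).card))
        ≤ δ / 2 * Fintype.card X + δ / 2 * Fintype.card X := add_le_add hb1 hsq
      _ = _ := by ring
  · intro g M hg
    refine (pairing S hF hd hmono g M (by rw [hBs0]; exact hg)).trans (le_of_eq ?_)
    ring

end Pool.Agent.H730R2.LD
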