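import Mathlib

set_option autoImplicit false

namespace Pool.Agent.H730R2.LD

open Finset

/-- levels: `K s < R` for `s ∈ U`, `K s = 0` for `s ∉ U` -/
noncomputable def Lev (d R : ℕ) (U : Finset (Fin d)) : Finset (Fin d → ℕ) := by
  classical
  exact Fintype.piFinset (fun s => if s ∈ U then range R else {0})

theorem mem_Lev {d R : ℕ} {U : Finset (Fin d)} {K : Fin d → ℕ} :
    K ∈ Lev d R U ↔ (∀ s ∈ U, K s < R) ∧ (∀ s, s ∉ U → K s = 0) := by
  classical
  unfold Lev
  rw [Fintype.mem_piFinset]
  constructor
  · intro h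
    refine ⟨fun s hs => ?_, fun s hs => ?_⟩
    · have := h s
      rw [if_pos hs] at this
      exact Finset.mem_range.1 this
    · have := h s
      rw [if_neg hs] at this
      exact Finset.mem_singleton.1 this
  · rintro ⟨h1, h2⟩ s
    by_cases hs : s ∈ U
    · rw [if_pos hs]; exact Finset.mem_range.2 (h1 s hs)
    · rw [if_neg hs]; exact Finset.mem_singleton.2 (h2 s hs)

end Pool.Agent.H730R2.LD
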