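import Pool.Agent.H730R2.LD.Sys
import Pool.Agent.H730R2.LD.LevDef

set_option autoImplicit false

/-!
# Bessel inequalities over the levels
-/

namespace Pool.Agent.H730R2.LD

open Finset

variable {d R : ℕ} {X : Type} [Fintype X] (S : Sys d R X)

theorem nsq_step (s : Fin d) (k : ℕ) (hk : k < R) (h : X → ℝ) :
    nsq (S.E s (k + 1) h) = nsq (S.E s k h) + nsq (S.E s k (S.r s k * h)) := by
  obtain ⟨a, ha⟩ : ∃ a, a = S.E s k h := ⟨_, rfl⟩
  obtain ⟨b, hb⟩ : ∃ b, b = S.E s k (S.r s k * h) := ⟨_, rfl⟩
  have hab : S.E s (k + 1) h = a + S.r s k * b := by rw [S.haar s k h hk, ha, hb]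
  have hcross : ∑ x, (a x * b x) * S.r s k x = 0 := by
    have hm : ∀ x y, S.rel s k x y → (a * b) x = (a * b) y := by
      intro x y hxy
      simp only [Pi.mul_apply]
      rw [ha, hb, S.E_meas s k h x y hxy, S.E_meas s k (S.r s k * h) x y hxy]
    have e := S.E_sum s k ((a * b) * S.r s k)
    rw [S.E_pull s k (a * b) (S.r s k) hm, S.E_r s k hk, mul_zero] at e
    simp only [Pi.mul_apply, Pi.zero_apply, Finset.sum_const_zero] at e
    exact e.symm
  rw [← ha, ← hb, hab]
  unfold nsq
  calc ∑ x, (a + S.r s k * b) x ^ 2
      = ∑ x, (a x ^ 2 + b x ^ 2 + 2 * ((a x * b x) * S.r s k x)) := by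
        apply Finset.sum_congr rfl
        intro x _
        simp only [Pi.add_apply, Pi.mul_apply]
        have := S.r_sq s k x
        calc (a x + S.r s k x * b x) ^ 2
            = a x ^ 2 + (S.r s k x * S.r s k x) * b x ^ 2 + 2 * ((a x * b x) * S.r s k x) := by
              ring
          _ = _ := by rw [this, one_mul]
    _ = (∑ x, a x ^ 2 + ∑ x, b x ^ 2) + 2 * ∑ x, (a x * b x) * S.r s k x := by
        rw [Finset.sum_add_distrib, Finset.sum_add_distrib, ← Finset.mul_sum]
    _ = _ := by rw [hcross]; ring

theorem nsq_tel (s : Fin d) (h : X → ℝ) (n : ℕ) (hn : n ≤ R) :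
    nsq (S.E s 0 h) + ∑ k ∈ range n, nsq (S.E s k (S.r s k * h)) = nsq (S.E s n h) := by
  induction n with
  | zero => simp
  | succ n ih =>
    rw [Finset.sum_range_succ, ← add_assoc, ih (by omega), nsq_step S s n (by omega)]

/-- T4a (file Bessel.lean) -/
theorem bessel (s : Fin d) (h : X → ℝ) :
    ∑ k ∈ range R, nsq (S.E s k (S.r s k * h)) ≤ nsq h := by
  have e := nsq_tel S s h R le_rfl
  rw [S.E_top] at e
  have h0 := nsq_nonneg (S.E s 0 h)
  linarith

/-- T4b (file Bessel.lean) -/
theorem sum_Lev_insert [DecidableEq (Fin d)] {U : Finset (Fin d)} {s : Fin d} (hs : s ∉ U)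
    (Φ : (Fin d → ℕ) → ℝ) :
    ∑ K ∈ Lev d R (insert s U), Φ K = ∑ K ∈ Lev d R U, ∑ k ∈ range R, Φ (Function.update K s k) := by
  rw [← Finset.sum_product' (Lev d R U) (range R) (fun K k => Φ (Function.update K s k))]
  refine Finset.sum_nbij' (fun K => (Function.update K s 0, K s))
    (fun p => Function.update p.1 s p.2) ?_ ?_ ?_ ?_ ?_
  · intro K hK
    rw [mem_Lev] at hK
    rw [Finset.mem_product, mem_Lev, mem_range]
    refine ⟨⟨fun t ht => ?_, fun t ht => ?_⟩, hK.1 s (Finset.mem_insert_self s U)⟩
    · have hts : t ≠ s := fun e => hs (e ▸ ht)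
      simp only [Function.update_of_ne hts]
      exact hK.1 t (Finset.mem_insert_of_mem ht)
    · by_cases hts : t = s
      · subst hts; simp
      · simp only [Function.update_of_ne hts]
        apply hK.2 t
        rw [Finset.mem_insert]
        exact fun h' => h'.elim hts ht
  · intro p hp
    rw [Finset.mem_product, mem_Lev, mem_range] at hp
    obtain ⟨h1, h2⟩ := hp
    rw [mem_Lev]
    refine ⟨fun t ht => ?_, fun t ht => ?_⟩
    · by_cases hts : t = s
      · subst hts; simpa using h2
      · simp only [Function.update_of_ne hts]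
        exact h1.1 t ((Finset.mem_insert.1 ht).resolve_left hts)
    · have hts : t ≠ s := fun e => ht (e ▸ Finset.mem_insert_self s U)
      simp only [Function.update_of_ne hts]
      exact h1.2 t fun h' => ht (Finset.mem_insert_of_mem h')
  · intro K _
    simp
  · intro p hp
    rw [Finset.mem_product, mem_Lev] at hp
    have h0 : p.1 s = 0 := hp.1.2 s hs
    ext t
    · by_cases hts : t = s
      · subst hts; simp [h0]
      · simp [Function.update_of_ne hts]
    · simp
  · intro K _
    simp

theorem EU_r {U : Finset (Fin d)} {s : Fin d} (hs : s ∉ U) (K : Fin d → ℕ) (k : ℕ) (f : X → ℝ) :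
    S.EU U K (S.r s k * f) = S.r s k * S.EU U K f := by
  classical
  induction U using Finset.induction_on generalizing f with
  | empty => simp
  | insert t U ht ih =>
    have hst : s ≠ t := fun e => hs (e ▸ Finset.mem_insert_self t U)
    have hsU : s ∉ U := fun e => hs (Finset.mem_insert_of_mem e)
    rw [S.EU_insert ht, S.EU_insert ht, ih hsU, S.E_r_other t s (K t) k hst]

/-- T4c (file Bessel.lean) -/
theorem bessel_multi [DecidableEq (Fin d)] (V U : Finset (Fin d)) (hVU : Disjoint V U)
    (h : (Fin d → ℕ) → X → ℝ)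
    (hdep : ∀ K K' : Fin d → ℕ, (∀ s ∈ V, K s = K' s) → h K = h K') :
    ∑ K ∈ Lev d R (V ∪ U), nsq (S.EU U K (S.chi U K * h K)) ≤ ∑ K ∈ Lev d R V, nsq (h K) := by
  have hinst : ‹DecidableEq (Fin d)› = instDecidableEqFin d := Subsingleton.elim _ _
  subst hinst
  induction U using Finset.induction_on with
  | empty => simp
  | insert s U hs ih =>
    have hsV : s ∉ V := fun e =>
      Finset.disjoint_left.1 hVU e (Finset.mem_insert_self s U)
    have hdis : Disjoint V U :=
      Finset.disjoint_of_subset_right (Finset.subset_insert s U) hVU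
    have hsVU : s ∉ V ∪ U := by
      rw [Finset.mem_union]; exact fun e => e.elim hsV hs
    refine le_trans ?_ (ih hdis)
    rw [Finset.union_insert]
    have e1 : ∑ K ∈ Lev d R (insert s (V ∪ U)),
        nsq (S.EU (insert s U) K (S.chi (insert s U) K * h K)) =
        ∑ K ∈ Lev d R (V ∪ U), ∑ k ∈ range R,
          nsq (S.EU (insert s U) (Function.update K s k)
            (S.chi (insert s U) (Function.update K s k) * h (Function.update K s k))) :=
      sum_Lev_insert hsVU
        (fun K => nsq (S.EU (insert s U) K (S.chi (insert s U) K * h K)))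
    rw [e1]
    apply Finset.sum_le_sum
    intro K _
    calc ∑ k ∈ range R, nsq (S.EU (insert s U) (Function.update K s k)
            (S.chi (insert s U) (Function.update K s k) * h (Function.update K s k)))
        = ∑ k ∈ range R, nsq (S.E s k (S.r s k * S.EU U K (S.chi U K * h K))) := by
          apply Finset.sum_congr rfl
          intro k _
          have c1 : ∀ t ∈ U, Function.update K s k t = K t := by
            intro t ht
            have : t ≠ s := fun e => hs (e ▸ ht)
            exact Function.update_of_ne this _ _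
          have c2 : h (Function.update K s k) = h K := by
            apply hdep
            intro t ht
            have : t ≠ s := fun e => hsV (e ▸ ht)
            exact Function.update_of_ne this _ _
          rw [S.EU_insert hs, S.chi_insert hs, S.EU_congr c1, S.chi_congr c1, c2,
            Function.update_self, mul_assoc, EU_r S hs]
      _ ≤ nsq (S.EU U K (S.chi U K * h K)) := bessel S s _

end Pool.Agent.H730R2.LD
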