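import Pool.Agent.H730R2.LD.Grid

set_option autoImplicit false

namespace Pool.Agent.H730R2.LD

open Finset

namespace BoxAux

theorem rel_iff (d R : ℕ) (s : Fin d) (k : ℕ) (x y : Fin d → Fin (2 ^ R)) :
    (gridSys d R).rel s k x y ↔
      (∀ t, t ≠ s → x t = y t) ∧ (x s).val / 2 ^ (R - k) = (y s).val / 2 ^ (R - k) := Iff.rfl

theorem E_eq (d R : ℕ) (s : Fin d) (k : ℕ) (f : (Fin d → Fin (2 ^ R)) → ℝ)
    (x : Fin d → Fin (2 ^ R)) : (gridSys d R).E s k f x =
      (∑ b : Fin (2 ^ R), if b.val / 2 ^ (R - k) = (x s).val / 2 ^ (R - k) then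
        f (Function.update x s b) else 0) / 2 ^ (R - k) := rfl

theorem r_eq (d R : ℕ) (s : Fin d) (k : ℕ) (x : Fin d → Fin (2 ^ R)) :
    (gridSys d R).r s k x = if (x s).val / 2 ^ (R - k - 1) % 2 = 1 then 1 else -1 := rfl

/-- locality -/
theorem EU_local (d R : ℕ) (K : Fin d → ℕ) (U : Finset (Fin d))
    (f g : (Fin d → Fin (2 ^ R)) → ℝ) (x : Fin d → Fin (2 ^ R))
    (h : ∀ y : Fin d → Fin (2 ^ R), (∀ t, t ∉ U → y t = x t) →
      (∀ t ∈ U, (y t).val / 2 ^ (R - K t) = (x t).val / 2 ^ (R - K t)) → f y = g y) :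
    (gridSys d R).EU U K f x = (gridSys d R).EU U K g x := by
  classical
  induction U using Finset.induction_on generalizing x with
  | empty =>
    rw [Sys.EU_empty, Sys.EU_empty]
    exact h x (fun _ _ => rfl) (fun t ht => absurd ht (notMem_empty t))
  | insert s U hs ih =>
    rw [Sys.EU_insert _ hs, Sys.EU_insert _ hs]
    apply Sys.E_local
    intro y hy
    rw [rel_iff] at hy
    apply ih
    intro z hz1 hz2
    apply h
    · intro t ht
      rw [mem_insert, not_or] at ht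
      rw [hz1 t ht.2, hy.1 t ht.1]
    · intro t ht
      rw [mem_insert] at ht
      by_cases hts : t = s
      · subst hts
        rw [hz1 t hs, hy.2]
      · have htU : t ∈ U := ht.resolve_left hts
        rw [hz2 t htU, hy.1 t hts]

/-- a factor which is constant along one direction -/
theorem EU_zero (d R : ℕ) (K : Fin d → ℕ) (W φ : (Fin d → Fin (2 ^ R)) → ℝ) (s : Fin d)
    (hW : (gridSys d R).E s (K s) W = 0)
    (hφ : ∀ x y, (gridSys d R).rel s (K s) x y → φ x = φ y) :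
    (gridSys d R).EU univ K (φ * W) = 0 := by
  rw [← (gridSys d R).EU_E_mem (mem_univ s) K (φ * W), (gridSys d R).E_pull s (K s) φ W hφ, hW,
    mul_zero, map_zero]

end BoxAux

open BoxAux

/-- T8a (file Box.lean) -/
theorem EU_point (d R : ℕ) (K : Fin d → ℕ) (W : (Fin d → Fin (2 ^ R)) → ℝ)
    (hW : ∀ s, (gridSys d R).E s (K s) W = 0) (p : Fin d → ℕ) (x : Fin d → Fin (2 ^ R))
    (hx : ∃ s, p s / 2 ^ (R - K s) ≠ (x s).val / 2 ^ (R - K s)) :
    (gridSys d R).EU univ K (fun y => (if ∀ i, p i ≤ (y i).val then 1 else 0) * W y) x = 0 := by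
  classical
  obtain ⟨s, hs⟩ := hx
  set φ : (Fin d → Fin (2 ^ R)) → ℝ := fun y =>
    if (p s / 2 ^ (R - K s) < (x s).val / 2 ^ (R - K s) ∧ ∀ t, t ≠ s → p t ≤ (y t).val) then 1
      else 0 with hφ
  have h1 : (gridSys d R).EU univ K (fun y => (if ∀ i, p i ≤ (y i).val then 1 else 0) * W y) x =
      (gridSys d R).EU univ K (φ * W) x := by
    apply EU_local
    intro y _ hy
    have hys := hy s (mem_univ s)
    rw [Pi.mul_apply]
    congr 1
    rw [hφ]
    apply if_congr _ rfl rfl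
    constructor
    · intro h
      refine ⟨?_, fun t _ => h t⟩
      have h2 : p s / 2 ^ (R - K s) ≤ (y s).val / 2 ^ (R - K s) := Nat.div_le_div_right (h s)
      rw [hys] at h2
      exact lt_of_le_of_ne h2 hs
    · rintro ⟨h2, h3⟩ i
      by_cases his : i = s
      · subst his
        rw [← hys] at h2
        by_contra hc
        push Not at hc
        exact absurd (Nat.div_le_div_right (c := 2 ^ (R - K i)) hc.le) (not_le.2 h2)
      · exact h3 i his
  rw [h1, EU_zero d R K W φ s (hW s)]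
  · rfl
  · intro y z hyz
    rw [rel_iff] at hyz
    rw [hφ]
    apply if_congr _ rfl rfl
    refine and_congr Iff.rfl (forall_congr' fun t => forall_congr' fun ht => ?_)
    rw [hyz.1 t ht]

/-- T8b (file Box.lean) -/
theorem EU_volume (d R : ℕ) (K : Fin d → ℕ) (W : (Fin d → Fin (2 ^ R)) → ℝ)
    (hW : ∀ s, (gridSys d R).E s (K s) W = 0) (u : Fin d → ℝ) :
    (gridSys d R).EU univ K (fun y => (∏ i, (((y i).val : ℝ) + u i) / 2 ^ R) * W y) =
    (gridSys d R).EU univ K
      (fun y => (∏ i, (((y i).val % 2 ^ (R - K i) : ℕ) : ℝ) / 2 ^ R) * W y) := by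
  classical
  set a : Fin d → (Fin d → Fin (2 ^ R)) → ℝ := fun i y =>
    (((2 ^ (R - K i) * ((y i).val / 2 ^ (R - K i)) : ℕ) : ℝ) + u i) / 2 ^ R with ha
  set b : Fin d → (Fin d → Fin (2 ^ R)) → ℝ := fun i y =>
    (((y i).val % 2 ^ (R - K i) : ℕ) : ℝ) / 2 ^ R with hb
  have h1 : (fun y => (∏ i, (((y i).val : ℝ) + u i) / 2 ^ R) * W y) =
      ∑ T ∈ (univ : Finset (Fin d)).powerset, (fun y => (∏ i ∈ T, a i y) *
        ∏ i ∈ univ \ T, b i y) * W := by
    funext y
    rw [Finset.sum_apply]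
    simp only [Pi.mul_apply]
    rw [← Finset.sum_mul]
    congr 1
    rw [← Finset.prod_add]
    refine Finset.prod_congr rfl fun i _ => ?_
    rw [ha, hb]
    simp only
    rw [← add_div]
    congr 1
    have h2 := Nat.div_add_mod (y i).val (2 ^ (R - K i))
    have h3 : ((y i).val : ℝ) = ((2 ^ (R - K i) * ((y i).val / 2 ^ (R - K i)) : ℕ) : ℝ) +
        (((y i).val % 2 ^ (R - K i) : ℕ) : ℝ) := by
      rw [← Nat.cast_add, h2]
    rw [h3]
    ring
  have h4 : (fun y => (∏ i, (((y i).val % 2 ^ (R - K i) : ℕ) : ℝ) / 2 ^ R) * W y) =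
      (fun y => (∏ i ∈ (∅ : Finset (Fin d)), a i y) * ∏ i ∈ univ \ ∅, b i y) * W := by
    funext y
    simp [hb]
  rw [h1, h4, map_sum]
  apply Finset.sum_eq_single
  · intro T _ hT
    obtain ⟨s, hs⟩ := Finset.nonempty_iff_ne_empty.2 hT
    apply EU_zero d R K W _ s (hW s)
    intro y z hyz
    rw [rel_iff] at hyz
    congr 1
    · refine Finset.prod_congr rfl fun i _ => ?_
      rw [ha]
      simp only
      by_cases his : i = s
      · subst his
        rw [hyz.2]
      · rw [hyz.1 i his]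
    · refine Finset.prod_congr rfl fun i hi => ?_
      have his : i ≠ s := by
        rintro rfl
        exact (mem_sdiff.1 hi).2 hs
      rw [hb]
      simp only
      rw [hyz.1 i his]
  · intro h
    exact absurd (empty_mem_powerset _) h

namespace BoxAux

/-- sum over one block -/
theorem sum_block (R m : ℕ) (hm : m ≤ R) (a : Fin (2 ^ R)) (g : ℕ → ℝ) :
    (∑ b : Fin (2 ^ R), if b.val / 2 ^ m = a.val / 2 ^ m then g b.val else 0) =
      ∑ j ∈ range (2 ^ m), g (2 ^ m * (a.val / 2 ^ m) + j) := by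
  rw [Fin.sum_univ_eq_sum_range (fun b => if b / 2 ^ m = a.val / 2 ^ m then g b else 0),
    ← Finset.sum_filter]
  have hpos : 0 < 2 ^ m := by positivity
  symm
  apply Finset.sum_bij (fun j _ => 2 ^ m * (a.val / 2 ^ m) + j)
  · intro j hj
    rw [mem_range] at hj
    rw [mem_filter, mem_range]
    constructor
    · have h1 : a.val < 2 ^ m * 2 ^ (R - m) := by
        rw [← pow_add, Nat.add_sub_cancel' hm]
        exact a.2
      have h2 : a.val / 2 ^ m < 2 ^ (R - m) := Nat.div_lt_of_lt_mul h1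
      calc 2 ^ m * (a.val / 2 ^ m) + j < 2 ^ m * (a.val / 2 ^ m) + 2 ^ m := by omega
        _ = 2 ^ m * (a.val / 2 ^ m + 1) := by ring
        _ ≤ 2 ^ m * 2 ^ (R - m) := Nat.mul_le_mul_left _ h2
        _ = 2 ^ R := by rw [← pow_add, Nat.add_sub_cancel' hm]
    · rw [Nat.mul_add_div hpos, Nat.div_eq_of_lt hj, add_zero]
  · intro i _ j _ h
    omega
  · intro b hb
    rw [mem_filter, mem_range] at hb
    refine ⟨b % 2 ^ m, mem_range.2 (Nat.mod_lt _ hpos), ?_⟩
    rw [← hb.2]
    exact Nat.div_add_mod b (2 ^ m)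
  · intro j _
    rfl

theorem tri (n : ℕ) : (∑ j ∈ range n, (j : ℝ)) = (n : ℝ) * (n - 1) / 2 := by
  induction n with
  | zero => simp
  | succ n ih => rw [sum_range_succ, ih]; push_cast; ring

/-- the sum of `j` times the sign of the top digit -/
theorem sum_sign (n : ℕ) (q : ℕ) :
    (∑ j ∈ range (2 ^ (n + 1)), ((((2 ^ (n + 1) * q + j) % 2 ^ (n + 1) : ℕ) : ℝ) *
      (if (2 ^ (n + 1) * q + j) / 2 ^ n % 2 = 1 then 1 else -1))) = (2 ^ (n + 1)) ^ 2 / 4 := by
  have hpos : 0 < 2 ^ n := by positivity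
  have h2 : 2 ^ (n + 1) = 2 ^ n + 2 ^ n := by ring
  have h3 : ∀ j ∈ range (2 ^ (n + 1)), ((((2 ^ (n + 1) * q + j) % 2 ^ (n + 1) : ℕ) : ℝ) *
      (if (2 ^ (n + 1) * q + j) / 2 ^ n % 2 = 1 then 1 else -1)) =
      (j : ℝ) * (if 2 ^ n ≤ j then 1 else -1) := by
    intro j hj
    rw [mem_range] at hj
    have e1 : (2 ^ (n + 1) * q + j) % 2 ^ (n + 1) = j := by
      rw [Nat.mul_add_mod, Nat.mod_eq_of_lt hj]
    have e2 : (2 ^ (n + 1) * q + j) / 2 ^ n = 2 * q + j / 2 ^ n := by
      rw [show 2 ^ (n + 1) * q = 2 ^ n * (2 * q) by ring, Nat.mul_add_div hpos]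
    rw [e1, e2]
    congr 1
    apply if_congr _ rfl rfl
    constructor
    · intro h
      by_contra hc
      push Not at hc
      rw [Nat.div_eq_of_lt hc] at h
      omega
    · intro h
      have e3 : j / 2 ^ n = 1 := by
        apply Nat.div_eq_of_lt_le
        · simpa using h
        · rw [h2] at hj
          calc j < 2 ^ n + 2 ^ n := hj
            _ = (1 + 1) * 2 ^ n := by ring
      rw [e3]
      omega
  rw [Finset.sum_congr rfl h3, h2, Finset.sum_range_add]
  have h4 : ∀ j ∈ range (2 ^ n), (j : ℝ) * (if 2 ^ n ≤ j then 1 else -1) = -(j : ℝ) := by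
    intro j hj
    rw [mem_range] at hj
    rw [if_neg (by omega)]
    ring
  have h5 : ∀ j ∈ range (2 ^ n), ((2 ^ n + j : ℕ) : ℝ) * (if 2 ^ n ≤ 2 ^ n + j then 1 else -1) =
      2 ^ n + (j : ℝ) := by
    intro j _
    rw [if_pos (by omega)]
    push_cast
    ring
  rw [Finset.sum_congr rfl h4, Finset.sum_congr rfl h5, Finset.sum_neg_distrib,
    Finset.sum_add_distrib]
  simp only [sum_const, card_range, nsmul_eq_mul]
  push_cast
  ring

/-- one coordinate -/
theorem E_phi (d R : ℕ) (i : Fin d) (k : ℕ) (hk : k < R) (x : Fin d → Fin (2 ^ R)) :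
    (gridSys d R).E i k (fun y => ((((y i).val % 2 ^ (R - k) : ℕ) : ℝ) / 2 ^ R) *
      (gridSys d R).r i k y) x = 1 / (4 * 2 ^ k) := by
  rw [E_eq]
  simp only [r_eq, Function.update_self]
  obtain ⟨n, hn⟩ : ∃ n, R - k = n + 1 := ⟨R - k - 1, by omega⟩
  have hR : R = n + 1 + k := by omega
  rw [hn, show n + 1 - 1 = n by omega]
  have h1 := sum_block R (n + 1) (by omega) (x i) (fun b => (((b % 2 ^ (n + 1) : ℕ) : ℝ) / 2 ^ R) *
    (if b / 2 ^ n % 2 = 1 then 1 else -1))
  rw [h1]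
  have h2 : ∀ j ∈ range (2 ^ (n + 1)), ((((2 ^ (n + 1) * ((x i).val / 2 ^ (n + 1)) + j) %
      2 ^ (n + 1) : ℕ) : ℝ) / 2 ^ R) *
      (if (2 ^ (n + 1) * ((x i).val / 2 ^ (n + 1)) + j) / 2 ^ n % 2 = 1 then (1 : ℝ) else -1) =
      ((((2 ^ (n + 1) * ((x i).val / 2 ^ (n + 1)) + j) % 2 ^ (n + 1) : ℕ) : ℝ) *
      (if (2 ^ (n + 1) * ((x i).val / 2 ^ (n + 1)) + j) / 2 ^ n % 2 = 1 then (1 : ℝ) else -1)) /
        2 ^ R := by
    intro j _
    ring
  rw [Finset.sum_congr rfl h2, ← Finset.sum_div, sum_sign]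
  have h3 : (2 : ℝ) ^ R = 2 ^ (n + 1) * 2 ^ k := by rw [hR, pow_add]
  rw [h3]
  field_simp

end BoxAux

/-- T8c (file Box.lean) -/
theorem EU_main (d R : ℕ) (K : Fin d → ℕ) (hK : ∀ s, K s < R) (x : Fin d → Fin (2 ^ R)) :
    (gridSys d R).EU univ K
      (fun y => (∏ i, (((y i).val % 2 ^ (R - K i) : ℕ) : ℝ) / 2 ^ R) *
        (gridSys d R).chi univ K y) x = ∏ i, 1 / (4 * 2 ^ (K i)) := by
  classical
  set φ : Fin d → (Fin d → Fin (2 ^ R)) → ℝ := fun i y =>
    ((((y i).val % 2 ^ (R - K i) : ℕ) : ℝ) / 2 ^ R) * (gridSys d R).r i (K i) y with hφ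
  have h0 : (fun y => (∏ i, (((y i).val % 2 ^ (R - K i) : ℕ) : ℝ) / 2 ^ R) *
        (gridSys d R).chi univ K y) = fun y => ∏ i, φ i y := by
    funext y
    rw [Sys.chi, ← Finset.prod_mul_distrib]
  have h1 : ∀ U : Finset (Fin d), (gridSys d R).EU U K (fun y => ∏ i, φ i y) =
      fun y => (∏ i ∈ U, 1 / (4 * 2 ^ (K i))) * ∏ i ∈ Uᶜ, φ i y := by
    intro U
    induction U using Finset.induction_on with
    | empty => rw [Sys.EU_empty]; simp
    | insert s U hs ih =>
      rw [Sys.EU_insert _ hs, ih]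
      have h2 : (fun y => (∏ i ∈ U, 1 / (4 * (2:ℝ) ^ (K i))) * ∏ i ∈ Uᶜ, φ i y) =
          (fun y => (∏ i ∈ U, 1 / (4 * (2:ℝ) ^ (K i))) * ∏ i ∈ (insert s U)ᶜ, φ i y) * φ s := by
        funext y
        rw [Pi.mul_apply]
        have h3 : Uᶜ = insert s (insert s U)ᶜ := by
          ext t
          simp only [mem_compl, mem_insert, not_or]
          constructor
          · intro h
            by_cases hts : t = s
            · exact Or.inl hts
            · exact Or.inr ⟨hts, h⟩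
          · rintro (rfl | ⟨_, h⟩)
            · exact hs
            · exact h
        rw [h3, Finset.prod_insert (by simp)]
        ring
      rw [h2, (gridSys d R).E_pull s (K s) _ (φ s)]
      · funext y
        rw [Pi.mul_apply, E_phi d R s (K s) (hK s) y, Finset.prod_insert hs]
        ring
      · intro y z hyz
        have hyz' := (rel_iff d R s (K s) y z).1 hyz
        congr 1
        refine Finset.prod_congr rfl fun i hi => ?_
        have his : i ≠ s := by
          rintro rfl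
          exact (mem_compl.1 hi) (mem_insert_self _ _)
        rw [hφ]
        simp only
        rw [hyz'.1 i his, (gridSys d R).r_other i s (K i) (K s) y z his hyz]
  rw [h0, h1 univ]
  simp

/-- T8d (file Box.lean) -/
theorem card_nonempty (d R : ℕ) (K : Fin d → ℕ) (ι : Type) (T : Finset ι) (p : ι → Fin d → ℕ) :
    Nat.card {x : Fin d → Fin (2 ^ R) // ∃ j ∈ T, ∀ s, p j s / 2 ^ (R - K s) =
      (x s).val / 2 ^ (R - K s)} ≤ T.card * ∏ s, 2 ^ (R - K s) := by
  classical
  rw [Nat.card_eq_fintype_card, Fintype.card_subtype]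
  set B : ι → Finset (Fin d → Fin (2 ^ R)) := fun j =>
    Fintype.piFinset fun s => univ.filter fun b : Fin (2 ^ R) =>
      p j s / 2 ^ (R - K s) = b.val / 2 ^ (R - K s) with hB
  have h1 : (univ.filter fun x : Fin d → Fin (2 ^ R) => ∃ j ∈ T, ∀ s, p j s / 2 ^ (R - K s) =
      (x s).val / 2 ^ (R - K s)) ⊆ T.biUnion B := by
    intro x hx
    rw [mem_filter] at hx
    obtain ⟨j, hj, h⟩ := hx.2
    rw [mem_biUnion]
    refine ⟨j, hj, ?_⟩
    rw [hB, Fintype.mem_piFinset]
    intro s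
    rw [mem_filter]
    exact ⟨mem_univ _, h s⟩
  refine (card_le_card h1).trans (card_biUnion_le_card_mul _ _ _ fun j _ => ?_)
  rw [hB]
  simp only
  rw [Fintype.card_piFinset]
  apply Finset.prod_le_prod' 
  intro s _
  have h2 : (univ.filter fun b : Fin (2 ^ R) => p j s / 2 ^ (R - K s) =
      b.val / 2 ^ (R - K s)).card ≤ (range (2 ^ (R - K s))).card := by
    apply Finset.card_le_card_of_injOn (fun b => b.val % 2 ^ (R - K s))
    · intro b _
      simp only [coe_range, Set.mem_Iio]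
      exact Nat.mod_lt _ (by positivity)
    · intro b hb c hc hbc
      simp only [coe_filter, mem_univ, true_and, Set.mem_ofPred_eq] at hb hc
      simp only at hbc
      apply Fin.ext
      rw [← Nat.div_add_mod b.val (2 ^ (R - K s)), ← Nat.div_add_mod c.val (2 ^ (R - K s)), ← hb,
        ← hc, hbc]
  rwa [card_range] at h2

end Pool.Agent.H730R2.LD
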