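import Pool.Agent.H730R2.LD.Sys

set_option autoImplicit false

namespace Pool.Agent.H730R2.LD

open Finset

variable {d R : ℕ} {X : Type} [Fintype X] (S : Sys d R X)

/-- T2 (file Clean.lean) : cleaning -/
theorem clean (V : Finset (Fin d)) (K : Fin d → ℕ) (B : Finset X) (L : ℝ) (hL : 1 ≤ L) :
    ∃ A : Finset X, (∀ x ∈ A, x ∉ B) ∧
      (∀ x, (∀ U, U ⊆ V → S.EU U K (ind B) x ≤ 1 / 2 / L ^ d) → x ∈ A) ∧
      (∀ s ∈ V, ∀ x ∈ A, S.E s (K s) (1 - ind A) x ≤ 2 ^ d / L) := by
  classical
  have hL0 : 0 < L := by linarith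
  obtain ⟨t, ht⟩ : ∃ t : ℕ → ℝ, t = fun j => 1 / 2 / L ^ (d - j) := ⟨_, rfl⟩
  have htpos : ∀ j, 0 < t j := by
    intro j
    rw [ht]
    positivity
  obtain ⟨A, hA⟩ : ∃ A : Finset X, A = univ.filter
      (fun x => ∀ S0, S0 ⊆ V → S.EU (V \ S0) K (ind B) x ≤ t S0.card) := ⟨_, rfl⟩
  have hmem : ∀ x, x ∈ A ↔ ∀ S0, S0 ⊆ V → S.EU (V \ S0) K (ind B) x ≤ t S0.card := by
    intro x
    rw [hA, Finset.mem_filter]
    simp only [Finset.mem_univ, true_and]
  refine ⟨A, ?_, ?_, ?_⟩
  · intro x hx hB
    have h := (hmem x).1 hx V (Finset.Subset.refl V)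
    rw [Finset.sdiff_self, S.EU_empty, ind_mem hB, ht] at h
    have h1 : 1 / 2 / L ^ (d - V.card) ≤ (1 / 2 : ℝ) :=
      div_le_self (by norm_num) (one_le_pow₀ hL)
    linarith
  · intro x hx
    rw [hmem]
    intro S0 _
    refine (hx (V \ S0) Finset.sdiff_subset).trans ?_
    rw [ht]
    have h1 : L ^ (d - S0.card) ≤ L ^ d := pow_le_pow_right₀ hL (Nat.sub_le _ _)
    exact div_le_div_of_nonneg_left (by norm_num) (by positivity) h1
  · intro s hs x hx
    have hxA := (hmem x).1 hx
    -- the family of sets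
    obtain ⟨F, hF⟩ : ∃ F : Finset (Finset (Fin d)), F = V.powerset.filter (fun S0 => s ∈ S0) :=
      ⟨_, rfl⟩
    have hFmem : ∀ S0, S0 ∈ F ↔ S0 ⊆ V ∧ s ∈ S0 := by
      intro S0
      rw [hF, Finset.mem_filter, Finset.mem_powerset]
    have hle : S.E s (K s) (1 - ind A) x ≤
        S.E s (K s) (∑ S0 ∈ F, (1 / t S0.card) • S.EU (V \ S0) K (ind B)) x := by
      refine S.E_le s (K s) _ _ x fun y hy => ?_
      have hnn : ∀ S0 ∈ F, 0 ≤ (1 / t S0.card) * S.EU (V \ S0) K (ind B) y := by
        intro S0 _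
        exact mul_nonneg (one_div_pos.2 (htpos _)).le
          (S.EU_nonneg K (fun z => ind_nonneg B z) y)
      simp only [Pi.sub_apply, Pi.one_apply, Finset.sum_apply, Pi.smul_apply, smul_eq_mul]
      by_cases hyA : y ∈ A
      · rw [ind_mem hyA, sub_self]
        exact Finset.sum_nonneg hnn
      · rw [ind_notMem hyA, sub_zero]
        rw [hmem] at hyA
        push Not at hyA
        obtain ⟨S0, h1, h2⟩ := hyA
        have h3 : s ∈ S0 := by
          by_contra hns
          have h4 := S.EU_meas (Finset.mem_sdiff.2 ⟨hs, hns⟩) K (ind B) x y hy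
          rw [← h4] at h2
          exact absurd (hxA S0 h1) (not_le.2 h2)
        refine le_trans ?_ (Finset.single_le_sum hnn ((hFmem S0).2 ⟨h1, h3⟩))
        rw [one_div, inv_mul_eq_div, le_div_iff₀ (htpos _), one_mul]
        exact h2.le
    refine hle.trans ?_
    rw [map_sum, Finset.sum_apply]
    have hterm : ∀ S0 ∈ F, S.E s (K s) ((1 / t S0.card) • S.EU (V \ S0) K (ind B)) x ≤ 1 / L := by
      intro S0 hS0
      obtain ⟨h1, h2⟩ := (hFmem S0).1 hS0
      rw [map_smul, Pi.smul_apply, smul_eq_mul]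
      have hns : s ∉ V \ S0 := fun h => (Finset.mem_sdiff.1 h).2 h2
      rw [← S.EU_insert hns]
      have hset : insert s (V \ S0) = V \ S0.erase s := by
        ext y
        simp only [Finset.mem_insert, Finset.mem_sdiff, Finset.mem_erase, not_and]
        constructor
        · rintro (rfl | ⟨h3, h4⟩)
          · exact ⟨hs, fun h => absurd rfl h⟩
          · exact ⟨h3, fun _ => h4⟩
        · rintro ⟨h3, h4⟩
          by_cases hys : y = s
          · exact Or.inl hys
          · exact Or.inr ⟨h3, h4 hys⟩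
      rw [hset]
      have h5 := hxA (S0.erase s) ((Finset.erase_subset _ _).trans h1)
      have hcard : (S0.erase s).card = S0.card - 1 := Finset.card_erase_of_mem h2
      have hpos : 1 ≤ S0.card := Finset.card_pos.2 ⟨s, h2⟩
      have hled : S0.card ≤ d := by
        have := Finset.card_le_univ S0
        simpa using this
      rw [hcard] at h5
      have h6 : t (S0.card - 1) = t S0.card * (1 / L) := by
        rw [ht]
        have e1 : d - (S0.card - 1) = (d - S0.card) + 1 := by omega
        simp only [e1, pow_succ]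
        field_simp
      rw [h6] at h5
      have h7 := htpos S0.card
      calc 1 / t S0.card * S.EU (V \ S0.erase s) K (ind B) x
          ≤ 1 / t S0.card * (t S0.card * (1 / L)) :=
            mul_le_mul_of_nonneg_left h5 (one_div_pos.2 h7).le
        _ = 1 / L := by field_simp
    refine (Finset.sum_le_sum hterm).trans ?_
    rw [Finset.sum_const, nsmul_eq_mul]
    have hFc : F.card ≤ 2 ^ d := by
      rw [hF]
      refine (Finset.card_filter_le _ _).trans ?_
      rw [Finset.card_powerset]
      refine Nat.pow_le_pow_right (by norm_num) ?_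
      have := Finset.card_le_univ V
      simpa using this
    have hFc' : (F.card : ℝ) ≤ 2 ^ d := by exact_mod_cast hFc
    calc (F.card : ℝ) * (1 / L) ≤ 2 ^ d * (1 / L) :=
          mul_le_mul_of_nonneg_right hFc' (by positivity)
      _ = 2 ^ d / L := by ring

end Pool.Agent.H730R2.LD
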