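import Pool.Agent.H730R2.LD.LevDef

set_option autoImplicit false

namespace Pool.Agent.H730R2.LD

open Finset

/-- T7 (file Count.lean) -/
theorem card_levels (d n : ℕ) (hd : 1 ≤ d) :
    ((n : ℝ) / d) ^ (d - 1) ≤
      (((Lev d (n + 1) univ).filter (fun K => ∑ s, K s = n)).card : ℝ) := by
  classical
  obtain ⟨e, rfl⟩ : ∃ e, d = e + 1 := ⟨d - 1, by omega⟩
  set m := n / (e + 1) with hm
  have hmn : (e + 1) * m ≤ n := Nat.mul_div_le n (e + 1)
  have hsum : ∀ f : Fin e → Fin (m + 1), ∑ i, (f i : ℕ) ≤ n := by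
    intro f
    calc ∑ i, (f i : ℕ) ≤ ∑ _i : Fin e, m := Finset.sum_le_sum fun i _ => by
          have := (f i).isLt; omega
      _ = e * m := by simp
      _ ≤ n := by nlinarith
  let g : (Fin e → Fin (m + 1)) → (Fin (e + 1) → ℕ) := fun f =>
    Fin.cons (n - ∑ i, (f i : ℕ)) (fun i => (f i : ℕ))
  have hg : ∀ f, g f ∈ (Lev (e + 1) (n + 1) univ).filter (fun K => ∑ s, K s = n) := by
    intro f
    rw [Finset.mem_filter]
    have hs : ∑ s, g f s = n := by
      rw [Fin.sum_univ_succ]
      simp only [g, Fin.cons_zero, Fin.cons_succ]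
      have := hsum f
      omega
    refine ⟨?_, hs⟩
    unfold Lev
    rw [Fintype.mem_piFinset]
    intro s
    rw [if_pos (mem_univ s), Finset.mem_range]
    have : g f s ≤ ∑ s, g f s := Finset.single_le_sum (fun _ _ => Nat.zero_le _) (mem_univ s)
    omega
  have hinj : Function.Injective g := by
    intro f f' h
    funext i
    have h1 := congrFun h i.succ
    simp only [g, Fin.cons_succ] at h1
    exact Fin.ext h1
  have hcard : (m + 1) ^ e ≤ ((Lev (e + 1) (n + 1) univ).filter (fun K => ∑ s, K s = n)).card := by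
    calc (m + 1) ^ e = (univ : Finset (Fin e → Fin (m + 1))).card := by
          rw [Finset.card_univ, Fintype.card_fun, Fintype.card_fin, Fintype.card_fin]
      _ = ((univ : Finset (Fin e → Fin (m + 1))).image g).card :=
          (Finset.card_image_of_injective _ hinj).symm
      _ ≤ _ := Finset.card_le_card fun K hK => by
          rw [Finset.mem_image] at hK
          obtain ⟨f, _, rfl⟩ := hK
          exact hg f
  have hlt : (n : ℝ) / ((e + 1 : ℕ) : ℝ) ≤ (m : ℝ) + 1 := by
    rw [div_le_iff₀ (by positivity)]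
    have h1 : n < (e + 1) * (m + 1) := by
      have := Nat.div_add_mod n (e + 1)
      have h2 := Nat.mod_lt n (Nat.succ_pos e)
      rw [← hm] at this
      have h3 : n % (e + 1) < e + 1 := h2
      nlinarith
    have h4 : (n : ℝ) < (e + 1 : ℕ) * ((m : ℝ) + 1) := by exact_mod_cast h1
    linarith
  calc ((n : ℝ) / ((e + 1 : ℕ) : ℝ)) ^ (e + 1 - 1) ≤ ((m : ℝ) + 1) ^ e := by
        rw [Nat.add_sub_cancel]
        exact pow_le_pow_left₀ (by positivity) hlt e
    _ = (((m + 1) ^ e : ℕ) : ℝ) := by push_cast; ring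
    _ ≤ _ := by exact_mod_cast hcard

end Pool.Agent.H730R2.LD
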