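import Pool.Agent.H730R2.LD.Sys

set_option autoImplicit false

/-!
# The dyadic maximal inequality (Doob, iterated over the coordinates)
-/

namespace Pool.Agent.H730R2.LD

open Finset

variable {d R : ℕ} {X : Type} [Fintype X] (S : Sys d R X)

namespace Sys

/-- the running maximum of `E s 0 f, …, E s k f` -/
noncomputable def am (s : Fin d) (f : X → ℝ) : ℕ → X → ℝ
  | 0 => S.E s 0 f
  | k + 1 => fun x => max (am s f k x) (S.E s (k + 1) f x)

theorem am_zero (s : Fin d) (f : X → ℝ) : S.am s f 0 = S.E s 0 f := rfl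

theorem am_succ (s : Fin d) (f : X → ℝ) (k : ℕ) (x : X) :
    S.am s f (k + 1) x = max (S.am s f k x) (S.E s (k + 1) f x) := rfl

theorem am_meas (s : Fin d) (f : X → ℝ) (k : ℕ) :
    ∀ x y, S.rel s k x y → S.am s f k x = S.am s f k y := by
  induction k with
  | zero => intro x y h; exact S.E_meas s 0 f x y h
  | succ k ih =>
    intro x y h
    rw [am_succ, am_succ, ih x y (S.rel_mono s k (k + 1) x y (Nat.le_succ k) h),
      S.E_meas s (k + 1) f x y h]

theorem le_am (s : Fin d) (f : X → ℝ) (n : ℕ) :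
    ∀ k ≤ n, ∀ x, S.E s k f x ≤ S.am s f n x := by
  induction n with
  | zero => intro k hk x; obtain rfl : k = 0 := by omega
            exact le_rfl
  | succ n ih =>
    intro k hk x
    rw [am_succ]
    rcases Nat.lt_or_ge n k with h | h
    · obtain rfl : k = n + 1 := by omega
      exact le_max_right _ _
    · exact (ih k h x).trans (le_max_left _ _)

theorem am_mono (s : Fin d) {f g : X → ℝ} (h : ∀ x, f x ≤ g x) (n : ℕ) :
    ∀ x, S.am s f n x ≤ S.am s g n x := by
  induction n with
  | zero => exact S.E_mono s 0 h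
  | succ n ih =>
    intro x
    rw [am_succ, am_succ]
    exact max_le_max (ih x) (S.E_mono s (n + 1) h x)

/-- the pathwise inequality of Doob -/
theorem am_path (s : Fin d) (f : X → ℝ) (x : X) (n : ℕ) :
    ∑ i ∈ range n, S.am s f i x * (S.E s (i + 1) f x - S.E s i f x) ≤
      S.am s f n x * S.E s n f x - (S.am s f n x) ^ 2 / 2 - (S.E s 0 f x) ^ 2 / 2 := by
  induction n with
  | zero =>
    simp only [range_zero, sum_empty, am_zero]
    nlinarith
  | succ n ih =>
    rw [sum_range_succ, am_succ]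
    rcases le_total (S.am s f n x) (S.E s (n + 1) f x) with h | h
    · rw [max_eq_right h]
      nlinarith [sq_nonneg (S.E s (n + 1) f x - S.am s f n x)]
    · rw [max_eq_left h]
      nlinarith

theorem sum_am_diff (s : Fin d) (f : X → ℝ) (i : ℕ) (hi : i < R) :
    ∑ x, S.am s f i x * (S.E s (i + 1) f x - S.E s i f x) = 0 := by
  have h1 : ∀ x, S.am s f i x * (S.E s (i + 1) f x - S.E s i f x) =
      ((S.am s f i * S.E s i (S.r s i * f)) * S.r s i) x := by
    intro x
    rw [S.haar s i f hi]
    simp only [Pi.add_apply, Pi.mul_apply]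
    ring
  rw [sum_congr rfl fun x _ => h1 x, ← S.E_sum s i, S.E_pull s i _ _ (by
    intro x y h
    simp only [Pi.mul_apply]
    rw [S.am_meas s f i x y h, S.E_meas s i (S.r s i * f) x y h]), S.E_r s i hi]
  simp

/-- Doob's `L²` maximal inequality in one coordinate -/
theorem nsq_am (s : Fin d) (f : X → ℝ) : nsq (S.am s f R) ≤ 4 * nsq f := by
  have h0 : ∑ x, ∑ i ∈ range R, S.am s f i x * (S.E s (i + 1) f x - S.E s i f x) = 0 := by
    rw [sum_comm]
    exact sum_eq_zero fun i hi => S.sum_am_diff s f i (mem_range.mp hi)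
  have h1 : ∑ x, ∑ i ∈ range R, S.am s f i x * (S.E s (i + 1) f x - S.E s i f x) ≤
      ∑ x, (2 * f x ^ 2 / 2 - (S.am s f R x) ^ 2 / 4 ) := by
    refine sum_le_sum fun x _ => ?_
    refine (S.am_path s f x R).trans ?_
    rw [S.E_top]
    nlinarith [sq_nonneg (S.am s f R x - 2 * f x), sq_nonneg (S.E s 0 f x)]
  rw [h0, sum_sub_distrib] at h1
  unfold nsq
  have e1 : ∑ x, 2 * f x ^ 2 / 2 = ∑ x, f x ^ 2 := sum_congr rfl fun x _ => by ring
  have e2 : ∑ x, (S.am s f R x) ^ 2 / 4 = (∑ x, (S.am s f R x) ^ 2) / 4 := by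
    rw [sum_div]
  rw [e1, e2] at h1
  linarith

/-- iterated maximal function -/
noncomputable def MM (l : List (Fin d)) (f : X → ℝ) : X → ℝ :=
  l.foldr (fun s g => S.am s g R) f

theorem MM_nil (f : X → ℝ) : S.MM [] f = f := rfl

theorem MM_cons (s : Fin d) (l : List (Fin d)) (f : X → ℝ) :
    S.MM (s :: l) f = S.am s (S.MM l f) R := rfl

theorem nsq_MM (l : List (Fin d)) (f : X → ℝ) : nsq (S.MM l f) ≤ 4 ^ l.length * nsq f := by
  induction l with
  | nil => simp [MM_nil]
  | cons s l ih =>
    rw [MM_cons, List.length_cons, pow_succ]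
    have := S.nsq_am s (S.MM l f)
    nlinarith

theorem EU_le_MM (K : Fin d → ℕ) (hK : ∀ s, K s ≤ R) (f : X → ℝ) (l : List (Fin d)) :
    ∀ U : Finset (Fin d), (∀ s ∈ U, s ∈ l) → ∀ x, S.EU U K f x ≤ S.MM l f x := by
  classical
  induction l with
  | nil =>
    intro U hU x
    have : U = ∅ := by
      apply Finset.eq_empty_of_forall_notMem
      intro s hs
      exact absurd (hU s hs) (List.not_mem_nil)
    rw [this, EU_empty, MM_nil]
  | cons s l ih =>
    intro U hU x
    rw [MM_cons]
    by_cases hs : s ∈ U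
    · have h1 : ∀ y, S.EU (U.erase s) K f y ≤ S.MM l f y := by
        apply ih
        intro t ht
        rcases List.mem_cons.mp (hU t (mem_of_mem_erase ht)) with h | h
        · exact absurd h (ne_of_mem_erase ht)
        · exact h
      rw [← Finset.insert_erase hs, S.EU_insert (notMem_erase s U)]
      exact (S.E_mono s (K s) h1 x).trans (S.le_am s _ R (K s) (hK s) x)
    · have h1 : ∀ y, S.EU U K f y ≤ S.MM l f y := by
        apply ih
        intro t ht
        rcases List.mem_cons.mp (hU t ht) with h | h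
        · exact absurd (h ▸ ht) hs
        · exact h
      refine (h1 x).trans ?_
      have h2 := S.le_am s (S.MM l f) R R le_rfl x
      rwa [S.E_top] at h2

end Sys

/-- T1 (file Doob.lean) : maximal inequality -/
theorem maximal (B : Finset X) (t : ℝ) (ht : 0 < t) (ht1 : t < 1) :
    ∃ B' : Finset X, (∀ x ∈ B, x ∈ B') ∧ (B'.card : ℝ) ≤ 4 ^ d / t ^ 2 * B.card ∧
      ∀ x, x ∉ B' → ∀ (U : Finset (Fin d)) (K : Fin d → ℕ), (∀ s, K s ≤ R) →
        S.EU U K (ind B) x ≤ t := by
  classical
  set g : X → ℝ := S.MM (List.finRange d) (ind B) with hg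
  have hle : ∀ (U : Finset (Fin d)) (K : Fin d → ℕ), (∀ s, K s ≤ R) → ∀ x,
      S.EU U K (ind B) x ≤ g x := fun U K hK x =>
    S.EU_le_MM K hK (ind B) (List.finRange d) U (fun s _ => List.mem_finRange s) x
  refine ⟨univ.filter fun x => t < g x, ?_, ?_, ?_⟩
  · intro x hx
    rw [mem_filter]
    refine ⟨mem_univ x, ?_⟩
    have h := hle ∅ (fun _ => 0) (fun _ => Nat.zero_le _) x
    rw [S.EU_empty, ind_mem hx] at h
    linarith
  · have h1 : nsq g ≤ 4 ^ d * B.card := by
      have := S.nsq_MM (List.finRange d) (ind B)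
      rwa [List.length_finRange, nsq_ind] at this
    have h2 : ((univ.filter fun x => t < g x).card : ℝ) * t ^ 2 ≤ nsq g := by
      rw [← nsmul_eq_mul, ← Finset.sum_const]
      unfold nsq
      calc ∑ x ∈ univ.filter (fun x => t < g x), t ^ 2
          ≤ ∑ x ∈ univ.filter (fun x => t < g x), g x ^ 2 := by
            refine sum_le_sum fun x hx => ?_
            have hx' := (mem_filter.mp hx).2
            nlinarith
        _ ≤ ∑ x, g x ^ 2 := sum_le_sum_of_subset_of_nonneg (filter_subset _ _)
            fun x _ _ => sq_nonneg _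
    have ht2 : 0 < t ^ 2 := by positivity
    rw [div_mul_eq_mul_div, le_div_iff₀ ht2]
    linarith
  · intro x hx U K hK
    rw [mem_filter, not_and, not_lt] at hx
    exact (hle U K hK x).trans (hx (mem_univ x))

end Pool.Agent.H730R2.LD
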