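import Pool.Agent.H736R2.Lone.Final

set_option autoImplicit false

/-! Task T6: the integral over `[0,1]^d` is at least the infimum of the averages over all shifted
grids. -/

namespace Pool.Agent.H730R2.LD

open Finset MeasureTheory

/-- T6 (file IntD.lean) -/
theorem le_lintegral_gridD (d R : ℕ) (G : (Fin d → ℝ) → ENNReal) (hG : Measurable G) (B : ENNReal)
    (h : ∀ u : Fin d → ℝ, B ≤ (∑ x : Fin d → Fin (2 ^ R),
      G (fun i => (((x i).val : ℝ) + u i) / 2 ^ R)) / 2 ^ (R * d)) :
    B ≤ ∫⁻ x in Set.Icc (0 : Fin d → ℝ) 1, G x := by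
  induction d with
  | zero =>
    have h0 := h (fun _ => 0)
    rw [lintegral_unique]
    have hv : (volume.restrict (Set.Icc (0 : Fin 0 → ℝ) 1)) Set.univ = 1 := by
      rw [Measure.restrict_apply_univ, Real.volume_Icc_pi]
      simp
    rw [hv, mul_one]
    refine h0.trans (le_of_eq ?_)
    rw [mul_zero, pow_zero, div_one, Fintype.sum_unique]
    congr 1
    exact Subsingleton.elim _ _
  | succ d ih =>
    have hGc : ∀ t : ℝ, Measurable (fun x : Fin d → ℝ => G (Fin.cons t x)) := fun t =>
      hG.comp ((H736R2.Lone.measurable_cons d).comp (measurable_const.prodMk measurable_id))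
    have hF : Measurable (fun t : ℝ => ∫⁻ x in Set.Icc (0 : Fin d → ℝ) 1, G (Fin.cons t x)) := by
      have h1 : Measurable (fun p : ℝ × (Fin d → ℝ) => G (Fin.cons p.1 p.2)) :=
        hG.comp (H736R2.Lone.measurable_cons d)
      exact h1.lintegral_prod_right'
    rw [H736R2.Lone.lintegral_slice d G hG]
    apply H736R2.Lone.le_lintegral_of_grid _ hF R
    intro s
    have e1 : (∑ a ∈ range (2 ^ R), ∫⁻ x in Set.Icc (0 : Fin d → ℝ) 1,
        G (Fin.cons (((a : ℝ) + s) / 2 ^ R) x)) / 2 ^ R =
        ∫⁻ x in Set.Icc (0 : Fin d → ℝ) 1,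
          (∑ a ∈ range (2 ^ R), G (Fin.cons (((a : ℝ) + s) / 2 ^ R) x)) / 2 ^ R := by
      simp only [div_eq_mul_inv]
      rw [lintegral_mul_const _ (Finset.measurable_fun_sum _ fun a _ => hGc _),
        lintegral_finsetSum _ (fun a _ => hGc _)]
    rw [e1]
    apply ih
    · simp only [div_eq_mul_inv]
      exact (Finset.measurable_fun_sum _ fun a _ => hGc _).mul_const _
    · intro u
      refine (h (Fin.cons s u)).trans (le_of_eq ?_)
      have e2 : ∑ x : Fin (d + 1) → Fin (2 ^ R),
          G (fun i => (((x i).val : ℝ) + (Fin.cons s u : Fin (d + 1) → ℝ) i) / 2 ^ R) =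
          ∑ x : Fin d → Fin (2 ^ R), ∑ a ∈ range (2 ^ R),
            G (Fin.cons (((a : ℝ) + s) / 2 ^ R) (fun i => (((x i).val : ℝ) + u i) / 2 ^ R)) := by
        rw [← (Fin.consEquiv (fun _ : Fin (d + 1) => Fin (2 ^ R))).sum_comp,
          Fintype.sum_prod_type, Finset.sum_comm]
        refine Finset.sum_congr rfl fun x _ => ?_
        rw [← Fin.sum_univ_eq_sum_range (fun a : ℕ =>
          G (Fin.cons (((a : ℝ) + s) / 2 ^ R) (fun i => (((x i).val : ℝ) + u i) / 2 ^ R)))]
        refine Finset.sum_congr rfl fun a _ => ?_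
        congr 1
        funext i
        refine Fin.cases ?_ (fun j => ?_) i
        · simp [Fin.consEquiv]
        · simp [Fin.consEquiv]
      rw [e2]
      have e3 : (2 : ENNReal) ^ (R * (d + 1)) = 2 ^ R * 2 ^ (R * d) := by
        rw [← pow_add]; congr 1; ring
      rw [e3]
      simp only [div_eq_mul_inv]
      rw [← Finset.sum_mul, mul_assoc]
      congr 1
      exact ENNReal.mul_inv (Or.inl (by simp)) (Or.inl (by simp))

end Pool.Agent.H730R2.LD
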