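import Pool.Agent.H730R2.LD.Main
import Pool.Agent.H730R2.LD.Box
import Pool.Agent.H730R2.LD.Count
import Pool.Agent.H730R2.LD.IntD

set_option autoImplicit false

/-!
# The lower bound in every dimension
-/

namespace Pool.Agent.H730R2.LD

open Finset

/-- weighted discrepancy function on a shifted grid -/
noncomputable def Dg (d R : ℕ) {ι : Type} (T : Finset ι) (w : ι → ℝ) (p : ι → Fin d → ℕ)
    (u : Fin d → ℝ) (M : ℝ) (x : Fin d → Fin (2 ^ R)) : ℝ :=
  ∑ j ∈ T, (if ∀ i, p j i ≤ (x i).val then w j else 0) -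
    M * ∏ i, (((x i).val : ℝ) + u i) / 2 ^ R

/-- the local product -/
noncomputable def psi (d R : ℕ) (K : Fin d → ℕ) (x : Fin d → Fin (2 ^ R)) : ℝ :=
  ∏ i, (((x i).val % 2 ^ (R - K i) : ℕ) : ℝ) / 2 ^ R

theorem psi_nonneg (d R : ℕ) (K : Fin d → ℕ) (x : Fin d → Fin (2 ^ R)) : 0 ≤ psi d R K x := by
  unfold psi
  exact Finset.prod_nonneg fun i _ => by positivity

theorem psi_le (d R : ℕ) (K : Fin d → ℕ) (hK : ∀ s, K s < R) (x : Fin d → Fin (2 ^ R)) :
    psi d R K x ≤ 1 / 2 ^ (∑ i, K i) := by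
  unfold psi
  have h : (1 : ℝ) / 2 ^ (∑ i, K i) = ∏ i : Fin d, (1 : ℝ) / 2 ^ (K i) := by
    rw [Finset.prod_div_distrib, Finset.prod_const_one, Finset.prod_pow_eq_pow_sum]
  rw [h]
  apply Finset.prod_le_prod
  · intro i _; positivity
  · intro i _
    rw [div_le_div_iff₀ (by positivity) (by positivity), one_mul]
    have h1 : (x i).val % 2 ^ (R - K i) ≤ 2 ^ (R - K i) := (Nat.mod_lt _ (by positivity)).le
    have h2 : 2 ^ (R - K i) * 2 ^ K i = 2 ^ R := by
      rw [← pow_add, Nat.sub_add_cancel (hK i).le]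
    have h3 : (((x i).val % 2 ^ (R - K i) : ℕ) : ℝ) ≤ 2 ^ (R - K i) := by exact_mod_cast h1
    calc (((x i).val % 2 ^ (R - K i) : ℕ) : ℝ) * 2 ^ K i ≤ 2 ^ (R - K i) * 2 ^ K i :=
          mul_le_mul_of_nonneg_right h3 (by positivity)
      _ = 2 ^ R := by exact_mod_cast h2

/-- empty boxes -/
theorem EU_empty_box (d R : ℕ) (K : Fin d → ℕ) (W : (Fin d → Fin (2 ^ R)) → ℝ)
    (hW : ∀ s, (gridSys d R).E s (K s) W = 0) {ι : Type} (T : Finset ι) (w : ι → ℝ)
    (p : ι → Fin d → ℕ) (u : Fin d → ℝ) (M : ℝ) (x : Fin d → Fin (2 ^ R))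
    (hx : ¬ ∃ j ∈ T, ∀ s, p j s / 2 ^ (R - K s) = (x s).val / 2 ^ (R - K s)) :
    (gridSys d R).EU univ K (Dg d R T w p u M * W) x =
      - M * (gridSys d R).EU univ K (psi d R K * W) x := by
  have hdec : Dg d R T w p u M * W =
      ∑ j ∈ T, w j • (fun y : Fin d → Fin (2 ^ R) =>
        (if ∀ i, p j i ≤ (y i).val then (1 : ℝ) else 0) * W y) -
      M • (fun y : Fin d → Fin (2 ^ R) => (∏ i, (((y i).val : ℝ) + u i) / 2 ^ R) * W y) := by
    ext y
    simp only [Pi.mul_apply, Pi.sub_apply, Finset.sum_apply, Pi.smul_apply, smul_eq_mul, Dg]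
    rw [sub_mul, Finset.sum_mul, mul_assoc]
    congr 1
    apply Finset.sum_congr rfl
    intro j _
    split_ifs <;> ring
  rw [hdec, map_sub, map_sum, map_smul, EU_volume d R K W hW u]
  simp only [map_smul]
  rw [Pi.sub_apply, Finset.sum_apply]
  have h0 : ∀ j ∈ T, (w j • (gridSys d R).EU univ K (fun y : Fin d → Fin (2 ^ R) =>
        (if ∀ i, p j i ≤ (y i).val then (1 : ℝ) else 0) * W y)) x = 0 := by
    intro j hj
    rw [Pi.smul_apply, EU_point d R K W hW (p j) x, smul_zero]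
    by_contra h
    push Not at h
    exact hx ⟨j, hj, h⟩
  rw [Finset.sum_eq_zero h0, zero_sub, Pi.smul_apply, smul_eq_mul, neg_mul]
  rfl

/-- the lower bound on the grid, in measure -/
theorem grid_measure (d : ℕ) (hd : 1 ≤ d) : ∃ ε : ℝ, 0 < ε ∧ ∃ c : ℝ, 0 < c ∧
    ∀ (n : ℕ) (ι : Type) (T : Finset ι)
    (w : ι → ℝ) (p : ι → Fin d → ℕ) (u : Fin d → ℝ) (M : ℝ), 0 < M → 2 * T.card ≤ 2 ^ n →
    ε * (2 ^ ((n + 1) * d)) ≤ ((univ.filter (fun x : Fin d → Fin (2 ^ (n + 1)) =>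
      c * (M / 2 ^ n) * ((n : ℝ) / d) ^ (((d : ℝ) - 1) / 2) ≤
        |Dg d (n + 1) T w p u M x|)).card : ℝ) := by
  classical
  set δ : ℝ := 1 / (4 * 4 ^ d) with hδ
  obtain ⟨ε, hε, C, hC, hmain⟩ := abstract_main d hd δ (by positivity)
  refine ⟨min ε 1, lt_min hε one_pos, 1 / (8 * 4 ^ d * Real.sqrt C), by positivity, ?_⟩
  intro n ι T w p u M hM hT
  have hC0 : 0 < Real.sqrt C := Real.sqrt_pos.2 hC
  set R := n + 1 with hR
  set X := Fin d → Fin (2 ^ R) with hX
  set S := gridSys d R with hS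
  set D : X → ℝ := Dg d R T w p u M with hD
  have hcardX : ((Fintype.card X : ℕ) : ℝ) = 2 ^ (R * d) := by
    show ((Fintype.card (Fin d → Fin (2 ^ R)) : ℕ) : ℝ) = 2 ^ (R * d)
    rw [Fintype.card_fun, Fintype.card_fin, Fintype.card_fin]
    push_cast
    rw [← pow_mul]
  have hcX : (0 : ℝ) < Fintype.card X := by rw [hcardX]; positivity
  -- the levels
  set KK : Finset (Fin d → ℕ) := (Lev d (n + 1) univ).filter (fun K => ∑ s, K s = n) with hKK
  have hKKcard : ((n : ℝ) / d) ^ (d - 1) ≤ (KK.card : ℝ) := card_levels d n hd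
  have hd0 : (0 : ℝ) < d := by exact_mod_cast hd
  have hroot : ((n : ℝ) / d) ^ (((d : ℝ) - 1) / 2) ≤ Real.sqrt KK.card := by
    apply Real.le_sqrt_of_sq_le
    refine le_trans (le_of_eq ?_) hKKcard
    have hnd : (0 : ℝ) ≤ (n : ℝ) / d := by positivity
    rw [← Real.rpow_natCast (((n : ℝ) / d) ^ (((d : ℝ) - 1) / 2)) 2, ← Real.rpow_mul hnd,
      ← Real.rpow_natCast ((n : ℝ) / d) (d - 1), Nat.cast_sub hd]
    congr 1
    push_cast
    ring
  set N : ℝ := (KK.card : ℝ) with hN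
  have hN0 : 0 ≤ N := Nat.cast_nonneg _
  by_cases hNz : N = 0
  · rw [hNz, Real.sqrt_zero] at hroot
    have h0 : ((n : ℝ) / d) ^ (((d : ℝ) - 1) / 2) = 0 :=
      le_antisymm hroot (Real.rpow_nonneg (by positivity) _)
    rw [h0, mul_zero]
    rw [Finset.filter_true_of_mem (fun x _ => abs_nonneg _), Finset.card_univ, ← hcardX]
    calc min ε 1 * (Fintype.card X : ℝ) ≤ 1 * Fintype.card X :=
          mul_le_mul_of_nonneg_right (min_le_right _ _) hcX.le
      _ = _ := one_mul _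
  have hNpos : 0 < N := lt_of_le_of_ne hN0 (Ne.symm hNz)
  set lam : ℝ := M / 2 ^ n / (4 * 4 ^ d) with hlam
  have hlam0 : 0 < lam := by positivity
  set M1 : ℝ := lam * Real.sqrt N / (2 * Real.sqrt C) with hM1
  have hM10 : 0 < M1 := by
    have : 0 < Real.sqrt N := Real.sqrt_pos.2 hNpos
    positivity
  -- the claim
  by_contra hcon
  push Not at hcon
  set B : Finset X := univ.filter (fun x => M1 < |D x|) with hB
  have hBcard : (B.card : ℝ) ≤ ε * Fintype.card X := by
    have hsub : B ⊆ univ.filter (fun x : X =>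
        1 / (8 * 4 ^ d * Real.sqrt C) * (M / 2 ^ n) * ((n : ℝ) / d) ^ (((d : ℝ) - 1) / 2) ≤
          |D x|) := by
      intro x hx
      refine Finset.mem_filter.2 ⟨Finset.mem_univ x, ?_⟩
      refine le_trans ?_ (Finset.mem_filter.1 hx).2.le
      calc 1 / (8 * 4 ^ d * Real.sqrt C) * (M / 2 ^ n) * ((n : ℝ) / d) ^ (((d : ℝ) - 1) / 2)
          ≤ 1 / (8 * 4 ^ d * Real.sqrt C) * (M / 2 ^ n) * Real.sqrt N :=
            mul_le_mul_of_nonneg_left hroot (by positivity)
        _ = M1 := by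
            rw [hM1, hlam]
            field_simp
            ring
    have h1 : (B.card : ℝ) ≤ ((univ.filter (fun x : X =>
        1 / (8 * 4 ^ d * Real.sqrt C) * (M / 2 ^ n) * ((n : ℝ) / d) ^ (((d : ℝ) - 1) / 2) ≤
          |D x|)).card : ℝ) := by exact_mod_cast Finset.card_le_card hsub
    calc (B.card : ℝ) ≤ _ := h1
      _ ≤ min ε 1 * (2 ^ ((n + 1) * d)) := hcon.le
      _ = min ε 1 * Fintype.card X := by rw [hcardX]
      _ ≤ _ := mul_le_mul_of_nonneg_right (min_le_left _ _) hcX.le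
  obtain ⟨W, hW1, hW2, hW3, hW4⟩ := hmain R X S B hBcard
  have hpair := hW4 D M1 (by
    intro x hx
    by_contra h
    push Not at h
    exact hx (Finset.mem_filter.2 ⟨Finset.mem_univ x, h⟩))
  -- lower bound for one level
  have hlow : ∀ K ∈ KK, lam * Fintype.card X ≤ ∑ x, |S.EU univ K (D * W K) x| := by
    intro K hK
    obtain ⟨hKL, hKs⟩ := Finset.mem_filter.1 hK
    have hKR : ∀ s, K s < R := fun s => (mem_Lev.1 hKL).1 s (Finset.mem_univ s)
    set NE : Finset X := univ.filter (fun x : X =>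
      ∃ j ∈ T, ∀ s, p j s / 2 ^ (R - K s) = (x s).val / 2 ^ (R - K s)) with hNE
    have hNEcard : (NE.card : ℝ) ≤ 1 / 2 * Fintype.card X := by
      have h1 := card_nonempty d R K ι T p
      have h2 : Nat.card {x : Fin d → Fin (2 ^ R) // ∃ j ∈ T, ∀ s, p j s / 2 ^ (R - K s) =
          (x s).val / 2 ^ (R - K s)} = NE.card := by
        rw [Nat.card_eq_fintype_card, Fintype.card_subtype]
      rw [h2] at h1
      have h3 : (∏ s, 2 ^ (R - K s)) * 2 ^ n = 2 ^ (R * d) := by
        rw [← hKs, ← Finset.prod_pow_eq_pow_sum, ← Finset.prod_mul_distrib]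
        have : ∀ s ∈ (univ : Finset (Fin d)), 2 ^ (R - K s) * 2 ^ K s = 2 ^ R := by
          intro s _
          rw [← pow_add, Nat.sub_add_cancel (hKR s).le]
        rw [Finset.prod_congr rfl this, Finset.prod_const, Finset.card_univ, Fintype.card_fin,
          ← pow_mul]
      have h4 : 2 * NE.card ≤ 2 ^ (R * d) := by
        calc 2 * NE.card ≤ 2 * (T.card * ∏ s, 2 ^ (R - K s)) := Nat.mul_le_mul_left 2 h1
          _ = (2 * T.card) * ∏ s, 2 ^ (R - K s) := by ring
          _ ≤ 2 ^ n * ∏ s, 2 ^ (R - K s) := Nat.mul_le_mul_right _ hT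
          _ = 2 ^ (R * d) := by rw [← h3]; ring
      have h5 : (2 : ℝ) * NE.card ≤ 2 ^ (R * d) := by exact_mod_cast h4
      rw [hcardX]
      linarith
    have hpt : ∀ x, x ∉ NE → M * (1 / 2 ^ n / 4 ^ d) -
        M * |S.EU univ K (psi d R K * (W K - S.chi univ K)) x| ≤ |S.EU univ K (D * W K) x| := by
      intro x hx
      have hx' : ¬ ∃ j ∈ T, ∀ s, p j s / 2 ^ (R - K s) = (x s).val / 2 ^ (R - K s) := by
        intro h
        exact hx (Finset.mem_filter.2 ⟨Finset.mem_univ x, h⟩)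
      have e1 := EU_empty_box d R K (W K) (hW2 K hKR) T w p u M x hx'
      have e2 : S.EU univ K (psi d R K * W K) x =
          S.EU univ K (psi d R K * S.chi univ K) x +
            S.EU univ K (psi d R K * (W K - S.chi univ K)) x := by
        rw [← Pi.add_apply, ← map_add, ← mul_add, add_sub_cancel]
      have e3 : S.EU univ K (psi d R K * S.chi univ K) x = 1 / 2 ^ n / 4 ^ d := by
        have h := EU_main d R K hKR x
        have h2 : (psi d R K * S.chi univ K) = (fun y : Fin d → Fin (2 ^ R) =>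
            (∏ i, (((y i).val % 2 ^ (R - K i) : ℕ) : ℝ) / 2 ^ R) *
              (gridSys d R).chi univ K y) := rfl
        rw [h2]
        refine h.trans ?_
        rw [Finset.prod_div_distrib, Finset.prod_const_one, Finset.prod_mul_distrib,
          Finset.prod_const, Finset.card_univ, Fintype.card_fin, Finset.prod_pow_eq_pow_sum, hKs]
        field_simp
      have e4 : |S.EU univ K (D * W K) x| = M * |S.EU univ K (psi d R K * W K) x| := by
        rw [hD, hS, e1, abs_mul, abs_neg, abs_of_pos hM]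
      rw [e4, e2, e3, ← mul_sub]
      apply mul_le_mul_of_nonneg_left _ hM.le
      have h1 := abs_sub_abs_le_abs_sub (1 / 2 ^ n / 4 ^ d : ℝ)
        (- S.EU univ K (psi d R K * (W K - S.chi univ K)) x)
      rw [abs_neg, sub_neg_eq_add, abs_of_pos (show (0 : ℝ) < 1 / 2 ^ n / 4 ^ d by positivity)] at h1
      exact h1
    have herr : ∑ x, |S.EU univ K (psi d R K * (W K - S.chi univ K)) x| ≤
        1 / 2 ^ n * (δ * Fintype.card X) := by
      calc ∑ x, |S.EU univ K (psi d R K * (W K - S.chi univ K)) x|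
          ≤ ∑ x, S.EU univ K (fun y => |(psi d R K * (W K - S.chi univ K)) y|) x :=
            Finset.sum_le_sum fun x _ => S.EU_abs_le K _ x
        _ = ∑ x, |(psi d R K * (W K - S.chi univ K)) x| := S.EU_sum K _
        _ ≤ ∑ x, 1 / 2 ^ n * |W K x - S.chi univ K x| := by
            apply Finset.sum_le_sum
            intro x _
            rw [Pi.mul_apply, abs_mul, abs_of_nonneg (psi_nonneg d R K x), Pi.sub_apply]
            apply mul_le_mul_of_nonneg_right _ (abs_nonneg _)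
            rw [← hKs]
            exact psi_le d R K hKR x
        _ = 1 / 2 ^ n * ∑ x, |W K x - S.chi univ K x| := by rw [Finset.mul_sum]
        _ ≤ _ := mul_le_mul_of_nonneg_left (hW3 K hKR) (by positivity)
    have hcompl : (1 / 2 : ℝ) * Fintype.card X ≤ ((univ \ NE).card : ℝ) := by
      have h1 : (univ \ NE).card = Fintype.card X - NE.card := by
        rw [Finset.card_sdiff_of_subset (Finset.subset_univ NE), Finset.card_univ]
      have h2 : NE.card ≤ Fintype.card X := Finset.card_le_univ NE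
      rw [h1, Nat.cast_sub h2]
      linarith
    calc lam * Fintype.card X
        = M * (1 / 2 ^ n / 4 ^ d) * (1 / 2 * Fintype.card X) -
            M * (1 / 2 ^ n * (δ * Fintype.card X)) := by
          rw [hlam, hδ]; field_simp; ring
      _ ≤ M * (1 / 2 ^ n / 4 ^ d) * ((univ \ NE).card : ℝ) -
            M * ∑ x, |S.EU univ K (psi d R K * (W K - S.chi univ K)) x| := by
          apply sub_le_sub
          · exact mul_le_mul_of_nonneg_left hcompl (by positivity)
          · exact mul_le_mul_of_nonneg_left herr hM.le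
      _ ≤ M * (1 / 2 ^ n / 4 ^ d) * ((univ \ NE).card : ℝ) -
            M * ∑ x ∈ univ \ NE, |S.EU univ K (psi d R K * (W K - S.chi univ K)) x| := by
          apply sub_le_sub_left
          apply mul_le_mul_of_nonneg_left _ hM.le
          exact Finset.sum_le_univ_sum_of_nonneg fun x => abs_nonneg _
      _ = ∑ x ∈ univ \ NE, (M * (1 / 2 ^ n / 4 ^ d) -
            M * |S.EU univ K (psi d R K * (W K - S.chi univ K)) x|) := by
          rw [Finset.sum_sub_distrib, Finset.sum_const, nsmul_eq_mul, Finset.mul_sum]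
          ring
      _ ≤ ∑ x ∈ univ \ NE, |S.EU univ K (D * W K) x| := by
          apply Finset.sum_le_sum
          intro x hx
          exact hpt x (Finset.mem_sdiff.1 hx).2
      _ ≤ _ := Finset.sum_le_univ_sum_of_nonneg fun x => abs_nonneg _
  -- upper bound
  have hup : ∑ K ∈ KK, ∑ x, |S.EU univ K (D * W K) x| ≤
      Real.sqrt (N * (Fintype.card X * (C * M1 ^ 2 * Fintype.card X))) := by
    apply Real.le_sqrt_of_sq_le
    have h1 : (∑ K ∈ KK, ∑ x, |S.EU univ K (D * W K) x|) ^ 2 ≤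
        KK.card * ∑ K ∈ KK, (∑ x, |S.EU univ K (D * W K) x|) ^ 2 :=
      sq_sum_le_card_mul_sum_sq
    have h2 : ∀ K ∈ KK, (∑ x, |S.EU univ K (D * W K) x|) ^ 2 ≤
        Fintype.card X * nsq (S.EU univ K (D * W K)) := by
      intro K _
      have h := sum_abs_le (S.EU univ K (D * W K))
      have h0 : 0 ≤ ∑ x, |S.EU univ K (D * W K) x| := Finset.sum_nonneg fun x _ => abs_nonneg _
      have h3 : (0 : ℝ) ≤ Fintype.card X * nsq (S.EU univ K (D * W K)) :=
        mul_nonneg hcX.le (nsq_nonneg _)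
      calc (∑ x, |S.EU univ K (D * W K) x|) ^ 2
          ≤ (Real.sqrt (Fintype.card X * nsq (S.EU univ K (D * W K)))) ^ 2 :=
            pow_le_pow_left₀ h0 h 2
        _ = _ := Real.sq_sqrt h3
    have h3 : ∑ K ∈ KK, nsq (S.EU univ K (D * W K)) ≤ C * M1 ^ 2 * Fintype.card X := by
      refine le_trans ?_ hpair
      exact Finset.sum_le_sum_of_subset_of_nonneg (Finset.filter_subset _ _)
        fun K _ _ => nsq_nonneg _
    calc (∑ K ∈ KK, ∑ x, |S.EU univ K (D * W K) x|) ^ 2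
        ≤ KK.card * ∑ K ∈ KK, (∑ x, |S.EU univ K (D * W K) x|) ^ 2 := h1
      _ ≤ KK.card * ∑ K ∈ KK, Fintype.card X * nsq (S.EU univ K (D * W K)) :=
          mul_le_mul_of_nonneg_left (Finset.sum_le_sum h2) hN0
      _ = KK.card * (Fintype.card X * ∑ K ∈ KK, nsq (S.EU univ K (D * W K))) := by
          rw [← Finset.mul_sum]
      _ ≤ _ := by
          apply mul_le_mul_of_nonneg_left _ hN0
          exact mul_le_mul_of_nonneg_left h3 hcX.le
  have hlow2 : N * (lam * Fintype.card X) ≤ ∑ K ∈ KK, ∑ x, |S.EU univ K (D * W K) x| := by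
    calc N * (lam * Fintype.card X) = ∑ _K ∈ KK, lam * (Fintype.card X : ℝ) := by
          rw [Finset.sum_const, nsmul_eq_mul]
      _ ≤ _ := Finset.sum_le_sum hlow
  have hsqrt : Real.sqrt (N * (Fintype.card X * (C * M1 ^ 2 * Fintype.card X))) =
      Real.sqrt N * (Real.sqrt C * M1 * Fintype.card X) := by
    rw [Real.sqrt_mul hN0]
    congr 1
    have : (Fintype.card X : ℝ) * (C * M1 ^ 2 * Fintype.card X) =
        C * (M1 * Fintype.card X) ^ 2 := by ring
    rw [this, Real.sqrt_mul hC.le, Real.sqrt_sq (by positivity)]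
    ring
  rw [hsqrt] at hup
  have hfin := hlow2.trans hup
  have hsN : 0 < Real.sqrt N := Real.sqrt_pos.2 hNpos
  have hsN2 : Real.sqrt N * Real.sqrt N = N := Real.mul_self_sqrt hN0
  have hval : Real.sqrt N * (Real.sqrt C * M1 * Fintype.card X) =
      N * lam / 2 * Fintype.card X := by
    rw [hM1]
    calc Real.sqrt N * (Real.sqrt C * (lam * Real.sqrt N / (2 * Real.sqrt C)) * Fintype.card X)
        = (Real.sqrt N * Real.sqrt N) * lam / 2 * Fintype.card X := by
          field_simp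
      _ = _ := by rw [hsN2]
  rw [hval] at hfin
  have : 0 < N * lam * Fintype.card X := by positivity
  nlinarith

/-- the lower bound on the grid -/
theorem grid_bound (d : ℕ) (hd : 1 ≤ d) : ∃ c : ℝ, 0 < c ∧ ∀ (n : ℕ) (ι : Type) (T : Finset ι)
    (w : ι → ℝ) (p : ι → Fin d → ℕ) (u : Fin d → ℝ) (M : ℝ), 0 < M → 2 * T.card ≤ 2 ^ n →
    c * (M / 2 ^ n) * ((n : ℝ) / d) ^ (((d : ℝ) - 1) / 2) * (2 ^ ((n + 1) * d)) ≤
      ∑ x, |Dg d (n + 1) T w p u M x| := by
  classical
  obtain ⟨ε, hε, c, hc, h⟩ := grid_measure d hd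
  refine ⟨ε * c, by positivity, fun n ι T w p u M hM hT => ?_⟩
  have h1 := h n ι T w p u M hM hT
  set θ : ℝ := c * (M / 2 ^ n) * ((n : ℝ) / d) ^ (((d : ℝ) - 1) / 2) with hθ
  have hθ0 : 0 ≤ θ := by positivity
  set A : Finset (Fin d → Fin (2 ^ (n + 1))) :=
    univ.filter (fun x => θ ≤ |Dg d (n + 1) T w p u M x|) with hA
  calc ε * c * (M / 2 ^ n) * ((n : ℝ) / d) ^ (((d : ℝ) - 1) / 2) * (2 ^ ((n + 1) * d))
      = θ * (ε * 2 ^ ((n + 1) * d)) := by rw [hθ]; ring
    _ ≤ θ * (A.card : ℝ) := mul_le_mul_of_nonneg_left h1 hθ0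
    _ = ∑ _x ∈ A, θ := by rw [Finset.sum_const, nsmul_eq_mul]; ring
    _ ≤ ∑ x ∈ A, |Dg d (n + 1) T w p u M x| :=
        Finset.sum_le_sum fun x hx => (Finset.mem_filter.1 hx).2
    _ ≤ _ := Finset.sum_le_univ_sum_of_nonneg fun x => abs_nonneg _

/-- the count part on a shifted grid -/
theorem disc_eq_Dg (d R : ℕ) {ι : Type} (T : Finset ι) (w : ι → ℝ) (P : ι → Fin d → ℝ) (M : ℝ)
    (u : Fin d → ℝ) (x : Fin d → Fin (2 ^ R)) :
    H736R2.Lone.disc T w P M (fun i => (((x i).val : ℝ) + u i) / 2 ^ R) =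
      Dg d R T w (fun j i => ⌈P j i * 2 ^ R - u i⌉₊) u M x := by
  have key : ∀ (P u : ℝ) (a : ℕ), (P ≤ ((a : ℝ) + u) / 2 ^ R) ↔ ⌈P * 2 ^ R - u⌉₊ ≤ a := by
    intro P u a
    rw [Nat.ceil_le, le_div_iff₀ (by positivity)]
    constructor <;> intro h <;> linarith
  unfold H736R2.Lone.disc Dg
  simp only [← key]

/-- **sharp lower bound in every dimension** (weighted points) -/
theorem LBnd_sharp (d : ℕ) (hd : 1 ≤ d) : H736R2.Lone.LBnd d (((d : ℝ) - 1) / 2) := by
  intro C hC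
  obtain ⟨c, hc, hgrid⟩ := grid_bound d hd
  set C' : ℝ := max C 1 with hC'
  have hC'1 : 1 ≤ C' := le_max_right _ _
  have hC'C : C ≤ C' := le_max_left _ _
  have hC'0 : 0 < C' := by linarith
  have hd0 : (0 : ℝ) < d := by exact_mod_cast hd
  have hα : 0 ≤ ((d : ℝ) - 1) / 2 := by
    have : (1 : ℝ) ≤ d := by exact_mod_cast hd
    linarith
  refine ⟨c * (1 / (4 * C')) * (1 / d) ^ (((d : ℝ) - 1) / 2), by positivity, 2, le_rfl, ?_⟩
  intro M hM ι T w P hT
  have hM0 : 0 < M := by linarith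
  -- the number of levels
  obtain ⟨n, hn1, hn2⟩ : ∃ n : ℕ, 2 * C' * M ≤ 2 ^ n ∧ (2 : ℝ) ^ n ≤ 4 * C' * M := by
    have h1 : (1 : ℝ) ≤ 2 * C' * M := by nlinarith
    refine ⟨⌈Real.logb 2 (2 * C' * M)⌉₊, ?_, ?_⟩
    · calc 2 * C' * M = (2 : ℝ) ^ (Real.logb 2 (2 * C' * M)) := by
            rw [Real.rpow_logb (by norm_num) (by norm_num) (by positivity)]
        _ ≤ (2 : ℝ) ^ ((⌈Real.logb 2 (2 * C' * M)⌉₊ : ℕ) : ℝ) :=
            Real.rpow_le_rpow_of_exponent_le (by norm_num) (Nat.le_ceil _)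
        _ = _ := Real.rpow_natCast _ _
    · have h0 : 0 ≤ Real.logb 2 (2 * C' * M) := Real.logb_nonneg (by norm_num) h1
      calc (2 : ℝ) ^ ⌈Real.logb 2 (2 * C' * M)⌉₊
          = (2 : ℝ) ^ ((⌈Real.logb 2 (2 * C' * M)⌉₊ : ℕ) : ℝ) := (Real.rpow_natCast _ _).symm
        _ ≤ (2 : ℝ) ^ (Real.logb 2 (2 * C' * M) + 1) :=
            Real.rpow_le_rpow_of_exponent_le (by norm_num) (Nat.ceil_lt_add_one h0).le
        _ = _ := by
            rw [Real.rpow_add (by norm_num), Real.rpow_logb (by norm_num) (by norm_num)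
              (by positivity), Real.rpow_one]
            ring
  have hlogn : Real.log M ≤ n := by
    have h1 : Real.log M ≤ Real.log (2 ^ n) := by
      apply Real.log_le_log hM0
      refine le_trans ?_ hn1
      nlinarith
    rw [Real.log_pow] at h1
    have h2 : Real.log 2 ≤ 1 := by
      have := Real.log_two_lt_d9
      linarith
    have h3 : (0 : ℝ) ≤ n := Nat.cast_nonneg n
    nlinarith
  have hcardT : 2 * T.card ≤ 2 ^ n := by
    have : (2 : ℝ) * T.card ≤ 2 ^ n := by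
      refine le_trans ?_ hn1
      have : C * M ≤ C' * M := mul_le_mul_of_nonneg_right hC'C hM0.le
      linarith
    exact_mod_cast this
  have hG : Measurable (fun x : Fin d → ℝ => ENNReal.ofReal |H736R2.Lone.disc T w P M x|) :=
    (H736R2.Lone.measurable_disc T w P M).abs.ennreal_ofReal
  apply le_lintegral_gridD d (n + 1) _ hG
  intro u
  have hsum : ∑ x : Fin d → Fin (2 ^ (n + 1)), ENNReal.ofReal
      |H736R2.Lone.disc T w P M (fun i => (((x i).val : ℝ) + u i) / 2 ^ (n + 1))| =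
      ENNReal.ofReal (∑ x : Fin d → Fin (2 ^ (n + 1)),
        |Dg d (n + 1) T w (fun j i => ⌈P j i * 2 ^ (n + 1) - u i⌉₊) u M x|) := by
    rw [ENNReal.ofReal_sum_of_nonneg (fun x _ => abs_nonneg _)]
    apply Finset.sum_congr rfl
    intro x _
    rw [disc_eq_Dg]
  rw [hsum]
  have h2 : (2 : ENNReal) ^ ((n + 1) * d) = ENNReal.ofReal (2 ^ ((n + 1) * d)) := by
    rw [ENNReal.ofReal_pow (by norm_num)]
    simp
  rw [h2, ← ENNReal.ofReal_div_of_pos (by positivity)]
  apply ENNReal.ofReal_le_ofReal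
  rw [le_div_iff₀ (by positivity)]
  refine le_trans ?_ (hgrid n ι T w (fun j i => ⌈P j i * 2 ^ (n + 1) - u i⌉₊) u M hM0 hcardT)
  apply mul_le_mul_of_nonneg_right _ (by positivity)
  have hM2 : 1 / (4 * C') ≤ M / 2 ^ n := by
    rw [div_le_div_iff₀ (by positivity) (by positivity)]
    linarith
  have hlog0 : 0 ≤ Real.log M := Real.log_nonneg (by linarith)
  have hpow : (1 / (d : ℝ)) ^ (((d : ℝ) - 1) / 2) * (Real.log M) ^ (((d : ℝ) - 1) / 2) ≤
      ((n : ℝ) / d) ^ (((d : ℝ) - 1) / 2) := by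
    rw [← Real.mul_rpow (by positivity) hlog0]
    apply Real.rpow_le_rpow (by positivity) _ hα
    rw [div_mul_eq_mul_div, one_mul]
    exact div_le_div_of_nonneg_right hlogn hd0.le
  calc c * (1 / (4 * C')) * (1 / d) ^ (((d : ℝ) - 1) / 2) * (Real.log M) ^ (((d : ℝ) - 1) / 2)
      = c * (1 / (4 * C')) * ((1 / d) ^ (((d : ℝ) - 1) / 2) *
          (Real.log M) ^ (((d : ℝ) - 1) / 2)) := by ring
    _ ≤ c * (M / 2 ^ n) * ((n : ℝ) / d) ^ (((d : ℝ) - 1) / 2) := by
        apply mul_le_mul _ hpow (by positivity) (by positivity)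
        exact mul_le_mul_of_nonneg_left hM2 hc.le

end Pool.Agent.H730R2.LD
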