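import Pool.Agent.H730R2.LD.Final

set_option autoImplicit false

/-!
# The lower bound in measure
-/

namespace Pool.Agent.H730R2.LD

open Finset MeasureTheory

/-- the number of levels -/
theorem exists_levels (C' M : ℝ) (hC' : 1 ≤ C') (hM : 2 ≤ M) :
    ∃ n : ℕ, 2 * C' * M ≤ 2 ^ n ∧ (2 : ℝ) ^ n ≤ 4 * C' * M ∧ Real.log M ≤ n := by
  have hM0 : 0 < M := by linarith
  have hC0 : 0 < C' := by linarith
  obtain ⟨n, hn1, hn2⟩ : ∃ n : ℕ, 2 * C' * M ≤ 2 ^ n ∧ (2 : ℝ) ^ n ≤ 4 * C' * M := by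
    have h1 : (1 : ℝ) ≤ 2 * C' * M := by nlinarith
    refine ⟨⌈Real.logb 2 (2 * C' * M)⌉₊, ?_, ?_⟩
    · calc 2 * C' * M = (2 : ℝ) ^ (Real.logb 2 (2 * C' * M)) := by
            rw [Real.rpow_logb (by norm_num) (by norm_num) (by positivity)]
        _ ≤ (2 : ℝ) ^ ((⌈Real.logb 2 (2 * C' * M)⌉₊ : ℕ) : ℝ) :=
            Real.rpow_le_rpow_of_exponent_le (by norm_num) (Nat.le_ceil _)
        _ = _ := Real.rpow_natCast _ _
    · have h0 : 0 ≤ Real.logb 2 (2 * C' * M) := Real.logb_nonneg (by norm_num) h1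
      calc (2 : ℝ) ^ ⌈Real.logb 2 (2 * C' * M)⌉₊
          = (2 : ℝ) ^ ((⌈Real.logb 2 (2 * C' * M)⌉₊ : ℕ) : ℝ) := (Real.rpow_natCast _ _).symm
        _ ≤ (2 : ℝ) ^ (Real.logb 2 (2 * C' * M) + 1) :=
            Real.rpow_le_rpow_of_exponent_le (by norm_num) (Nat.ceil_lt_add_one h0).le
        _ = _ := by
            rw [Real.rpow_add (by norm_num), Real.rpow_logb (by norm_num) (by norm_num)
              (by positivity), Real.rpow_one]
            ring
  refine ⟨n, hn1, hn2, ?_⟩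
  have h1 : Real.log M ≤ Real.log (2 ^ n) := by
    apply Real.log_le_log hM0
    refine le_trans ?_ hn1
    nlinarith
  rw [Real.log_pow] at h1
  have h2 : Real.log 2 ≤ 1 := by
    have := Real.log_two_lt_d9
    linarith
  have h3 : (0 : ℝ) ≤ n := Nat.cast_nonneg n
  nlinarith

/-- **sharp lower bound in measure, in every dimension** (weighted points) -/
theorem measure_sharp (d : ℕ) (hd : 1 ≤ d) (C : ℝ) :
    ∃ ε : ℝ, 0 < ε ∧ ∃ c : ℝ, 0 < c ∧ ∀ M : ℝ, 2 ≤ M →
      ∀ (ι : Type) (T : Finset ι) (w : ι → ℝ) (P : ι → Fin d → ℝ), (T.card : ℝ) ≤ C * M →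
        ENNReal.ofReal ε ≤ volume {x : Fin d → ℝ | x ∈ Set.Icc (0 : Fin d → ℝ) 1 ∧
          c * (Real.log M) ^ (((d : ℝ) - 1) / 2) ≤ |H736R2.Lone.disc T w P M x|} := by
  classical
  obtain ⟨ε, hε, c, hc, hgrid⟩ := grid_measure d hd
  set C' : ℝ := max C 1 with hC'
  have hC'1 : 1 ≤ C' := le_max_right _ _
  have hC'C : C ≤ C' := le_max_left _ _
  have hC'0 : 0 < C' := by linarith
  have hd0 : (0 : ℝ) < d := by exact_mod_cast hd
  have hα : 0 ≤ ((d : ℝ) - 1) / 2 := by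
    have : (1 : ℝ) ≤ d := by exact_mod_cast hd
    linarith
  refine ⟨ε, hε, c * (1 / (4 * C')) * (1 / d) ^ (((d : ℝ) - 1) / 2), by positivity, ?_⟩
  intro M hM ι T w P hT
  have hM0 : 0 < M := by linarith
  obtain ⟨n, hn1, hn2, hlogn⟩ := exists_levels C' M hC'1 hM
  have hcardT : 2 * T.card ≤ 2 ^ n := by
    have : (2 : ℝ) * T.card ≤ 2 ^ n := by
      refine le_trans ?_ hn1
      have : C * M ≤ C' * M := mul_le_mul_of_nonneg_right hC'C hM0.le
      linarith
    exact_mod_cast this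
  set θ : ℝ := c * (1 / (4 * C')) * (1 / d) ^ (((d : ℝ) - 1) / 2) *
    (Real.log M) ^ (((d : ℝ) - 1) / 2) with hθ
  -- comparison of the thresholds
  have hM2 : 1 / (4 * C') ≤ M / 2 ^ n := by
    rw [div_le_div_iff₀ (by positivity) (by positivity)]
    linarith
  have hlog0 : 0 ≤ Real.log M := Real.log_nonneg (by linarith)
  have hpow : (1 / (d : ℝ)) ^ (((d : ℝ) - 1) / 2) * (Real.log M) ^ (((d : ℝ) - 1) / 2) ≤
      ((n : ℝ) / d) ^ (((d : ℝ) - 1) / 2) := by
    rw [← Real.mul_rpow (by positivity) hlog0]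
    apply Real.rpow_le_rpow (by positivity) _ hα
    rw [div_mul_eq_mul_div, one_mul]
    exact div_le_div_of_nonneg_right hlogn hd0.le
  have hthr : θ ≤ c * (M / 2 ^ n) * ((n : ℝ) / d) ^ (((d : ℝ) - 1) / 2) := by
    calc θ = c * (1 / (4 * C')) * ((1 / d) ^ (((d : ℝ) - 1) / 2) *
            (Real.log M) ^ (((d : ℝ) - 1) / 2)) := by rw [hθ]; ring
      _ ≤ c * (M / 2 ^ n) * ((n : ℝ) / d) ^ (((d : ℝ) - 1) / 2) := by
          apply mul_le_mul _ hpow (by positivity) (by positivity)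
          exact mul_le_mul_of_nonneg_left hM2 hc.le
  set A : Set (Fin d → ℝ) := {x | θ ≤ |H736R2.Lone.disc T w P M x|} with hA
  have hAm : MeasurableSet A :=
    measurableSet_le measurable_const (H736R2.Lone.measurable_disc T w P M).abs
  have hvol : volume {x : Fin d → ℝ | x ∈ Set.Icc (0 : Fin d → ℝ) 1 ∧
      θ ≤ |H736R2.Lone.disc T w P M x|} =
      ∫⁻ x in Set.Icc (0 : Fin d → ℝ) 1, A.indicator 1 x := by
    rw [lintegral_indicator_one hAm, Measure.restrict_apply hAm]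
    congr 1
    ext x
    simp only [Set.mem_setOf_eq, Set.mem_inter_iff, hA]
    exact and_comm
  rw [hvol]
  apply le_lintegral_gridD d (n + 1) _ (measurable_one.indicator hAm)
  intro u
  have h2 : (2 : ENNReal) ^ ((n + 1) * d) = ENNReal.ofReal (2 ^ ((n + 1) * d)) := by
    rw [ENNReal.ofReal_pow (by norm_num)]
    simp
  have hg := hgrid n ι T w (fun j i => ⌈P j i * 2 ^ (n + 1) - u i⌉₊) u M hM0 hcardT
  set D : (Fin d → Fin (2 ^ (n + 1))) → ℝ :=
    Dg d (n + 1) T w (fun j i => ⌈P j i * 2 ^ (n + 1) - u i⌉₊) u M with hD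
  have hsum : ∑ x : Fin d → Fin (2 ^ (n + 1)), A.indicator (1 : (Fin d → ℝ) → ENNReal)
      (fun i => (((x i).val : ℝ) + u i) / 2 ^ (n + 1)) =
      ENNReal.ofReal ((univ.filter (fun x => θ ≤ |D x|)).card : ℝ) := by
    have h1 : ∀ x : Fin d → Fin (2 ^ (n + 1)), A.indicator (1 : (Fin d → ℝ) → ENNReal)
        (fun i => (((x i).val : ℝ) + u i) / 2 ^ (n + 1)) =
        if θ ≤ |D x| then 1 else 0 := by
      intro x
      by_cases hx : θ ≤ |D x|
      · rw [if_pos hx, Set.indicator_of_mem]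
        · rfl
        · simp only [hA, Set.mem_setOf_eq, disc_eq_Dg]
          exact hx
      · rw [if_neg hx, Set.indicator_of_notMem]
        simp only [hA, Set.mem_setOf_eq, disc_eq_Dg]
        exact hx
    simp only [h1]
    rw [Finset.sum_boole, ENNReal.ofReal_natCast]
  rw [hsum, h2, ← ENNReal.ofReal_div_of_pos (by positivity)]
  apply ENNReal.ofReal_le_ofReal
  rw [le_div_iff₀ (by positivity)]
  refine hg.trans ?_
  have hsub : (univ.filter (fun x : Fin d → Fin (2 ^ (n + 1)) =>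
      c * (M / 2 ^ n) * ((n : ℝ) / d) ^ (((d : ℝ) - 1) / 2) ≤ |D x|)) ⊆
      univ.filter (fun x => θ ≤ |D x|) := by
    intro x hx
    exact Finset.mem_filter.2 ⟨Finset.mem_univ x, hthr.trans (Finset.mem_filter.1 hx).2⟩
  exact_mod_cast Finset.card_le_card hsub

end Pool.Agent.H730R2.LD
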