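import Pool.Agent.H730R2.LD.Sys

set_option autoImplicit false

namespace Pool.Agent.H730R2.LD

/-! ### abstract solver (helper13) -/

namespace SolverAux

open Finset

variable {Ω ι : Type*} [Fintype Ω]

/-- Commuting averaging operators (conditional expectations) on a finite set. -/
structure IsAvg (E : ι → (Ω → ℝ) →ₗ[ℝ] (Ω → ℝ)) : Prop where
  idem : ∀ s f, E s (E s f) = E s f
  comm : ∀ s t f, E s (E t f) = E t (E s f)
  adj : ∀ s f g, ∑ x, f x * E s g x = ∑ x, E s f x * g x
  sum : ∀ s f, ∑ x, E s f x = ∑ x, f x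
  cs : ∀ s (f g : Ω → ℝ) x, (E s (fun y => f y * g y) x) ^ 2 ≤
    E s (fun y => f y ^ 2) x * E s (fun y => g y ^ 2) x
  nonneg : ∀ s (f : Ω → ℝ), (∀ x, 0 ≤ f x) → ∀ x, 0 ≤ E s f x

variable {E : ι → (Ω → ℝ) →ₗ[ℝ] (Ω → ℝ)}

/-- Squared norm. -/
def sq (f : Ω → ℝ) : ℝ := ∑ x, f x ^ 2

theorem sq_nonneg' (f : Ω → ℝ) : 0 ≤ sq f := Finset.sum_nonneg (fun _ _ => sq_nonneg _)

/-- Pythagoras. -/
theorem IsAvg.pyth (h : IsAvg E) (s : ι) (f g : Ω → ℝ) :
    sq (f - E s f + E s g) ≤ sq f + sq (E s g) := by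
  have h1 : ∑ x, f x * E s g x = ∑ x, E s f x * E s g x := by
    have := h.adj s f (E s g)
    rwa [h.idem] at this
  have h2 : ∑ x, E s f x * f x = ∑ x, E s f x * E s f x := by
    have := h.adj s f f
    have h3 := h.adj s f (E s f)
    rw [h.idem] at h3
    rw [← this, h3]
  have h4 : sq (f - E s f + E s g) = sq f - sq (E s f) + sq (E s g) +
      (2 * (∑ x, f x * E s g x - ∑ x, E s f x * E s g x) -
       2 * (∑ x, E s f x * f x - ∑ x, E s f x * E s f x)) := by
    unfold sq
    simp only [Finset.mul_sum, ← Finset.sum_sub_distrib, ← Finset.sum_add_distrib]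
    apply Finset.sum_congr rfl
    intro x _
    simp only [Pi.add_apply, Pi.sub_apply]
    ring
  rw [h4, h1, h2]
  have := sq_nonneg' (E s f)
  linarith

/-- The part of `G` seen by the averages. -/
theorem IsAvg.exists_u (h : IsAvg E) (V : Finset ι) (G : Ω → ℝ) :
    ∃ u : Ω → ℝ, (∀ s ∈ V, E s u = E s G) ∧ sq u ≤ ∑ s ∈ V, sq (E s G) := by
  classical
  induction V using Finset.induction_on with
  | empty => exact ⟨0, by simp, by simp [sq]⟩
  | insert t V ht ih =>
    obtain ⟨u, hu, hn⟩ := ih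
    refine ⟨u - E t u + E t G, ?_, ?_⟩
    · intro s hs
      rcases Finset.mem_insert.mp hs with rfl | hs
      · rw [map_add, map_sub, h.idem, h.idem]; simp
      · rw [map_add, map_sub, h.comm s t u, h.comm s t G, hu s hs]; simp
    · rw [Finset.sum_insert ht]
      have := h.pyth t u G
      linarith

/-- One step of the iteration. -/
theorem IsAvg.step (h : IsAvg E) (V : Finset ι) {a : Ω → ℝ} (ha : ∀ x, a x = 0 ∨ a x = 1)
    {η : ℝ} (hη1 : 0 ≤ η) (hη : ∀ s ∈ V, ∀ x, E s (fun y => 1 - a y) x ≤ η ∨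
      ∀ u : Ω → ℝ, E s (fun y => a y * u y) x = 0)
    {G : Ω → ℝ} (hG : ∀ s ∈ V, ∀ x, (∀ u : Ω → ℝ, E s (fun y => a y * u y) x = 0) →
      E s G x = 0) :
    ∃ G' : Ω → ℝ, (∀ s ∈ V, ∀ x, (∀ u : Ω → ℝ, E s (fun y => a y * u y) x = 0) →
      E s G' x = 0) ∧ (∀ x, a x = 0 → G' x = G x) ∧
      sq (G' - G) ≤ ∑ s ∈ V, sq (E s G) ∧
      ∑ s ∈ V, sq (E s G') ≤ (V.card * η) * ∑ s ∈ V, sq (E s G) := by
  obtain ⟨u, hu, hn⟩ := h.exists_u V G
  refine ⟨G - fun y => a y * u y, ?_, ?_, ?_, ?_⟩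
  · intro s hs x hx
    rw [map_sub, Pi.sub_apply, hG s hs x hx, hx u, sub_zero]
  · intro x hx
    simp [hx]
  · refine le_trans ?_ hn
    unfold sq
    apply Finset.sum_le_sum
    intro x _
    have : ((G - fun y => a y * u y) - G) x = - (a x * u x) := by
      simp only [Pi.sub_apply]; ring
    rw [this]
    rcases ha x with h0 | h0
    · rw [h0]; simp; positivity
    · rw [h0]; simp
  · have key : ∀ s ∈ V, sq (E s (G - fun y => a y * u y)) ≤ η * ∑ s ∈ V, sq (E s G) := by
      intro s hs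
      have hη0 : ∀ x, (E s (G - fun y => a y * u y) x) ^ 2 ≤
          η * E s (fun y => u y ^ 2) x ∨ (E s (G - fun y => a y * u y) x) = 0 := by
        intro x
        rcases hη s hs x with h1 | h1
        · left
          have e1 : E s (G - fun y => a y * u y) = E s (fun y => (1 - a y) * u y) := by
            rw [map_sub, ← hu s hs, ← map_sub]
            congr 1
            ext y
            simp only [Pi.sub_apply]
            ring
          rw [e1]
          have e2 : (fun y => (1 - a y) ^ 2) = fun y => 1 - a y := by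
            ext y
            rcases ha y with h0 | h0 <;> rw [h0] <;> norm_num
          have := h.cs s (fun y => 1 - a y) u x
          rw [e2] at this
          exact this.trans (mul_le_mul_of_nonneg_right h1
            (h.nonneg s _ (fun y => sq_nonneg _) x))
        · right
          rw [map_sub, Pi.sub_apply, hG s hs x h1, h1 u, sub_zero]
      have h2 : sq (E s (G - fun y => a y * u y)) ≤ ∑ x, η * E s (fun y => u y ^ 2) x := by
        unfold sq
        apply Finset.sum_le_sum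
        intro x _
        rcases hη0 x with h1 | h1
        · exact h1
        · rw [h1]
          have := h.nonneg s (fun y => u y ^ 2) (fun y => sq_nonneg _) x
          simp
          positivity
      rw [← Finset.mul_sum, h.sum] at h2
      exact h2.trans (mul_le_mul_of_nonneg_left hn hη1)
    calc ∑ s ∈ V, sq (E s (G - fun y => a y * u y))
        ≤ ∑ _s ∈ V, η * ∑ s ∈ V, sq (E s G) := Finset.sum_le_sum key
      _ = (V.card * η) * ∑ s ∈ V, sq (E s G) := by
          rw [Finset.sum_const, nsmul_eq_mul]; ring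

theorem dist_toLp (f g : Ω → ℝ) :
    dist (WithLp.toLp 2 f : EuclideanSpace ℝ Ω) (WithLp.toLp 2 g) = Real.sqrt (sq (g - f)) := by
  rw [EuclideanSpace.dist_eq]
  congr 1
  unfold sq
  apply Finset.sum_congr rfl
  intro x _
  rw [Real.dist_eq, sq_abs]
  simp only [Pi.sub_apply]
  ring

/-- The solver. -/
theorem IsAvg.solve (h : IsAvg E) (V : Finset ι) {a : Ω → ℝ} (ha : ∀ x, a x = 0 ∨ a x = 1)
    {η : ℝ} (hη1 : 0 ≤ η) (hq : V.card * η ≤ 1 / 4)
    (hη : ∀ s ∈ V, ∀ x, E s (fun y => 1 - a y) x ≤ η ∨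
      ∀ u : Ω → ℝ, E s (fun y => a y * u y) x = 0)
    {G : Ω → ℝ} (hG : ∀ s ∈ V, ∀ x, (∀ u : Ω → ℝ, E s (fun y => a y * u y) x = 0) →
      E s G x = 0) :
    ∃ f : Ω → ℝ, (∀ x, a x = 0 → f x = 0) ∧ (∀ s ∈ V, E s (G + f) = 0) ∧
      sq f ≤ 4 * ∑ s ∈ V, sq (E s G) := by
  classical
  let T := {H : Ω → ℝ // ∀ s ∈ V, ∀ x, (∀ u : Ω → ℝ, E s (fun y => a y * u y) x = 0) →
      E s H x = 0}
  have hstep : ∀ H : T, ∃ H' : T, (∀ x, a x = 0 → H'.1 x = H.1 x) ∧
      sq (H'.1 - H.1) ≤ ∑ s ∈ V, sq (E s H.1) ∧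
      ∑ s ∈ V, sq (E s H'.1) ≤ (1 / 4) * ∑ s ∈ V, sq (E s H.1) := by
    intro H
    obtain ⟨G', h1, h2, h3, h4⟩ := h.step V ha hη1 hη H.2
    exact ⟨⟨G', h1⟩, h2, h3, h4.trans (mul_le_mul_of_nonneg_right hq
      (Finset.sum_nonneg (fun s _ => sq_nonneg' _)))⟩
  choose nxt n1 n2 n3 using hstep
  let g : ℕ → T := fun n => nxt^[n] ⟨G, hG⟩
  have g0 : (g 0).1 = G := rfl
  have gs : ∀ n, g (n + 1) = nxt (g n) := fun n => Function.iterate_succ_apply' nxt n _
  set Φ := ∑ s ∈ V, sq (E s G) with hΦ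
  have hΦ0 : 0 ≤ Φ := Finset.sum_nonneg (fun s _ => sq_nonneg' _)
  have p1 : ∀ n, ∑ s ∈ V, sq (E s (g n).1) ≤ (1 / 4) ^ n * Φ := by
    intro n
    induction n with
    | zero => rw [g0]; simp [hΦ]
    | succ n ih =>
      rw [gs]
      refine (n3 (g n)).trans ?_
      rw [pow_succ]
      nlinarith
  have p2 : ∀ n x, a x = 0 → (g n).1 x = G x := by
    intro n x hx
    induction n with
    | zero => rfl
    | succ n ih => rw [gs, n1 (g n) x hx, ih]
  let F : ℕ → EuclideanSpace ℝ Ω := fun n => WithLp.toLp 2 (g n).1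
  have p3 : ∀ n, dist (F n) (F (n + 1)) ≤ Real.sqrt Φ * (1 / 2) ^ n := by
    intro n
    have e1 : dist (F n) (F (n + 1)) = Real.sqrt (sq ((g (n + 1)).1 - (g n).1)) :=
      dist_toLp _ _
    rw [e1]
    have e2 : Real.sqrt Φ * (1 / 2) ^ n = Real.sqrt ((1 / 4) ^ n * Φ) := by
      rw [Real.sqrt_mul (by positivity), mul_comm]
      congr 1
      rw [show (1 / 4 : ℝ) ^ n = ((1 / 2) ^ n) ^ 2 by
        rw [← pow_mul, mul_comm, pow_mul]; norm_num]
      rw [Real.sqrt_sq (by positivity)]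
    rw [e2]
    apply Real.sqrt_le_sqrt
    rw [gs]
    exact (n2 (g n)).trans (p1 n)
  have hc : CauchySeq F := cauchySeq_of_le_geometric (1 / 2) (Real.sqrt Φ) (by norm_num) p3
  obtain ⟨L, hL⟩ := cauchySeq_tendsto_of_complete hc
  have hd := dist_le_of_le_geometric_of_tendsto₀ (1 / 2) (Real.sqrt Φ) (by norm_num) p3 hL
  have hLx : ∀ x, Filter.Tendsto (fun n => (g n).1 x) Filter.atTop (nhds (L x)) := by
    intro x
    have := ((EuclideanSpace.proj (𝕜 := ℝ) x).continuous.tendsto L).comp hL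
    exact this
  have hLfun : Filter.Tendsto (fun n => (g n).1) Filter.atTop (nhds (fun x => L x)) :=
    tendsto_pi_nhds.mpr hLx
  refine ⟨fun x => L x - G x, ?_, ?_, ?_⟩
  · intro x hx
    have : Filter.Tendsto (fun n => (g n).1 x) Filter.atTop (nhds (G x)) := by
      have e : (fun n => (g n).1 x) = fun _ => G x := funext (fun n => p2 n x hx)
      rw [e]; exact tendsto_const_nhds
    show L x - G x = 0
    rw [tendsto_nhds_unique (hLx x) this, sub_self]
  · intro s hs
    have e1 : (G + fun x => L x - G x) = fun x => L x := by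
      ext x; simp
    rw [e1]
    -- `E s` is continuous
    have hcont : Continuous (E s) := LinearMap.continuous_of_finiteDimensional _
    have l1 : Filter.Tendsto (fun n => E s (g n).1) Filter.atTop (nhds (E s (fun x => L x))) :=
      (hcont.tendsto _).comp hLfun
    have l2 : Filter.Tendsto (fun n => sq (E s (g n).1)) Filter.atTop
        (nhds (sq (E s (fun x => L x)))) := by
      have hsq : Continuous (sq : (Ω → ℝ) → ℝ) := by
        unfold sq
        fun_prop
      exact (hsq.tendsto _).comp l1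
    have l3 : Filter.Tendsto (fun n => sq (E s (g n).1)) Filter.atTop (nhds 0) := by
      apply squeeze_zero (fun n => sq_nonneg' _) (g := fun n : ℕ => (1 / 4 : ℝ) ^ n * Φ)
      · intro n
        exact (Finset.single_le_sum (f := fun s => sq (E s (g n).1))
          (fun s _ => sq_nonneg' _) hs).trans (p1 n)
      · have := (tendsto_pow_atTop_nhds_zero_of_lt_one (r := (1 / 4 : ℝ)) (by norm_num)
          (by norm_num)).mul_const Φ
        simpa using this
    have l4 : sq (E s (fun x => L x)) = 0 := tendsto_nhds_unique l2 l3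
    ext x
    unfold sq at l4
    rw [Finset.sum_eq_zero_iff_of_nonneg (fun _ _ => sq_nonneg _)] at l4
    have := l4 x (Finset.mem_univ x)
    simpa using this
  · have e1 : dist (F 0) L = Real.sqrt (sq (fun x => L x - G x)) := by
      have : L = WithLp.toLp 2 (fun x => L x) := rfl
      rw [this]
      exact dist_toLp _ _
    rw [e1] at hd
    have h2 : Real.sqrt (sq (fun x => L x - G x)) ≤ 2 * Real.sqrt Φ := by
      refine hd.trans (le_of_eq ?_)
      norm_num
      ring
    have h3 := Real.sq_sqrt (sq_nonneg' (fun x => L x - G x))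
    have h4 := Real.sq_sqrt hΦ0
    have h5 := Real.sqrt_nonneg (sq (fun x => L x - G x))
    nlinarith [Real.sqrt_nonneg Φ]


end SolverAux

open Finset

variable {d R : ℕ} {X : Type} [Fintype X] (S : Sys d R X)

theorem isAvg_sys (K : Fin d → ℕ) : SolverAux.IsAvg (fun s : Fin d => S.E s (K s)) where
  idem := fun s f => S.E_idem s (K s) f
  comm := fun s t f => by
    by_cases h : s = t
    · subst h; rfl
    · exact S.E_comm s t (K s) (K t) f h
  adj := fun s f g => S.E_adj s (K s) f g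
  sum := fun s f => S.E_sum s (K s) f
  cs := fun s f g x => by
    have h := S.E_cs s (K s) f g x
    have e1 : (fun y => f y * g y) = f * g := rfl
    have e2 : (fun y => f y ^ 2) = f * f := by ext y; simp [sq]
    have e3 : (fun y => g y ^ 2) = g * g := by ext y; simp [sq]
    rw [e1, e2, e3]
    exact h
  nonneg := fun s f h x => S.E_nonneg s (K s) h x

/-- T3a (file Solver.lean) -/
theorem exists_Q (V : Finset (Fin d)) (K : Fin d → ℕ) :
    ∃ Q : (X → ℝ) →ₗ[ℝ] (X → ℝ), (∀ s ∈ V, ∀ G, S.E s (K s) (Q G) = 0) ∧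
      (∀ G, nsq (G - Q G) ≤ 2 ^ V.card * ∑ s ∈ V, nsq (S.E s (K s) G)) := by
  classical
  have key : ∃ Q : (X → ℝ) →ₗ[ℝ] (X → ℝ), (∀ s ∈ V, ∀ G, S.E s (K s) (Q G) = 0) ∧
      (∀ G, nsq (G - Q G) ≤ ∑ s ∈ V, nsq (S.E s (K s) G)) := by
    induction V using Finset.induction_on with
    | empty => exact ⟨LinearMap.id, by simp, fun G => by simp [nsq]⟩
    | insert t V ht ih =>
      obtain ⟨Q, h1, h2⟩ := ih
      refine ⟨Q - (S.E t (K t)).comp Q, ?_, ?_⟩
      · intro s hs G
        simp only [LinearMap.sub_apply, LinearMap.comp_apply]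
        rw [map_sub]
        rcases Finset.mem_insert.mp hs with rfl | hs
        · rw [S.E_idem, sub_self]
        · rw [(isAvg_sys S K).comm s t, h1 s hs G, map_zero, sub_zero]
      · intro G
        rw [Finset.sum_insert ht]
        have e1 : G - (Q - (S.E t (K t)).comp Q) G =
            (G - Q G) - S.E t (K t) (G - Q G) + S.E t (K t) G := by
          simp only [LinearMap.sub_apply, LinearMap.comp_apply, map_sub]
          abel
        rw [e1]
        have := (isAvg_sys S K).pyth t (G - Q G) G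
        have h3 := h2 G
        unfold SolverAux.sq at this
        unfold nsq at h3 ⊢
        linarith
  obtain ⟨Q, h1, h2⟩ := key
  refine ⟨Q, h1, fun G => (h2 G).trans ?_⟩
  have h3 : 0 ≤ ∑ s ∈ V, nsq (S.E s (K s) G) := Finset.sum_nonneg (fun _ _ => nsq_nonneg _)
  have h4 : (1:ℝ) ≤ 2 ^ V.card := one_le_pow₀ (by norm_num)
  nlinarith

/-- T3b (file Solver.lean) -/
theorem solver (V : Finset (Fin d)) (K : Fin d → ℕ) (A : Finset X) (η : ℝ) (hη0 : 0 ≤ η)
    (hη : 4 * V.card * 2 ^ V.card * η ≤ 1)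
    (hreg : ∀ s ∈ V, ∀ x ∈ A, S.E s (K s) (1 - ind A) x ≤ η) (G : X → ℝ)
    (hG : ∀ s ∈ V, ∀ x, (∀ y, S.rel s (K s) x y → y ∉ A) → S.E s (K s) G x = 0) :
    ∃ f : X → ℝ, (∀ x, x ∉ A → f x = 0) ∧ (∀ s ∈ V, S.E s (K s) (G + f) = 0) ∧
      nsq f ≤ 4 * 2 ^ V.card * ∑ s ∈ V, nsq (S.E s (K s) G) := by
  classical
  have h4 : (1:ℝ) ≤ 2 ^ V.card := one_le_pow₀ (by norm_num)
  have hq : (V.card : ℝ) * η ≤ 1 / 4 := by
    have : (V.card : ℝ) * η * 1 ≤ V.card * η * 2 ^ V.card :=
      mul_le_mul_of_nonneg_left h4 (by positivity)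
    nlinarith
  have hline : ∀ s ∈ V, ∀ x, (∀ y, S.rel s (K s) x y → y ∉ A) ∨
      S.E s (K s) (fun y => 1 - ind A y) x ≤ η := by
    intro s hs x
    by_cases h : ∀ y, S.rel s (K s) x y → y ∉ A
    · exact Or.inl h
    · right
      push Not at h
      obtain ⟨y, hy, hyA⟩ := h
      rw [S.E_meas s (K s) _ x y hy]
      exact hreg s hs y hyA
  have hzero : ∀ s x, (∀ y, S.rel s (K s) x y → y ∉ A) → ∀ u : X → ℝ,
      S.E s (K s) (fun y => ind A y * u y) x = 0 := by
    intro s x h u
    have e1 : S.E s (K s) (fun y => ind A y * u y) x = S.E s (K s) (fun _ => 0) x :=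
      S.E_local s (K s) x (fun y hy => by rw [ind_notMem (h y hy)]; ring)
    rw [e1, S.E_const]
  obtain ⟨f, f1, f2, f3⟩ := (isAvg_sys S K).solve V (a := ind A)
    (fun x => by
      by_cases hx : x ∈ A
      · exact Or.inr (ind_mem hx)
      · exact Or.inl (ind_notMem hx))
    hη0 hq
    (fun s hs x => by
      rcases hline s hs x with h | h
      · exact Or.inr (hzero s x h)
      · exact Or.inl h)
    (G := G)
    (fun s hs x hx => by
      apply hG s hs x
      intro y hy hyA
      -- a line meeting `A` does not satisfy `hx`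
      have h1 := hx (fun z => ind A z * 1)
      have h2 : S.E s (K s) (fun z => ind A z * (ind A z * 1)) x =
          1 - S.E s (K s) (1 - ind A) x := by
        have e2 : (fun z => ind A z * (ind A z * 1)) = (1 : X → ℝ) - (1 - ind A) := by
          ext z
          simp only [Pi.sub_apply, Pi.one_apply]
          by_cases hz : z ∈ A
          · rw [ind_mem hz]; norm_num
          · rw [ind_notMem hz]; norm_num
        rw [e2, map_sub, S.E_one]
        rfl
      have h3 : S.E s (K s) (1 - ind A) x ≤ η := by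
        rw [S.E_meas s (K s) _ x y hy]
        exact hreg s hs y hyA
      have h5 : (1:ℝ) ≤ V.card := by
        exact_mod_cast Finset.card_pos.mpr ⟨s, hs⟩
      have h6 : η ≤ 1 / 4 := by nlinarith
      rw [h2] at h1
      linarith)
  refine ⟨f, fun x hx => f1 x (ind_notMem hx), f2, ?_⟩
  have h5 : 0 ≤ ∑ s ∈ V, nsq (S.E s (K s) G) := Finset.sum_nonneg (fun _ _ => nsq_nonneg _)
  have h6 : nsq f ≤ 4 * ∑ s ∈ V, nsq (S.E s (K s) G) := f3
  nlinarith

end Pool.Agent.H730R2.LD
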