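import Pool.Agent.H730R2.LD.Doob
import Pool.Agent.H730R2.LD.Clean
import Pool.Agent.H730R2.LD.Solver
import Pool.Agent.H730R2.LD.Bessel

set_option autoImplicit false

/-!
# The balanced functions supported off a small set
-/

namespace Pool.Agent.H730R2.LD

open Finset

variable {d R : ℕ} {X : Type} [Fintype X] (S : Sys d R X)

/-- chain of exceptional sets -/
theorem chain (B : Finset X) (t : ℝ) (ht : 0 < t) (ht1 : t < 1) :
    ∃ Bs : ℕ → Finset X, Bs d = B ∧ (∀ q, q < d → (∀ x ∈ Bs (q + 1), x ∈ Bs q) ∧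
      (∀ x, x ∉ Bs q → ∀ (U : Finset (Fin d)) (K : Fin d → ℕ), (∀ s, K s ≤ R) →
        S.EU U K (ind (Bs (q + 1))) x ≤ t)) ∧
      ((Bs 0).card : ℝ) ≤ (4 ^ d / t ^ 2) ^ d * B.card := by
  choose f hf1 hf2 hf3 using fun B : Finset X => maximal S B t ht ht1
  have hcard : ∀ j, (((f^[j]) B).card : ℝ) ≤ (4 ^ d / t ^ 2) ^ j * B.card := by
    intro j
    induction j with
    | zero => simp
    | succ j ih =>
      rw [Function.iterate_succ_apply']
      have h1 := hf2 ((f^[j]) B)
      have h0 : (0 : ℝ) ≤ 4 ^ d / t ^ 2 := by positivity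
      calc ((f ((f^[j]) B)).card : ℝ) ≤ 4 ^ d / t ^ 2 * ((f^[j]) B).card := h1
        _ ≤ 4 ^ d / t ^ 2 * ((4 ^ d / t ^ 2) ^ j * B.card) := mul_le_mul_of_nonneg_left ih h0
        _ = _ := by ring
  refine ⟨fun q => (f^[d - q]) B, by simp, fun q hq => ?_, by simpa using hcard d⟩
  have e : d - q = (d - (q + 1)) + 1 := by omega
  have e2 : (f^[d - q]) B = f ((f^[d - (q + 1)]) B) := by
    rw [e, Function.iterate_succ_apply']
  constructor
  · intro x hx
    simp only
    rw [e2]
    exact hf1 _ x hx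
  · intro x hx U K hK
    simp only at hx
    rw [e2] at hx
    exact hf3 _ x hx U K hK

/-- pairs of terms cancel -/
theorem pair_cancel (F : Finset (Fin d) → (Fin d → ℕ) → X → ℝ) (K : Fin d → ℕ)
    (V0 : Finset (Fin d)) (s : Fin d) (hs : s ∉ V0) (T : Finset (Fin d)) (hT : T ⊆ V0)
    (hbal : S.E s (K s) (F (insert s T) K) = - S.E s (K s) (S.r s (K s) * F T K)) :
    S.E s (K s) (S.chi (insert s V0 \ T) K * F T K) +
      S.E s (K s) (S.chi (insert s V0 \ insert s T) K * F (insert s T) K) = 0 := by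
  have hsT : s ∉ T := fun h => hs (hT h)
  have hsd : s ∉ V0 \ T := fun h => hs (Finset.mem_sdiff.1 h).1
  have e1 : insert s V0 \ T = insert s (V0 \ T) := Finset.insert_sdiff_of_notMem _ hsT
  have e2 : insert s V0 \ insert s T = V0 \ T := by
    ext t
    simp only [Finset.mem_sdiff, Finset.mem_insert, not_or]
    constructor
    · rintro ⟨h1 | h1, h2, h3⟩
      · exact absurd h1 h2
      · exact ⟨h1, h3⟩
    · rintro ⟨h1, h2⟩
      exact ⟨Or.inr h1, fun h => hs (h ▸ h1), h2⟩
  rw [e1, e2, S.chi_insert hsd, S.E_chi hsd, hbal]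
  have e3 : S.r s (K s) * S.chi (V0 \ T) K * F T K =
      S.chi (V0 \ T) K * (S.r s (K s) * F T K) := by ring
  rw [e3, S.E_chi hsd]
  ring

/-- the conditional expectation of the partial sum -/
theorem E_partial (F : Finset (Fin d) → (Fin d → ℕ) → X → ℝ) (K : Fin d → ℕ)
    (V : Finset (Fin d)) (s : Fin d) (hs : s ∈ V)
    (hbal : ∀ T, T ⊆ V → T ≠ V → s ∈ T →
      S.E s (K s) (F T K) = - S.E s (K s) (S.r s (K s) * F (T.erase s) K)) :
    S.E s (K s) (∑ T ∈ V.powerset.erase V, S.chi (V \ T) K * F T K) =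
      S.E s (K s) (S.r s (K s) * F (V.erase s) K) := by
  classical
  set V0 := V.erase s with hV0
  have hsV0 : s ∉ V0 := Finset.notMem_erase s V
  have hV : insert s V0 = V := Finset.insert_erase hs
  have hmem : V ∈ V.powerset := Finset.mem_powerset_self V
  set g : Finset (Fin d) → X → ℝ := fun T => S.chi (V \ T) K * F T K with hg
  have h1 : ∑ T ∈ V.powerset.erase V, g T = ∑ T ∈ V.powerset, g T - g V := by
    rw [← Finset.sum_erase_add _ _ hmem, add_sub_cancel_right]
  have h2 : ∑ T ∈ V.powerset, g T = ∑ T ∈ V0.powerset, g T +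
      ∑ T ∈ V0.powerset, g (insert s T) := by
    conv_lhs => rw [← hV]
    exact Finset.sum_powerset_insert hsV0 g
  have h3 : ∑ T ∈ V0.powerset, g T + ∑ T ∈ V0.powerset, g (insert s T) - g V =
      g V0 + ∑ T ∈ V0.powerset.erase V0, (g T + g (insert s T)) := by
    have hm0 : V0 ∈ V0.powerset := Finset.mem_powerset_self V0
    rw [← Finset.sum_add_distrib, ← Finset.add_sum_erase _ _ hm0, hV]
    abel
  have h4 : ∀ T ∈ V0.powerset.erase V0, S.E s (K s) (g T + g (insert s T)) = 0 := by
    intro T hT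
    have hTne : T ≠ V0 := (Finset.mem_erase.1 hT).1
    have hTsub : T ⊆ V0 := Finset.mem_powerset.1 (Finset.mem_erase.1 hT).2
    have hsT : s ∉ T := fun h => hsV0 (hTsub h)
    rw [map_add]
    have hb := hbal (insert s T) (by rw [← hV]; exact Finset.insert_subset_insert s hTsub) (by
      intro h
      apply hTne
      rw [hV0, ← h, Finset.erase_insert hsT]) (Finset.mem_insert_self s T)
    rw [Finset.erase_insert hsT] at hb
    have := pair_cancel S F K V0 s hsV0 T hTsub hb
    rw [hV] at this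
    exact this
  have hgV0 : S.E s (K s) (g V0) = S.E s (K s) (S.r s (K s) * F V0 K) := by
    have e : V \ V0 = {s} := by
      ext t
      simp only [Finset.mem_sdiff, hV0, Finset.mem_erase, not_and, Finset.mem_singleton]
      constructor
      · rintro ⟨h1, h2⟩
        by_contra h
        exact h2 h h1
      · rintro rfl
        exact ⟨hs, fun h => absurd rfl h⟩
    have e2 : S.chi (V \ V0) K = S.r s (K s) := by
      rw [e]
      ext x
      simp [Sys.chi]
    simp only [hg]
    rw [e2]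
  rw [h1, h2, h3, map_add, map_sum, Finset.sum_eq_zero h4, add_zero, hgV0]

/-- the whole sum is balanced -/
theorem E_whole (F : Finset (Fin d) → (Fin d → ℕ) → X → ℝ) (K : Fin d → ℕ)
    (V : Finset (Fin d)) (s : Fin d) (hs : s ∈ V)
    (hbal : ∀ T, T ⊆ V → s ∈ T →
      S.E s (K s) (F T K) = - S.E s (K s) (S.r s (K s) * F (T.erase s) K)) :
    S.E s (K s) (∑ T ∈ V.powerset, S.chi (V \ T) K * F T K) = 0 := by
  classical
  have hmem : V ∈ V.powerset := Finset.mem_powerset_self V
  rw [← Finset.sum_erase_add _ _ hmem, map_add,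
    E_partial S F K V s hs (fun T h1 _ h3 => hbal T h1 h3), Finset.sdiff_self, S.chi_empty, one_mul,
    hbal V le_rfl hs]
  ring

/-- one step of the construction -/
theorem step (V : Finset (Fin d)) (K : Fin d → ℕ) (hK : ∀ s, K s ≤ R) (L : ℝ)
    (hL1 : 1 ≤ L) (hL : 4 * (d : ℝ) * 2 ^ d * (2 ^ d / L) ≤ 1) (Bq B : Finset X)
    (hB : ∀ x, x ∉ Bq → ∀ (U : Finset (Fin d)) (K : Fin d → ℕ), (∀ s, K s ≤ R) →
        S.EU U K (ind B) x ≤ 1 / 2 / L ^ d)
    (F : Finset (Fin d) → (Fin d → ℕ) → X → ℝ)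
    (hsupp : ∀ s ∈ V, ∀ x ∈ Bq, F (V.erase s) K x = 0)
    (hbal : ∀ T, T ⊆ V → T ≠ V → ∀ s ∈ T,
      S.E s (K s) (F T K) = - S.E s (K s) (S.r s (K s) * F (T.erase s) K)) :
    ∃ f : X → ℝ, (∀ x ∈ B, f x = 0) ∧
      (∀ s ∈ V, S.E s (K s) f = - S.E s (K s) (S.r s (K s) * F (V.erase s) K)) ∧
      nsq f ≤ 4 * 2 ^ d * ∑ s ∈ V, nsq (S.E s (K s) (S.r s (K s) * F (V.erase s) K)) := by
  classical
  obtain ⟨A, hA1, hA2, hA3⟩ := clean S V K B L hL1
  set G : X → ℝ := ∑ T ∈ V.powerset.erase V, S.chi (V \ T) K * F T K with hG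
  have hEG : ∀ s ∈ V, S.E s (K s) G = S.E s (K s) (S.r s (K s) * F (V.erase s) K) := by
    intro s hs
    exact E_partial S F K V s hs (fun T h1 h2 h3 => hbal T h1 h2 s h3)
  have hL0 : 0 < L := by linarith
  have hcard : V.card ≤ d := by
    have := Finset.card_le_univ V
    simpa using this
  have h2c : (2 : ℝ) ^ V.card ≤ 2 ^ d := pow_le_pow_right₀ (by norm_num) hcard
  obtain ⟨f, hf1, hf2, hf3⟩ := solver S V K A (2 ^ d / L) (by positivity) (by
    refine le_trans ?_ hL
    have hc : (V.card : ℝ) ≤ d := by exact_mod_cast hcard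
    have : (0 : ℝ) ≤ 2 ^ d / L := by positivity
    gcongr) hA3 G (by
    intro s hs x hx
    rw [hEG s hs]
    have : S.E s (K s) (S.r s (K s) * F (V.erase s) K) x = S.E s (K s) (fun _ => 0) x := by
      apply S.E_local
      intro y hy
      have hyA := hx y hy
      have hyB : y ∈ Bq := by
        by_contra h
        exact hyA (hA2 y (fun U _ => hB y h U K hK))
      simp only [Pi.mul_apply]
      rw [hsupp s hs y hyB, mul_zero]
    rw [this, S.E_const])
  refine ⟨f, fun x hx => hf1 x (fun h => hA1 x h hx), fun s hs => ?_, ?_⟩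
  · have h := hf2 s hs
    rw [map_add, hEG s hs] at h
    exact eq_neg_of_add_eq_zero_right h
  · have hsum : ∑ s ∈ V, nsq (S.E s (K s) G) =
        ∑ s ∈ V, nsq (S.E s (K s) (S.r s (K s) * F (V.erase s) K)) :=
      Finset.sum_congr rfl fun s hs => by rw [hEG s hs]
    rw [hsum] at hf3
    refine hf3.trans ?_
    have h0 : 0 ≤ ∑ s ∈ V, nsq (S.E s (K s) (S.r s (K s) * F (V.erase s) K)) :=
      Finset.sum_nonneg fun s _ => nsq_nonneg _
    gcongr

/-- the family up to size `q` -/
structure Fam (Bs : ℕ → Finset X) (F : Finset (Fin d) → (Fin d → ℕ) → X → ℝ) (q : ℕ) :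
    Prop where
  zero : ∀ K, F ∅ K = 1 - ind (Bs 0)
  dep : ∀ V K K', (∀ s ∈ V, K s = K' s) → F V K = F V K'
  supp : ∀ V K, V.card ≤ q → (∀ s, K s ≤ R) → ∀ x ∈ Bs V.card, F V K x = 0
  bal : ∀ V K, V.card ≤ q → (∀ s, K s ≤ R) → ∀ s ∈ V,
    S.E s (K s) (F V K) = - S.E s (K s) (S.r s (K s) * F (V.erase s) K)
  norm : ∀ V K, V.card ≤ q → V.Nonempty → (∀ s, K s ≤ R) →
    nsq (F V K) ≤ 4 * 2 ^ d * ∑ s ∈ V, nsq (S.E s (K s) (S.r s (K s) * F (V.erase s) K))

/-- levels outside `V` replaced by zero -/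
noncomputable def mask (V : Finset (Fin d)) (K : Fin d → ℕ) : Fin d → ℕ := by
  classical
  exact fun s => if s ∈ V then K s else 0

theorem mask_mem {V : Finset (Fin d)} {K : Fin d → ℕ} {s : Fin d} (hs : s ∈ V) :
    mask V K s = K s := by simp [mask, hs]

theorem mask_le {V : Finset (Fin d)} {K : Fin d → ℕ} (h : ∀ s, K s ≤ R) (s : Fin d) :
    mask V K s ≤ R := by
  unfold mask
  split_ifs
  · exact h s
  · exact Nat.zero_le R

theorem mask_congr {V : Finset (Fin d)} {K K' : Fin d → ℕ} (h : ∀ s ∈ V, K s = K' s) :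
    mask V K = mask V K' := by
  ext s
  unfold mask
  by_cases hs : s ∈ V
  · simp [hs, h s hs]
  · simp [hs]

theorem exists_fam (L : ℝ) (hL1 : 1 ≤ L) (hL : 4 * (d : ℝ) * 2 ^ d * (2 ^ d / L) ≤ 1)
    (Bs : ℕ → Finset X)
    (hBs : ∀ q, q < d → (∀ x ∈ Bs (q + 1), x ∈ Bs q) ∧
      (∀ x, x ∉ Bs q → ∀ (U : Finset (Fin d)) (K : Fin d → ℕ), (∀ s, K s ≤ R) →
        S.EU U K (ind (Bs (q + 1))) x ≤ 1 / 2 / L ^ d)) (q : ℕ) (hq : q ≤ d) :
    ∃ F : Finset (Fin d) → (Fin d → ℕ) → X → ℝ, Fam S Bs F q := by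
  classical
  induction q with
  | zero =>
    refine ⟨fun V _ => if V = ∅ then 1 - ind (Bs 0) else 0, ?_, ?_, ?_, ?_, ?_⟩
    · intro K; simp
    · intro V K K' _; rfl
    · intro V K hV _ x hx
      have : V = ∅ := Finset.card_eq_zero.1 (Nat.le_zero.1 hV)
      subst this
      simp only [Finset.card_empty] at hx
      simp [ind_mem hx]
    · intro V K hV _ s hs
      have : V = ∅ := Finset.card_eq_zero.1 (Nat.le_zero.1 hV)
      subst this
      exact absurd hs (Finset.notMem_empty s)
    · intro V K hV hne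
      have : V = ∅ := Finset.card_eq_zero.1 (Nat.le_zero.1 hV)
      subst this
      exact absurd hne Finset.not_nonempty_empty
  | succ q ih =>
    obtain ⟨F, hF⟩ := ih (by omega)
    obtain ⟨_, hB2⟩ := hBs q (by omega)
    have key : ∀ (V : Finset (Fin d)) (K : Fin d → ℕ), ∃ f : X → ℝ, V.card = q + 1 →
        (∀ s, K s ≤ R) → ((∀ x ∈ Bs (q + 1), f x = 0) ∧
        (∀ s ∈ V, S.E s (K s) f = - S.E s (K s) (S.r s (K s) * F (V.erase s) K)) ∧
        nsq f ≤ 4 * 2 ^ d * ∑ s ∈ V, nsq (S.E s (K s) (S.r s (K s) * F (V.erase s) K))) := by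
      intro V K
      by_cases hV : V.card = q + 1
      · by_cases hK : ∀ s, K s ≤ R
        · obtain ⟨f, hf⟩ := step S V K hK L hL1 hL (Bs q) (Bs (q + 1)) hB2 F (by
            intro s hs x hx
            have hc : (V.erase s).card = q := by rw [Finset.card_erase_of_mem hs, hV]; rfl
            exact hF.supp (V.erase s) K hc.le hK x (by rw [hc]; exact hx)) (by
            intro T hT hTV s hs
            have hc : T.card < V.card :=
              Finset.card_lt_card (Finset.ssubset_iff_subset_ne.2 ⟨hT, hTV⟩)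
            exact hF.bal T K (by omega) hK s hs)
          exact ⟨f, fun _ _ => hf⟩
        · exact ⟨0, fun _ h => absurd h hK⟩
      · exact ⟨0, fun h => absurd h hV⟩
    choose g hg using key
    refine ⟨fun V K => if V.card = q + 1 then g V (mask V K) else F V K, ?_, ?_, ?_, ?_, ?_⟩
    · intro K
      have h0 : ¬ ((∅ : Finset (Fin d)).card = q + 1) := by simp
      rw [if_neg h0]
      exact hF.zero K
    · intro V K K' h
      rw [mask_congr h, hF.dep V K K' h]
    · intro V K hV hK x hx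
      by_cases hc : V.card = q + 1
      · rw [if_pos hc]
        exact (hg V (mask V K) hc (mask_le hK)).1 x (by rw [← hc]; exact hx)
      · rw [if_neg hc]
        exact hF.supp V K (by omega) hK x hx
    · intro V K hV hK s hs
      have hce : (V.erase s).card = V.card - 1 := Finset.card_erase_of_mem hs
      have hpos : 0 < V.card := Finset.card_pos.2 ⟨s, hs⟩
      rw [if_neg (show ¬ (V.erase s).card = q + 1 by omega)]
      by_cases hc : V.card = q + 1
      · rw [if_pos hc]
        have h := (hg V (mask V K) hc (mask_le hK)).2.1 s hs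
        rw [mask_mem hs, hF.dep (V.erase s) (mask V K) K
          (fun t ht => mask_mem (Finset.mem_of_mem_erase ht))] at h
        exact h
      · rw [if_neg hc]
        exact hF.bal V K (by omega) hK s hs
    · intro V K hV hne hK
      have hce : ∀ s ∈ V, ¬ (V.erase s).card = q + 1 := by
        intro s hs
        have h1 : (V.erase s).card = V.card - 1 := Finset.card_erase_of_mem hs
        have hpos : 0 < V.card := Finset.card_pos.2 ⟨s, hs⟩
        omega
      have hsum : ∑ s ∈ V, nsq (S.E s (K s) (S.r s (K s) *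
          (if (V.erase s).card = q + 1 then g (V.erase s) (mask (V.erase s) K)
            else F (V.erase s) K))) =
          ∑ s ∈ V, nsq (S.E s (K s) (S.r s (K s) * F (V.erase s) K)) :=
        Finset.sum_congr rfl fun s hs => by rw [if_neg (hce s hs)]
      rw [hsum]
      by_cases hc : V.card = q + 1
      · rw [if_pos hc]
        have h := (hg V (mask V K) hc (mask_le hK)).2.2
        have hsum2 : ∑ s ∈ V, nsq (S.E s (mask V K s) (S.r s (mask V K s) *
            F (V.erase s) (mask V K))) =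
            ∑ s ∈ V, nsq (S.E s (K s) (S.r s (K s) * F (V.erase s) K)) := by
          apply Finset.sum_congr rfl
          intro s hs
          rw [mask_mem hs, hF.dep (V.erase s) (mask V K) K
            (fun t ht => mask_mem (Finset.mem_of_mem_erase ht))]
        rw [hsum2] at h
        exact h
      · rw [if_neg hc]
        exact hF.norm V K (by omega) hne hK

end Pool.Agent.H730R2.LD
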